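import Pool.Agent.Helper2.KW.A1c
import Pool.Agent.Helper47.NI.Main

/-!
# Some point of a good Wehler surface is not periodic of period `M`
-/

namespace Pool.Agent.Helper2.KW

open MvPolynomial Pool.Agent.Helper47.NI

theorem coord_zero {k : Type*} [Field k] {u w : V3 k} (h : crs u w = 0) (hw : Uni w)
    (h0 : w 0 = 0) : u 0 = 0 := by
  have h1 : u 2 * w 0 - u 0 * w 2 = 0 := congrFun h 1
  have h2 : u 0 * w 1 - u 1 * w 0 = 0 := congrFun h 2
  obtain ⟨a, ha⟩ := hw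
  simp only [dot, Fin.sum_univ_three] at ha
  linear_combination (-(u 0)) * ha - a 2 * h1 + a 1 * h2 + (a 0 * u 0 + a 1 * u 1 + a 2 * u 2) * h0

theorem crs_anti3 {k : Type*} [Field k] {u w : V3 k} (h : crs u w = 0) : crs w u = 0 := by
  have h0 : u 1 * w 2 - u 2 * w 1 = 0 := congrFun h 0
  have h1 : u 2 * w 0 - u 0 * w 2 = 0 := congrFun h 1
  have h2 : u 0 * w 1 - u 1 * w 0 = 0 := congrFun h 2
  funext i
  fin_cases i
  · show w 1 * u 2 - w 2 * u 1 = 0
    linear_combination -h0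
  · show w 2 * u 0 - w 0 * u 2 = 0
    linear_combination -h1
  · show w 0 * u 1 - w 1 * u 0 = 0
    linear_combination -h2

namespace TP

variable {δ : MvPolynomial WI ℤ} [Fact (Nice δ)] {k : Type} [Field k] [Two k]

omit [Fact (Nice δ)] in
theorem two_ne : (2 : k) ≠ 0 := (Two.unit (R := k)).ne_zero

/-- The zeros of the norm of `h`. -/
theorem norm1 [IsAlgClosed k] (W : WD k) {h g : MvPolynomial (Fin 3) k}
    (hN : IsNorm W.dbl h g) (x : TP δ k) (hx : x.W = W) :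
    eval x.v g = 0 ↔ eval x.u h = 0 ∨ eval (F x).u h = 0 := by
  have e := hN x.u x.s1.u x.v (fun p => by
    rw [show W.dbl.G = W.Gp from rfl, WD.eval_Gp]
    have h1 := x.s1_conj p.1 p.2
    rw [hx] at h1
    exact h1.symm)
  have h2 : (F x).u = x.s1.u := by rw [F_apply, s2_u]
  rw [h2, e, ← two_mul, mul_eq_zero, mul_eq_zero]
  exact or_iff_right two_ne

/-- The zeros of the norm of `g`. -/
theorem norm2 [IsAlgClosed k] (W : WD k) {h g : MvPolynomial (Fin 3) k}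
    (hN : IsNorm W.dbl.swap g h) (x : TP δ k) (hx : x.W = W) :
    eval x.u h = 0 ↔ eval x.v g = 0 ∨ eval x.s2.v g = 0 := by
  have e := hN x.v x.s2.v x.u (fun p => by
    rw [show W.dbl.swap.G = W.swap.Gp from rfl, WD.eval_Gp]
    have h1 := x.s2_conj p.1 p.2
    rw [hx] at h1
    exact h1.symm)
  rw [e, ← two_mul, mul_eq_zero, mul_eq_zero]
  exact or_iff_right two_ne

theorem zpow_F (i : ℤ) (x : TP δ k) : (F ^ i : Equiv.Perm (TP δ k)) (F x) =
    (F ^ (i + 1) : Equiv.Perm (TP δ k)) x := by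
  rw [zpow_add_one, Equiv.Perm.mul_apply]

theorem zpow_F_symm (i : ℤ) (x : TP δ k) : (F ^ i : Equiv.Perm (TP δ k)) (F.symm x) =
    (F ^ (i - 1) : Equiv.Perm (TP δ k)) x := by
  rw [zpow_sub_one, Equiv.Perm.mul_apply]; rfl

/-- The form `h` vanishes at `x` if and only if `X 0` vanishes at `F ^ i x` for some `i` with
`- r ≤ i ≤ r`. -/
def Hr (δ : MvPolynomial WI ℤ) [Fact (Nice δ)] (W : WD k) (r : ℕ) (h : MvPolynomial (Fin 3) k) :
    Prop :=
  ∀ x : TP δ k, x.W = W → (eval x.u h = 0 ↔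
    ∃ i : ℤ, -(r : ℤ) ≤ i ∧ i ≤ r ∧ ((F ^ i : Equiv.Perm (TP δ k)) x).u 0 = 0)

/-- The form `g` vanishes at `x` if and only if `X 0` vanishes at `F ^ i x` for some `i` with
`- r ≤ i ≤ r + 1`. -/
def Gr (δ : MvPolynomial WI ℤ) [Fact (Nice δ)] (W : WD k) (r : ℕ) (g : MvPolynomial (Fin 3) k) :
    Prop :=
  ∀ x : TP δ k, x.W = W → (eval x.v g = 0 ↔
    ∃ i : ℤ, -(r : ℤ) ≤ i ∧ i ≤ r + 1 ∧ ((F ^ i : Equiv.Perm (TP δ k)) x).u 0 = 0)

theorem exists_g [IsAlgClosed k] [CharZero k] (W : WD k) (hW : W.Good) {r : ℕ}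
    {h : MvPolynomial (Fin 3) k} {d : ℕ} (hd : h.IsHomogeneous d) (h0 : h ≠ 0)
    (hx : Hr δ W r h) : ∃ (g : MvPolynomial (Fin 3) k) (e : ℕ), g.IsHomogeneous e ∧ g ≠ 0 ∧
      Gr δ W r g := by
  obtain ⟨g, hg, hN⟩ := W.dbl.exists_norm two_ne hd hd
  refine ⟨g, _, hg, W.norm_ne_zero hW hd h0 hN, fun x hxW => ?_⟩
  rw [norm1 W hN x hxW, hx x hxW, hx (F x) (by rw [F_W, hxW])]
  constructor
  · rintro (⟨i, h1, h2, h3⟩ | ⟨i, h1, h2, h3⟩)
    · exact ⟨i, h1, by omega, h3⟩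
    · rw [zpow_F] at h3
      exact ⟨i + 1, by omega, by omega, h3⟩
  · rintro ⟨i, h1, h2, h3⟩
    rcases eq_or_lt_of_le h2 with h4 | h4
    · refine Or.inr ⟨i - 1, by omega, by omega, ?_⟩
      rw [zpow_F, sub_add_cancel]
      exact h3
    · exact Or.inl ⟨i, h1, by omega, h3⟩

theorem exists_h [IsAlgClosed k] [CharZero k] (W : WD k) (hW : W.Good) (r : ℕ) :
    ∃ (h : MvPolynomial (Fin 3) k) (d : ℕ), h.IsHomogeneous d ∧ h ≠ 0 ∧ Hr δ W r h := by
  induction r with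
  | zero =>
    refine ⟨X 0, 1, isHomogeneous_X k 0, X_ne_zero 0, fun x _ => ?_⟩
    rw [eval_X]
    constructor
    · intro h
      exact ⟨0, by simp, by simp, h⟩
    · rintro ⟨i, h1, h2, h3⟩
      have : i = 0 := by
        have h1' : (0 : ℤ) ≤ i := by simpa using h1
        have h2' : i ≤ 0 := by simpa using h2
        omega
      subst this
      exact h3
  | succ r ih =>
    obtain ⟨h, d, hd, h0, hx⟩ := ih
    obtain ⟨g, e, hg, hg0, hgx⟩ := exists_g W hW hd h0 hx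
    have hsw : W.swap.Good := ⟨hW.2, hW.1⟩
    obtain ⟨h', hh', hN⟩ := W.dbl.swap.exists_norm two_ne hg hg
    refine ⟨h', _, hh', W.swap.norm_ne_zero hsw hg hg0 hN, fun x hxW => ?_⟩
    have h2 : (x.s2).W = W := by rw [s2_W, hxW]
    obtain ⟨g1, hg1, hN1⟩ := W.dbl.exists_norm two_ne hd hd
    have e1 : eval x.s2.v g = 0 ↔ ∃ i : ℤ, -(r : ℤ) ≤ i ∧ i ≤ r + 1 ∧
        ((F ^ i : Equiv.Perm (TP δ k)) x.s2).u 0 = 0 := hgx x.s2 h2
    -- the same set, computed with the norm of `h`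
    have e2 : eval x.s2.v g = 0 ↔ eval x.s2.v g1 = 0 := by
      rw [hgx x.s2 h2, norm1 W hN1 x.s2 h2, hx x.s2 h2, hx (F x.s2) (by rw [F_W, h2])]
      constructor
      · rintro ⟨i, a1, a2, a3⟩
        rcases eq_or_lt_of_le a2 with h4 | h4
        · refine Or.inr ⟨i - 1, by omega, by omega, ?_⟩
          rw [zpow_F, sub_add_cancel]
          exact a3
        · exact Or.inl ⟨i, a1, by omega, a3⟩
      · rintro (⟨i, a1, a2, a3⟩ | ⟨i, a1, a2, a3⟩)
        · exact ⟨i, a1, by omega, a3⟩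
        · rw [zpow_F] at a3
          exact ⟨i + 1, by omega, by omega, a3⟩
    have e3 : (F x.s2).u = (F.symm x).u := by
      rw [F_apply, s2_u, F_symm_apply]
    rw [norm2 W hN x hxW, e2, norm1 W hN1 x.s2 h2, s2_u, e3, hgx x hxW, hx x hxW,
      hx (F.symm x) (by rw [F_symm_W, hxW])]
    push_cast
    constructor
    · rintro (⟨i, a1, a2, a3⟩ | ⟨i, a1, a2, a3⟩ | ⟨i, a1, a2, a3⟩)
      · exact ⟨i, by omega, by omega, a3⟩
      · exact ⟨i, by omega, by omega, a3⟩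
      · rw [zpow_F_symm] at a3
        exact ⟨i - 1, by omega, by omega, a3⟩
    · rintro ⟨i, a1, a2, a3⟩
      rcases lt_or_ge i (-(r : ℤ)) with h4 | h4
      · refine Or.inr (Or.inr ⟨i + 1, by omega, by omega, ?_⟩)
        rw [zpow_F_symm, add_sub_cancel_right]
        exact a3
      · exact Or.inl ⟨i, h4, by omega, a3⟩

/-- Squarefree forms with the same zeros. -/
theorem exists_rad [IsAlgClosed k] {f : MvPolynomial (Fin 3) k} {d : ℕ} (hf : f.IsHomogeneous d)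
    (h0 : f ≠ 0) : ∃ (g : MvPolynomial (Fin 3) k) (e : ℕ), g.IsHomogeneous e ∧ Squarefree g ∧
      ∀ z : Fin 3 → k, eval z g = 0 ↔ eval z f = 0 := by
  have : Infinite k := IsAlgClosed.instInfinite
  obtain ⟨g, n, hg, hgf, hfg⟩ := exists_squarefree_dvd_pow_of_ne_zero h0
  obtain ⟨q, hq⟩ := hgf
  have h1 := hf
  rw [hq] at h1
  obtain ⟨a, b, ha, -, -⟩ := hom_factor h1 (by rw [← hq]; exact h0)
  refine ⟨g, a, ha, hg, fun z => ⟨fun h => by rw [hq, map_mul, h, zero_mul], fun h => ?_⟩⟩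
  obtain ⟨s, hs⟩ := hfg
  have h2 : eval z g ^ n = 0 := by rw [← _root_.map_pow, hs, map_mul, h, zero_mul]
  exact eq_zero_of_pow_eq_zero h2

/-- Proof.  Suppose that `F ^ M x` and `x` are parallel for all points `x` of `W`.  Let
`h 0 = X 0`, `g r = N1 (h r)`, `h (r + 1) = N2 (g r)`; `h r` vanishes at `x` if and only if `h 0`
vanishes at `γ x` for some `γ` in the set of words of length at most `2 r` in `s1`, `s2`; for
`r ≥ M` this set of points is stable under both involutions, so `h r` and `g r` have the same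
zeros on the surface; the radicals contradict `NI` (`Helper47/NI/Main.lean`). -/
theorem exists_nonperiodic [IsAlgClosed k] [CharZero k] (W : WD k) (hW : IsUnit (evW δ W))
    {M : ℕ} (hM : 0 < M) :
    ∃ x : TP δ k, x.W = W ∧ ¬ Par ((F ^ M : Equiv.Perm (TP δ k)) x) x := by
  by_contra hcon
  push Not at hcon
  have hgood : W.Good := (Fact.out (p := Nice δ)) k W hW
  -- periodicity of the zeros
  have hper : ∀ x : TP δ k, x.W = W →
      (((F ^ M : Equiv.Perm (TP δ k)) x).u 0 = 0 ↔ x.u 0 = 0) := by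
    intro x hx
    have h1 := (hcon x hx).1
    exact ⟨fun h => coord_zero (crs_anti3 h1) ((F ^ M : Equiv.Perm (TP δ k)) x).hu h,
      fun h => coord_zero h1 x.hu h⟩
  have hperz : ∀ (q : ℤ) (x : TP δ k), x.W = W →
      (((F ^ ((M : ℤ) * q) : Equiv.Perm (TP δ k)) x).u 0 = 0 ↔ x.u 0 = 0) := by
    intro q
    induction q with
    | zero => intro x _; simp
    | succ q ih =>
      intro x hx
      have h1 : (F ^ ((M : ℤ) * ((q : ℤ) + 1)) : Equiv.Perm (TP δ k)) x =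
          (F ^ ((M : ℤ) * q) : Equiv.Perm (TP δ k)) ((F ^ M : Equiv.Perm (TP δ k)) x) := by
        rw [mul_add, mul_one, zpow_add, Equiv.Perm.mul_apply, zpow_natCast]
      rw [h1, ih _ (by rw [pow_W, hx]), hper x hx]
    | pred q ih =>
      intro x hx
      have h1 : (F ^ ((M : ℤ) * (-(q : ℤ))) : Equiv.Perm (TP δ k)) x =
          (F ^ M : Equiv.Perm (TP δ k))
            ((F ^ ((M : ℤ) * (-(q : ℤ) - 1)) : Equiv.Perm (TP δ k)) x) := by
        rw [← Equiv.Perm.mul_apply, ← zpow_natCast, ← zpow_add]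
        congr 2
        ring
      have h2 := hper _ (show ((F ^ ((M : ℤ) * (-(q : ℤ) - 1)) : Equiv.Perm (TP δ k)) x).W = W by
        rw [zpow_W, hx])
      rw [← h2, ← h1, ih x hx]
  obtain ⟨h, d, hd, h0, hh⟩ := exists_h (δ := δ) W hgood M
  obtain ⟨g, e, he, g0, hg⟩ := exists_g W hgood hd h0 hh
  have hall : ∀ x : TP δ k, x.W = W → (eval x.u h = 0 ↔ eval x.v g = 0) := by
    intro x hx
    rw [hh x hx, hg x hx]
    constructor
    · rintro ⟨i, a1, a2, a3⟩
      exact ⟨i, a1, by omega, a3⟩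
    · rintro ⟨i, a1, a2, a3⟩
      have hMz : (0 : ℤ) < M := by exact_mod_cast hM
      refine ⟨i % M, by have := Int.emod_nonneg i hMz.ne'; omega,
        (Int.emod_lt_of_pos i hMz).le, ?_⟩
      have h1 : (F ^ i : Equiv.Perm (TP δ k)) x = (F ^ ((M : ℤ) * (i / M)) : Equiv.Perm (TP δ k))
          ((F ^ (i % M) : Equiv.Perm (TP δ k)) x) := by
        rw [← Equiv.Perm.mul_apply, ← zpow_add, Int.mul_ediv_add_emod]
      rw [h1, hperz _ _ (by rw [zpow_W, hx])] at a3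
      exact a3
  -- a zero
  obtain ⟨v, hv, hpt⟩ := W.swap.exists_pt (Pi.single 1 1 : V3 k)
  have hu : (Pi.single 1 1 : V3 k) ≠ 0 := by
    intro h
    have := congrFun h 1
    simp at this
  let x0 : TP δ k := ⟨W, Pi.single 1 1, v, hW, uni_iff.mpr hu, uni_iff.mpr hv,
    (W.swap_isPt _ _).mp hpt⟩
  have hx0 : eval x0.u h = 0 := by
    rw [hh x0 rfl]
    refine ⟨0, by omega, by omega, ?_⟩
    rw [zpow_zero]
    show (Pi.single 1 1 : V3 k) 0 = 0
    simp
  obtain ⟨h', d', hd', hsq, hz⟩ := exists_rad hd h0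
  obtain ⟨g', e', he', gsq, gz⟩ := exists_rad he g0
  have hpos : 0 < d' := by
    rcases Nat.eq_zero_or_pos d' with hd0 | hd0
    · exfalso
      rw [hd0] at hd'
      have h1 := totalDegree_eq_zero_iff_eq_C.mp (hd'.totalDegree hsq.ne_zero)
      have h2 := (hz x0.u).mpr hx0
      rw [h1, eval_C] at h2
      rw [h2, C_0] at h1
      exact hsq.ne_zero h1
    · exact hd0
  refine no_compat two_ne (by norm_num) le_rfl W.dbl (W.dbl_dense hgood) (W.dbl_swap_dense hgood)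
    hd' he' hsq gsq hpos ?_
  rintro u v' ⟨hu', hv', hp⟩ - -
  rw [hz, gz]
  exact hall ⟨W, u, v', hW, uni_iff.mpr hu', uni_iff.mpr hv', hp⟩ rfl

end TP

end Pool.Agent.Helper2.KW
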