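import Pool.Agent.Helper2.KW.A3
import Pool.Agent.Helper2.KW.A4c

/-!
# The generic point of a good Wehler surface is not periodic
-/

namespace Pool.Agent.Helper2.KW

open MvPolynomial

namespace TP

variable {δ : MvPolynomial WI ℤ} [Fact (Nice δ)]

/-- Proof.  One may replace `Ω` by an algebraically closed extension containing a further
transcendental `c`, `k₀` by its algebraic closure `k` in it and `x.u` by a multiple, so `x.u`
consists of three algebraically independent elements over `k`.  Let `y` be a point of `W` over `k`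
with `¬ Par (F ^ M y) y` (`exists_nonperiodic`).  The homomorphism `k [x.u] → k`, `x.u ↦ y.u`,
extends to a place: a valuation ring `O` of `Ω` containing `k [x.u]`, with residue field `κ ⊇ k`.
Multiply `x.v` by a scalar to make it unimodular over `O`.  Then `x` is a point over `O` and
`Par (F ^ M x) x` specializes to the residue field (`map_pow`, `Par.map`); the specialization of
`x` has first coordinate `y.u`, so it is parallel to `y` or to `s2 y` (over `κ`; see
`conj_third`).  And `F ^ M (s2 y)` parallel to `s2 y` implies `F ^ M y` parallel to `y`, as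
`s2 F s2 = F⁻¹`. -/
theorem generic_nonperiodic {k₀ Ω : Type} [Field k₀] [Field Ω] [Algebra k₀ Ω] [CharZero Ω]
    [Two Ω] (W : WD k₀) (x : TP δ Ω) (hxW : x.W = W.map (algebraMap k₀ Ω)) (a b : Ω)
    (hab : AlgebraicIndependent k₀ ![a, b]) (hu : x.u = ![1, a, b]) {M : ℕ} (hM : 0 < M) :
    ¬ Par ((F ^ M : Equiv.Perm (TP δ Ω)) x) x := by
  intro hper
  -- the algebraic closure of `Ω` and of `k₀` in it
  let Ω' : Type := AlgebraicClosure Ω
  have : CharZero Ω' := charZero_of_injective_algebraMap (algebraMap Ω Ω').injective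
  have : Two Ω' := Two.of_hom (algebraMap Ω Ω')
  let k : Type := algebraicClosure k₀ Ω'
  have hk : IsAlgClosure k₀ (algebraicClosure k₀ Ω') := algebraicClosure.isAlgClosure k₀ Ω'
  have : IsAlgClosed k := hk.isAlgClosed
  have : CharZero k := (algebraMap k Ω').charZero
  have : Two k := ⟨(two_ne_zero (α := k)).isUnit⟩
  set W₁ : WD k := W.map (algebraMap k₀ k) with hW₁
  have htow : (algebraMap k Ω').comp (algebraMap k₀ k) =
      (algebraMap Ω Ω').comp (algebraMap k₀ Ω) := by
    rw [← IsScalarTower.algebraMap_eq k₀ k Ω', ← IsScalarTower.algebraMap_eq k₀ Ω Ω']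
  have hunit : IsUnit (evW δ W₁) := by
    have h1 : evW δ W ≠ 0 := by
      intro h
      have h2 := x.hd.ne_zero
      rw [hxW, evW_map, h, map_zero] at h2
      exact h2 rfl
    rw [hW₁, evW_map]
    exact h1.isUnit.map _
  obtain ⟨y, hyW, hy⟩ := exists_nonperiodic W₁ hunit hM
  obtain ⟨i, hi⟩ := Function.ne_iff.mp y.hu.ne_zero
  -- the generic point
  set x' : TP δ Ω' := x.map (algebraMap Ω Ω') with hx'
  have hab' : AlgebraicIndependent k ![algebraMap Ω Ω' a, algebraMap Ω Ω' b] := by
    have h1 := hab.map' (f := IsScalarTower.toAlgHom k₀ Ω Ω') (algebraMap Ω Ω').injective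
    have h2 := AlgebraicIndependent.algebraicClosure (F := k₀) (E := Ω') h1
    have e : (![algebraMap Ω Ω' a, algebraMap Ω Ω' b] : Fin 2 → Ω') =
        (IsScalarTower.toAlgHom k₀ Ω Ω') ∘ ![a, b] := by
      funext j
      fin_cases j <;> rfl
    rw [e]
    exact h2
  have hu' : x'.u = ![1, algebraMap Ω Ω' a, algebraMap Ω Ω' b] := by
    rw [hx', map_u, hu]
    funext j
    fin_cases j <;> simp [vmap]
  obtain ⟨O, h1, h2, h3⟩ := exists_place hab' hu' i y.u hi
  have hxi : x'.u i ≠ 0 := by
    have h0 : algebraMap Ω Ω' a ≠ 0 := by simpa using hab'.ne_zero 0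
    have h0' : algebraMap Ω Ω' b ≠ 0 := by simpa using hab'.ne_zero 1
    rw [hu']
    fin_cases i
    · exact one_ne_zero
    · exact h0
    · exact h0'
  refine hy (periodic_specialize (n := M) x' y ?_ i hxi hi O h1 h2 h3 ?_)
  · rw [hx', map_W, hxW, WD.map_map, hyW, hW₁, WD.map_map, htow]
  · have := hper.map (algebraMap Ω Ω')
    rw [map_pow] at this
    exact this

end TP

end Pool.Agent.Helper2.KW
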