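import Pool.Agent.Helper2.KW.T2

/-!
# Scaling of the two vectors of a point, parallel points, and the third point of a fibre
-/

namespace Pool.Agent.Helper2.KW

section Vec

variable {R : Type*} [CommRing R]

/-- The vector multiplied by a scalar. -/
def smv (c : R) (u : V3 R) : V3 R := fun i => c * u i

@[simp] theorem smv_apply (c : R) (u : V3 R) (i : Fin 3) : smv c u i = c * u i := rfl

theorem smv_smv (c d : R) (u : V3 R) : smv c (smv d u) = smv (c * d) u := by
  funext i; simp [mul_assoc]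

theorem smv_one (u : V3 R) : smv 1 u = u := by
  funext i; simp

theorem crs_smv (c d : R) (u v : V3 R) : crs (smv c u) (smv d v) = smv (c * d) (crs u v) := by
  funext i
  fin_cases i <;> simp [crs] <;> ring

theorem crs_smv_self (c : R) (u : V3 R) : crs (smv c u) u = 0 := by
  funext i
  fin_cases i <;> simp [crs] <;> ring

theorem crs_anti (u v : V3 R) : crs u v = smv (-1) (crs v u) := by
  funext i
  fin_cases i <;> simp [crs] <;> ring

theorem dot_smv (c d : R) (u v : V3 R) : dot (smv c u) (smv d v) = c * d * dot u v := by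
  simp only [dot, smv_apply, Fin.sum_univ_three]; ring

theorem qf_smv (c d : R) (q : Fin 3 → Fin 3 → R) (u : V3 R) :
    qf (fun i j => c * q i j) (smv d u) = c * d ^ 2 * qf q u := by
  simp only [qf, smv_apply, Fin.sum_univ_three]; ring

theorem bf_smv (c d : R) (q : Fin 3 → Fin 3 → R) (u t : V3 R) :
    bf (fun i j => c * q i j) (smv d u) (smv d t) = c * d ^ 2 * bf q u t := by
  simp only [bf, smv_apply, Fin.sum_univ_three]; ring

theorem Uni.smv {u : V3 R} (h : Uni u) (c : Rˣ) : Uni (smv (c : R) u) := by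
  obtain ⟨w, hw⟩ := h
  refine ⟨KW.smv ((c⁻¹ : Rˣ) : R) w, ?_⟩
  rw [dot_smv, hw, Units.inv_mul, mul_one]

theorem Uni.ne_zero {K : Type*} [CommRing K] [Nontrivial K] {u : V3 K} (h : Uni u) : u ≠ 0 := by
  rintro rfl
  obtain ⟨w, hw⟩ := h
  simp [dot] at hw

theorem uni_of_one {u : V3 R} {i : Fin 3} (h : u i = 1) : Uni u := by
  refine ⟨Pi.single i 1, ?_⟩
  simp [dot, Pi.single_apply, h]

theorem uni_of_ne {K : Type*} [Field K] {u : V3 K} (h : u ≠ 0) : Uni u := by
  obtain ⟨i, hi⟩ := Function.ne_iff.mp h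
  refine ⟨fun j => if j = i then (u i)⁻¹ else 0, ?_⟩
  simp [dot, inv_mul_cancel₀ hi]

/-- Parallel nonzero vectors over a field differ by a unit. -/
theorem eq_smv_of_crs {K : Type*} [Field K] {u w : V3 K} (hu : Uni u) (hw : Uni w)
    (h : crs u w = 0) : ∃ c : Kˣ, w = smv (c : K) u := by
  obtain ⟨a, ha⟩ := hu
  have h0 := congrFun h 0
  have h1 := congrFun h 1
  have h2 := congrFun h 2
  simp only [crs, Matrix.cons_val, Pi.zero_apply] at h0 h1 h2
  have e : w = smv (dot a w) u := by
    funext j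
    simp only [dot, Fin.sum_univ_three] at ha
    simp only [dot, smv_apply, Fin.sum_univ_three]
    fin_cases j <;> simp
    · linear_combination (-w 0) * ha - a 1 * h2 + a 2 * h1
    · linear_combination (-w 1) * ha + a 0 * h2 - a 2 * h0
    · linear_combination (-w 2) * ha - a 0 * h1 + a 1 * h0
  have hc : dot a w ≠ 0 := by
    intro hc
    rw [hc] at e
    exact hw.ne_zero (by rw [e]; funext i; simp)
  exact ⟨Units.mk0 _ hc, e⟩

theorem crs_trans {K : Type*} [Field K] {u v w : V3 K} (hu : Uni u) (hv : Uni v) (hw : Uni w)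
    (h1 : crs u v = 0) (h2 : crs v w = 0) : crs u w = 0 := by
  obtain ⟨c, rfl⟩ := eq_smv_of_crs hu hv h1
  obtain ⟨d, rfl⟩ := eq_smv_of_crs hv hw h2
  rw [smv_smv, crs_anti, crs_smv_self]
  funext i; simp

end Vec

namespace WD

variable {R : Type*} [CommRing R]

theorem line_smv (W : WD R) (d : R) (v : V3 R) : W.line (smv d v) = smv d (W.line v) := by
  funext i
  simp only [line, smv_apply, Fin.sum_univ_three]; ring

theorem con_smv (W : WD R) (d : R) (v : V3 R) :
    W.con (smv d v) = fun i j => d ^ 2 * W.con v i j := by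
  funext i j
  simp only [con, smv_apply, Fin.sum_univ_three]; ring

theorem G_smv (W : WD R) (d : R) (v : V3 R) (i j : Fin 3) :
    W.G (smv d v) i j = d ^ 4 * W.G v i j := by
  unfold G gm
  have e : ∀ i : Fin 3, crs (W.line (smv d v)) (Pi.single i 1) =
      smv d (crs (W.line v) (Pi.single i 1)) := by
    intro i
    rw [line_smv]
    conv_lhs => rw [← smv_one (Pi.single i (1 : R) : V3 R)]
    rw [crs_smv, mul_one]
  rw [e, e, con_smv, bf_smv]
  ring

theorem IsPt.smv {W : WD R} {u v : V3 R} (h : W.IsPt u v) (c d : R) :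
    W.IsPt (smv c u) (smv d v) := by
  constructor
  · rw [line_smv, dot_smv, h.1, mul_zero]
  · rw [con_smv, qf_smv, h.2, mul_zero]

end WD

namespace TP

variable {δ : MvPolynomial WI ℤ} {R : Type} [CommRing R]

/-- The point with the two vectors multiplied by units. -/
def scale (x : TP δ R) (c d : Rˣ) : TP δ R where
  W := x.W
  u := smv (c : R) x.u
  v := smv (d : R) x.v
  hd := x.hd
  hu := x.hu.smv c
  hv := x.hv.smv d
  pt := x.pt.smv c d

@[simp] theorem scale_W (x : TP δ R) (c d : Rˣ) : (x.scale c d).W = x.W := rfl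
@[simp] theorem scale_u (x : TP δ R) (c d : Rˣ) : (x.scale c d).u = smv (c : R) x.u := rfl
@[simp] theorem scale_v (x : TP δ R) (c d : Rˣ) : (x.scale c d).v = smv (d : R) x.v := rfl

theorem scale_one (x : TP δ R) : x.scale 1 1 = x := by
  refine TP.ext rfl ?_ ?_
  · rw [scale_u, Units.val_one, smv_one]
  · rw [scale_v, Units.val_one, smv_one]

theorem par_scale (x : TP δ R) (c d : Rˣ) : Par (x.scale c d) x := by
  constructor
  · rw [scale_u, crs_smv_self]
  · rw [scale_v, crs_smv_self]

theorem Par.refl (x : TP δ R) : Par x x := by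
  constructor <;> · funext i; fin_cases i <;> simp [crs] <;> ring

theorem Par.symm {x y : TP δ R} (h : Par x y) : Par y x := by
  constructor
  · rw [crs_anti, h.1]; funext i; simp
  · rw [crs_anti, h.2]; funext i; simp

theorem par_scale_iff {x y : TP δ R} (c d c' d' : Rˣ) :
    Par (x.scale c d) (y.scale c' d') ↔ Par x y := by
  have key : ∀ (a b : Rˣ) (u v : V3 R), crs (smv (a : R) u) (smv (b : R) v) = 0 ↔
      crs u v = 0 := by
    intro a b u v
    rw [crs_smv]
    constructor
    · intro h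
      funext i
      have h1 := congrFun h i
      simp only [smv_apply, Pi.zero_apply] at h1
      rw [← Units.val_mul] at h1
      exact (Units.mul_right_eq_zero (a * b)).mp h1
    · intro h
      rw [h]; funext i; simp
  unfold Par
  simp only [scale_u, scale_v, key]

section

variable [Fact (Nice δ)] [Two R]

theorem s1_scale (x : TP δ R) (c d : Rˣ) :
    (x.scale c d).s1 = x.s1.scale (c⁻¹ * d ^ 4) d := by
  symm
  refine s1_unique ?_ ?_ ?_
  · rw [scale_W, s1_W, scale_W]
  · rw [scale_v, s1_v, scale_v]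
  · intro i j
    have h := x.s1_conj i j
    rw [scale_W, scale_v, WD.G_smv, ← h]
    simp only [scale_u, smv_apply, Units.val_mul, Units.val_pow_eq_pow_val]
    linear_combination ((d : R) ^ 4 * (x.u i * x.s1.u j + x.u j * x.s1.u i)) * c.mul_inv

theorem s2_scale (x : TP δ R) (c d : Rˣ) :
    (x.scale c d).s2 = x.s2.scale c (d⁻¹ * c ^ 4) := by
  symm
  refine s2_unique ?_ ?_ ?_
  · rw [scale_W, s2_W, scale_W]
  · rw [scale_u, s2_u, scale_u]
  · intro i j
    have h := x.s2_conj i j
    rw [scale_W, scale_u, WD.G_smv, ← h]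
    simp only [scale_v, smv_apply, Units.val_mul, Units.val_pow_eq_pow_val]
    linear_combination ((c : R) ^ 4 * (x.v i * x.s2.v j + x.v j * x.s2.v i)) * d.mul_inv

theorem F_scale (x : TP δ R) (c d : Rˣ) : ∃ c' d' : Rˣ, F (x.scale c d) = (F x).scale c' d' := by
  rw [F_apply, s1_scale, s2_scale]
  exact ⟨_, _, rfl⟩

theorem F_symm_scale (x : TP δ R) (c d : Rˣ) :
    ∃ c' d' : Rˣ, F.symm (x.scale c d) = (F.symm x).scale c' d' := by
  rw [F_symm_apply, s2_scale, s1_scale]
  exact ⟨_, _, rfl⟩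

theorem zpow_scale (n : ℤ) (x : TP δ R) (c d : Rˣ) : ∃ c' d' : Rˣ,
    (F ^ n : Equiv.Perm (TP δ R)) (x.scale c d) =
      ((F ^ n : Equiv.Perm (TP δ R)) x).scale c' d' := by
  induction n generalizing x c d with
  | zero => exact ⟨c, d, rfl⟩
  | succ n ih =>
    obtain ⟨c', d', h⟩ := F_scale x c d
    obtain ⟨c'', d'', h'⟩ := ih (F x) c' d'
    refine ⟨c'', d'', ?_⟩
    rw [zpow_add_one, Equiv.Perm.mul_apply, h, h', Equiv.Perm.mul_apply]
  | pred n ih =>
    obtain ⟨c', d', h⟩ := F_symm_scale x c d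
    obtain ⟨c'', d'', h'⟩ := ih (F.symm x) c' d'
    refine ⟨c'', d'', ?_⟩
    rw [zpow_sub_one, Equiv.Perm.mul_apply, Equiv.Perm.inv_def, h, h', Equiv.Perm.mul_apply]

theorem pow_scale (n : ℕ) (x : TP δ R) (c d : Rˣ) : ∃ c' d' : Rˣ,
    (F ^ n : Equiv.Perm (TP δ R)) (x.scale c d) =
      ((F ^ n : Equiv.Perm (TP δ R)) x).scale c' d' :=
  zpow_scale n x c d

/-- The second involution conjugates `F` to its inverse. -/
theorem s2_F_s2 (x : TP δ R) : (F x.s2).s2 = F.symm x := by
  rw [F_apply, s2_s2, F_symm_apply]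

theorem zpow_s2 (n : ℤ) (x : TP δ R) :
    (F ^ n : Equiv.Perm (TP δ R)) x.s2 = ((F ^ (-n) : Equiv.Perm (TP δ R)) x).s2 := by
  have h1 : ∀ y : TP δ R, F y.s2 = (F.symm y).s2 := fun y => by
    rw [← s2_F_s2, s2_s2]
  have h2 : ∀ y : TP δ R, F.symm y.s2 = (F y).s2 := fun y => by
    apply F.injective
    rw [Equiv.apply_symm_apply, h1, Equiv.symm_apply_apply]
  induction n generalizing x with
  | zero => rfl
  | succ n ih =>
    rw [zpow_add_one, Equiv.Perm.mul_apply, h1, ih, neg_add, ← sub_eq_add_neg, zpow_sub_one,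
      Equiv.Perm.mul_apply, Equiv.Perm.inv_def]
  | pred n ih =>
    rw [zpow_sub_one, Equiv.Perm.mul_apply, Equiv.Perm.inv_def, h2, ih]
    have : -(-(n : ℤ) - 1) = - -(n : ℤ) + 1 := by ring
    rw [this, zpow_add_one, Equiv.Perm.mul_apply]

end

/-! ### Over a field -/

section Field

variable {K : Type} [Field K]

theorem Par.eq_scale {x y : TP δ K} (hW : y.W = x.W) (h : Par x y) :
    ∃ c d : Kˣ, y = x.scale c d := by
  obtain ⟨c, hc⟩ := eq_smv_of_crs x.hu y.hu h.1
  obtain ⟨d, hd⟩ := eq_smv_of_crs x.hv y.hv h.2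
  exact ⟨c, d, TP.ext hW hc hd⟩

theorem Par.trans {x y z : TP δ K} (h : Par x y) (h' : Par y z) : Par x z :=
  ⟨crs_trans x.hu y.hu z.hu h.1 h'.1, crs_trans x.hv y.hv z.hv h.2 h'.2⟩

variable [Fact (Nice δ)] [Two K]

theorem Par.zpow {x y : TP δ K} (hW : y.W = x.W) (h : Par x y) (n : ℤ) :
    Par ((F ^ n : Equiv.Perm (TP δ K)) x) ((F ^ n : Equiv.Perm (TP δ K)) y) := by
  obtain ⟨c, d, rfl⟩ := h.eq_scale hW
  obtain ⟨c', d', h'⟩ := zpow_scale n x c d
  rw [h']
  exact (par_scale _ _ _).symm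

theorem Par.s2 {x y : TP δ K} (hW : y.W = x.W) (h : Par x y) : Par x.s2 y.s2 := by
  obtain ⟨c, d, rfl⟩ := h.eq_scale hW
  rw [s2_scale]
  exact (par_scale _ _ _).symm

/-- Parallel points are periodic together. -/
theorem Par.periodic {x y : TP δ K} (hW : y.W = x.W) (h : Par x y) {n : ℤ}
    (hx : Par ((F ^ n : Equiv.Perm (TP δ K)) x) x) :
    Par ((F ^ n : Equiv.Perm (TP δ K)) y) y :=
  ((h.zpow hW n).symm.trans hx).trans h

/-- The other point of the fibre is periodic with the same period. -/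
theorem periodic_s2 {x : TP δ K} {n : ℤ}
    (hx : Par ((F ^ n : Equiv.Perm (TP δ K)) x.s2) x.s2) :
    Par ((F ^ n : Equiv.Perm (TP δ K)) x) x := by
  rw [zpow_s2] at hx
  have h1 := hx.s2 (by rw [s2_W, s2_W, zpow_W])
  rw [s2_s2, s2_s2] at h1
  have h2 := h1.zpow (by rw [zpow_W]) n
  rw [← Equiv.Perm.mul_apply, ← zpow_add, add_neg_cancel, zpow_zero, Equiv.Perm.one_apply] at h2
  exact h2.symm

omit [Fact (Nice δ)] in
theorem third_vec {l v v' t : V3 K} {c : Fin 3 → Fin 3 → K} (hv' : Uni v')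
    (hv : Uni v) (h : IsConj (gm l c) v v') (h1 : dot l v = 0) (h2 : dot l v' = 0)
    (h3 : dot l t = 0) (h4 : qf c t = 0) : crs t v = 0 ∨ crs t v' = 0 := by
  have hl : l ≠ 0 := by
    rintro rfl
    have h5 : IsConj (gm 0 c) v 0 := by
      intro i j
      rw [← h i j]
      have : gm (0 : V3 K) c i j = 0 := by
        have e : ∀ i : Fin 3, crs (0 : V3 K) (Pi.single i 1) = 0 := by
          intro i; funext r; fin_cases r <;> simp [crs]
        unfold gm
        rw [e, e]
        simp [bf]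
      rw [h i j, this]
      simp
    have := conj_unique hv h h5
    exact hv'.ne_zero this
  obtain ⟨w, hw⟩ := uni_of_ne hl
  set ξ := crs t w with hξ
  have ht : t = crs l ξ := by
    simp only [dot, Fin.sum_univ_three] at hw h3
    funext r
    fin_cases r <;> simp [hξ, crs]
    · linear_combination (-(t 0)) * hw + (w 0) * h3
    · linear_combination (-(t 1)) * hw + (w 1) * h3
    · linear_combination (-(t 2)) * hw + (w 2) * h3
  have hq : 2 * (dot ξ v * dot ξ v') = 2 * qf c (crs l ξ) := by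
    have e : ∀ i j, v i * v' j + v j * v' i =
        bf c (crs l (Pi.single i 1)) (crs l (Pi.single j 1)) := h
    have e1 : 2 * (dot ξ v * dot ξ v') =
        ∑ i, ∑ j, ξ i * ξ j * (v i * v' j + v j * v' i) := by
      simp only [dot, Fin.sum_univ_three]; ring
    rw [e1]
    simp only [e]
    have e2 : ∀ i : Fin 3, crs l (Pi.single i 1) = fun r => crs l (Pi.single i 1) r := fun _ => rfl
    simp only [bf, qf, crs, Fin.sum_univ_three, Pi.single_apply, Matrix.cons_val, Fin.isValue,
      Fin.reduceEq, if_true, if_false]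
    ring
  have h5 : dot ξ v * dot ξ v' = 0 := by
    rw [← ht, h4, mul_zero] at hq
    have h2' : (2 : K) ≠ 0 := (Two.unit (R := K)).ne_zero
    exact (mul_eq_zero.mp hq).resolve_left h2'
  have key : ∀ z : V3 K, dot l z = 0 → dot ξ z = 0 → crs t z = 0 := by
    intro z hz hz'
    rw [ht]
    simp only [dot, Fin.sum_univ_three] at hz hz'
    funext r
    fin_cases r <;> simp [crs]
    · linear_combination (ξ 0) * hz - (l 0) * hz'
    · linear_combination (ξ 1) * hz - (l 1) * hz'
    · linear_combination (ξ 2) * hz - (l 2) * hz'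
  rcases mul_eq_zero.mp h5 with h6 | h6
  · exact Or.inl (key v h1 h6)
  · exact Or.inr (key v' h2 h6)

/-- A point of the fibre over `x.u` is `x` or `x.s2`. -/
theorem third {x z : TP δ K} (hW : z.W = x.W) (hu : crs z.u x.u = 0) :
    Par z x ∨ Par z x.s2 := by
  obtain ⟨c, hc⟩ := eq_smv_of_crs z.hu x.hu hu
  -- the point with the same first vector
  have hp : x.W.swap.IsPt z.v x.u := by
    rw [x.W.swap_isPt, ← hW, hc]
    have := z.pt.smv (c : K) 1
    rwa [smv_one] at this
  have hx := (x.W.swap_isPt x.u x.v).mpr x.pt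
  have hx' := (x.W.swap_isPt x.u x.s2.v).mpr (by
    have := x.s2.pt
    rwa [s2_W, s2_u] at this)
  rcases third_vec x.s2.hv x.hv x.s2_conj hx.1 hx'.1 hp.1 hp.2 with h | h
  · exact Or.inl ⟨hu, h⟩
  · exact Or.inr ⟨by rw [s2_u]; exact hu, h⟩

end Field

end TP

end Pool.Agent.Helper2.KW
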