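import Pool.Agent.Helper2.KW.A4a

/-!
# Specialization of a generic vector of the plane by a valuation ring
-/

namespace Pool.Agent.Helper2.KW

open MvPolynomial

section

variable {k : Type*} [Field k]

/-- The form `X i ^ d * P (X / X i)`. -/
noncomputable def hmg (i : Fin 3) (P : MvPolynomial (Fin 3) k) : MvPolynomial (Fin 3) k :=
  ∑ e ∈ P.support, monomial (e + Finsupp.single i (P.totalDegree - e.degree)) (P.coeff e)

theorem degree_le {P : MvPolynomial (Fin 3) k} {e : Fin 3 →₀ ℕ} (he : e ∈ P.support) :
    e.degree ≤ P.totalDegree := by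
  have := le_totalDegree he
  rw [Finsupp.sum_fintype _ _ (fun _ => rfl)] at this
  rwa [Finsupp.degree_eq_sum]

theorem aeval_self (v : V3 k) (Q : MvPolynomial (Fin 3) k) : aeval v Q = eval v Q := rfl

theorem prod_three (e : Fin 3 →₀ ℕ) {B : Type*} [CommRing B] (v : V3 B) :
    (e.prod fun j n => v j ^ n) = v 0 ^ e 0 * v 1 ^ e 1 * v 2 ^ e 2 := by
  rw [Finsupp.prod_fintype _ _ (fun _ => pow_zero _), Fin.prod_univ_three]

theorem aeval_hmg_smv {B : Type*} [CommRing B] [Algebra k B] (i : Fin 3)
    (P : MvPolynomial (Fin 3) k) (r : B) (v : V3 B) :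
    aeval (smv r v) (hmg i P) = r ^ P.totalDegree * aeval v (hmg i P) := by
  unfold hmg
  rw [map_sum, map_sum, Finset.mul_sum]
  refine Finset.sum_congr rfl fun e he => ?_
  rw [aeval_monomial, aeval_monomial, prod_three, prod_three]
  have hd : (e + Finsupp.single i (P.totalDegree - e.degree)).degree = P.totalDegree := by
    rw [map_add, Finsupp.degree_single]
    have := degree_le he
    omega
  set f := e + Finsupp.single i (P.totalDegree - e.degree) with hf
  have hd' : f 0 + f 1 + f 2 = P.totalDegree := by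
    rw [← hd, Finsupp.degree_eq_sum, Fin.sum_univ_three]
  rw [← hd']
  simp only [smv_apply]
  ring

theorem aeval_hmg {B : Type*} [Field B] [Algebra k B] (i : Fin 3)
    (P : MvPolynomial (Fin 3) k) (v : V3 B) (hv : v i ≠ 0) :
    aeval v (hmg i P) = v i ^ P.totalDegree * aeval (fun j => v j / v i) P := by
  have hs : aeval (fun j => v j / v i) P =
      ∑ e ∈ P.support, aeval (fun j => v j / v i) (monomial e (P.coeff e)) := by
    conv_lhs => rw [P.as_sum]
    rw [map_sum]
  rw [hs]
  unfold hmg
  rw [map_sum, Finset.mul_sum]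
  refine Finset.sum_congr rfl fun e he => ?_
  rw [aeval_monomial, aeval_monomial, prod_three, prod_three]
  have hd := degree_le he
  have hd' : e.degree = e 0 + e 1 + e 2 := by
    rw [Finsupp.degree_eq_sum, Fin.sum_univ_three]
  obtain ⟨m, hm⟩ := Nat.exists_eq_add_of_le hd
  have hm' : P.totalDegree - e.degree = m := by omega
  rw [hm', hm, hd']
  have key : ∀ j : Fin 3, v j ^ e j = (v i) ^ e j * (v j / v i) ^ e j := by
    intro j
    rw [div_pow, mul_div_cancel₀ _ (pow_ne_zero _ hv)]
  have e1 : ∀ j : Fin 3, v j ^ ((e + Finsupp.single i m) j) =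
      v j ^ e j * (if j = i then v i ^ m else 1) := by
    intro j
    by_cases hj : j = i
    · subst hj; simp [pow_add]
    · simp [hj, Finsupp.single_apply, Ne.symm hj]
  rw [e1, e1, e1, key 0, key 1, key 2]
  have e2 : (if (0 : Fin 3) = i then v i ^ m else 1) * (if (1 : Fin 3) = i then v i ^ m else 1) *
      (if (2 : Fin 3) = i then v i ^ m else 1) = v i ^ m := by
    fin_cases i <;> simp
  linear_combination (algebraMap k B (coeff e P)) * v i ^ (e 0 + e 1 + e 2) *
    ((v 0 / v i) ^ e 0 * (v 1 / v i) ^ e 1 * (v 2 / v i) ^ e 2) * e2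

/-- A generic vector specializes to any vector. -/
theorem specialize [Infinite k] {Ω : Type*} [Field Ω] [Algebra k Ω] {a b : Ω}
    (hab : AlgebraicIndependent k ![a, b]) {u : V3 Ω} (hu : u = ![1, a, b]) (i : Fin 3)
    {P : MvPolynomial (Fin 3) k} (hP : aeval (fun j => u j / u i) P = 0) (η : V3 k)
    (hη : η i ≠ 0) : eval (fun j => η j / η i) P = 0 := by
  have hi : u i ≠ 0 := by
    have h0 : a ≠ 0 := by
      have := hab.ne_zero 0
      simpa using this
    have h1 : b ≠ 0 := by
      have := hab.ne_zero 1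
      simpa using this
    subst hu
    fin_cases i <;> simp [h0, h1]
  have h1 : aeval u (hmg i P) = 0 := by rw [aeval_hmg i P u hi, hP, mul_zero]
  -- as a polynomial in two variables
  set R : MvPolynomial (Fin 2) k := aeval ![1, X 0, X 1] (hmg i P) with hR
  have h2 : R = 0 := by
    have h3 : aeval ![a, b] R = 0 := by
      rw [hR, ← AlgHom.comp_apply, comp_aeval, ← h1]
      congr 2
      subst hu
      funext j
      fin_cases j <;> simp
    exact (injective_iff_map_eq_zero _).mp hab _ h3
  have h4 : ∀ s t : k, eval ![1, s, t] (hmg i P) = 0 := by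
    intro s t
    have h5 : aeval ![s, t] R = (0 : k) := by rw [h2, map_zero]
    rw [hR, ← AlgHom.comp_apply, comp_aeval] at h5
    rw [← h5, ← aeval_self]
    congr 2
    funext j
    fin_cases j <;> simp
  have h6 : (X 0 * hmg i P : MvPolynomial (Fin 3) k) = 0 := by
    refine MvPolynomial.funext fun v => ?_
    rw [map_mul, eval_X, map_zero]
    by_cases hv : v 0 = 0
    · rw [hv, zero_mul]
    · have h7 : v = smv (v 0) ![1, v 1 / v 0, v 2 / v 0] := by
        funext j
        fin_cases j <;> simp <;> field_simp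
      have h8 := aeval_hmg_smv (B := k) i P (v 0) ![1, v 1 / v 0, v 2 / v 0]
      rw [← h7, aeval_self, aeval_self] at h8
      rw [h8, h4, mul_zero, mul_zero]
  have h9 : hmg i P = 0 := by
    rcases mul_eq_zero.mp h6 with h | h
    · exact absurd h (X_ne_zero 0)
    · exact h
  have h10 := aeval_hmg (B := k) i P η hη
  rw [h9, map_zero, aeval_self] at h10
  exact (mul_eq_zero.mp h10.symm).resolve_left (pow_ne_zero _ hη)

/-- The valuation ring of the specialization. -/
theorem exists_place [Infinite k] {Ω : Type*} [Field Ω] [Algebra k Ω] {a b : Ω}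
    (hab : AlgebraicIndependent k ![a, b]) {u : V3 Ω} (hu : u = ![1, a, b]) (i : Fin 3)
    (η : V3 k) (hη : η i ≠ 0) :
    ∃ O : ValuationSubring Ω, (∀ c : k, algebraMap k Ω c ∈ O) ∧ (∀ j, u j / u i ∈ O) ∧
      ∀ j, u j / u i - algebraMap k Ω (η j / η i) ∈ O.nonunits := by
  set ζ : V3 Ω := fun j => u j / u i with hζ
  set η' : V3 k := fun j => η j / η i with hη'
  set A : Subring Ω := (aeval ζ : MvPolynomial (Fin 3) k →ₐ[k] Ω).toRingHom.range with hA
  have hmem : ∀ P : MvPolynomial (Fin 3) k, aeval ζ P ∈ A := fun P => ⟨P, rfl⟩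
  set g : Fin 3 → A := fun j => ⟨aeval ζ (X j - C (η' j)), hmem _⟩ with hg
  obtain ⟨O, h1, h2⟩ := Ideal.image_subset_nonunits_valuationSubring
    (Ideal.span (Set.range g)) (by
      intro htop
      have h3 : (1 : A) ∈ Ideal.span (Set.range g) := by rw [htop]; exact Submodule.mem_top
      rw [Ideal.mem_span_range_iff_exists_fun] at h3
      obtain ⟨w, hw⟩ := h3
      choose P hP using fun j => (w j).2
      have h4 : aeval ζ ((∑ j, P j * (X j - C (η' j))) - 1) = 0 := by
        have h5 := congrArg (Subtype.val : A → Ω) hw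
        rw [map_sub, map_one, map_sum, sub_eq_zero]
        rw [AddSubmonoidClass.coe_finset_sum] at h5
        rw [← OneMemClass.coe_one A, ← h5]
        refine Finset.sum_congr rfl fun j _ => ?_
        rw [map_mul, MulMemClass.coe_mul, ← hP j]
        rfl
      have h6 := specialize hab hu i h4 η hη
      rw [map_sub, map_one, map_sum, sub_eq_zero] at h6
      rw [Finset.sum_eq_zero] at h6
      · exact zero_ne_one h6
      · intro j _
        rw [map_mul, map_sub, eval_X, eval_C]
        simp [hη'])
  refine ⟨O, fun c => ?_, fun j => ?_, fun j => ?_⟩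
  · refine h1 ?_
    have := hmem (C c)
    rwa [aeval_C] at this
  · refine h1 ?_
    have := hmem (X j)
    rwa [aeval_X] at this
  · refine h2 ⟨g j, Ideal.subset_span ⟨j, rfl⟩, ?_⟩
    show aeval ζ (X j - C (η' j)) = _
    rw [map_sub, aeval_X, aeval_C]

end

end Pool.Agent.Helper2.KW
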