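import Pool.Agent.Helper2.KW.E1
import Pool.Agent.Helper2.KW.T5
import Pool.Agent.Helper2.KW.A2

/-!
# Moving a point in one surface
-/

namespace Pool.Agent.Helper2.KW

open MvPolynomial

variable {n : ℕ} {p : ℕ} [Fact p.Prime]

private theorem b1_two {R S : Type} [CommRing R] [CommRing S] (f : R →+* S) [Two R] : Two S :=
  ⟨by
    have h := (Two.unit (R := R)).map f
    rwa [map_ofNat] at h⟩

/-- The elements of `ℤ_[p]` in `L`. -/
private noncomputable def subL (L : Subfield ℚ_[p]) : Subring ℤ_[p] :=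
  L.toSubring.comap (PadicInt.Coe.ringHom (p := p))

private theorem mem_subL {L : Subfield ℚ_[p]} {x : ℤ_[p]} : x ∈ subL L ↔ (x : ℚ_[p]) ∈ L := Iff.rfl

private theorem unit_subL {L : Subfield ℚ_[p]} {x : subL L} (h : IsUnit (x : ℤ_[p])) : IsUnit x := by
  obtain ⟨y, hy⟩ := h.exists_right_inv
  have h1 : ((x : ℤ_[p]) : ℚ_[p]) * (y : ℚ_[p]) = 1 := by
    rw [← PadicInt.coe_mul, hy, PadicInt.coe_one]
  have h2 : (y : ℚ_[p]) ∈ L := by
    rw [← inv_eq_of_mul_eq_one_right h1]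
    exact L.inv_mem (mem_subL.mp x.2)
  refine IsUnit.of_mul_eq_one ⟨y, h2⟩ ?_
  exact Subtype.ext hy

private theorem uni_subL {L : Subfield ℚ_[p]} {u : V3 (subL L)}
    (h : Uni (vmap (subL L).subtype u)) : Uni u := by
  obtain ⟨w, hw⟩ := h
  have h1 : ∃ j, IsUnit ((u j : subL L) : ℤ_[p]) := by
    by_contra hcon
    push Not at hcon
    have h2 : dot w (vmap (subL L).subtype u) ∈ IsLocalRing.maximalIdeal ℤ_[p] := by
      refine Ideal.sum_mem _ fun j _ => Ideal.mul_mem_left _ _ ?_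
      exact (IsLocalRing.mem_maximalIdeal _).mpr (hcon j)
    rw [hw] at h2
    exact (Ideal.ne_top_iff_one _).mp (IsLocalRing.maximalIdeal.isMaximal ℤ_[p]).ne_top h2
  obtain ⟨j, hj⟩ := h1
  obtain ⟨y, hy⟩ := (unit_subL hj).exists_left_inv
  refine ⟨Pi.single j y, ?_⟩
  unfold dot
  rw [Finset.sum_eq_single j]
  · rw [Pi.single_eq_same, hy]
  · intro b _ hb
    rw [Pi.single_eq_of_ne hb, zero_mul]
  · intro h
    exact absurd (Finset.mem_univ j) h

private theorem isPt_of_map {R S : Type} [CommRing R] [CommRing S] {f : R →+* S}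
    (hf : Function.Injective f) {W : WD R} {u v : V3 R} (h : (W.map f).IsPt (vmap f u) (vmap f v)) :
    W.IsPt u v := by
  obtain ⟨h1, h2⟩ := h
  constructor
  · rw [WD.line_map, ← map_dot] at h1
    exact hf (h1.trans (map_zero f).symm)
  · rw [WD.con_map, ← map_qf] at h2
    exact hf (h2.trans (map_zero f).symm)

private theorem b1_lift {δ : MvPolynomial WI ℤ} (c : CD ℤ_[p] n) (L : Subfield ℚ_[p])
    (hca : ∀ α, (c.a α : ℚ_[p]) ∈ L) (hcb : ∀ β, (c.b β : ℚ_[p]) ∈ L)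
    (z : Fin (n + 1) → V3 ℤ_[p]) (hz : c.Ok δ z) (i : Fin n)
    (hzL : ∀ r j, (z r j : ℚ_[p]) ∈ L) :
    ∃ y : TP δ (subL L), y.map (subL L).subtype = hz.tp i := by
  set f : subL L →+* ℤ_[p] := (subL L).subtype with hf
  let c' : CD (subL L) n := ⟨fun α => ⟨c.a α, hca α⟩, fun β => ⟨c.b β, hcb β⟩⟩
  let z' : Fin (n + 1) → V3 (subL L) := fun r j => ⟨z r j, hzL r j⟩
  have hc : c'.map f = c := rfl
  have hz' : (fun r => vmap f (z' r)) = z := rfl
  have hW : (c'.wd z' i).map f = c.wd z i := by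
    rw [← CD.wd_map, hc, hz']
  refine ⟨⟨c'.wd z' i, z' i.castSucc, z' (Fin.last n), ?_, ?_, ?_, ?_⟩, ?_⟩
  · refine unit_subL ?_
    show IsUnit (f (evW δ (c'.wd z' i)))
    rw [← evW_map, hW]
    exact hz.wd i
  · exact uni_subL (hz.uni _)
  · exact uni_subL (hz.uni _)
  · refine isPt_of_map (f := f) (Subring.subtype_injective _) ?_
    rw [hW]
    exact (c.isPt_iff_wd z i).mp hz.pt
  · exact TP.ext hW rfl rfl

private theorem b1_par {δ : MvPolynomial WI ℤ} {R S : Type} [CommRing R] [CommRing S] {f : R →+* S}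
    (hf : Function.Injective f) {x y : TP δ R} (h : TP.Par (x.map f) (y.map f)) : TP.Par x y := by
  have key : ∀ a b : V3 R, crs (vmap f a) (vmap f b) = 0 → crs a b = 0 := by
    intro a b h
    rw [← vmap_crs] at h
    funext j
    exact hf ((congrFun h j).trans (map_zero f).symm)
  exact ⟨key _ _ h.1, key _ _ h.2⟩

/-- Proof.  Let `R` be the ring of the elements of `L` in `ℤ_[p]`; `hz.tp i` comes from a point `y`
over `R` (units of `ℤ_[p]` in `R` are units of `R`).  Let `M'` be the order of `F` on the points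
over the finite ring `ℤ_[p] / p ^ J` (`exists_pow_eq_one`).  By `lemmaP` no `F ^ n (hz.tp i)`,
`n > 0`, is parallel to `hz.tp i`; pass to an algebraic closure of `ℚ_[p]` and apply `dense_orbit`
with `ℓ = M'`: `u`, `v` are the vectors of `F ^ (M' a) (hz.tp i)`. -/
theorem exists_move {δ : MvPolynomial WI ℤ} [Fact (Nice δ)] [Two ℤ_[p]]
    [Two (DualNumber (ZMod (p ^ 2)))] (hp : p ≠ 2) (c : CD ℤ_[p] n) (L : Subfield ℚ_[p])
    (hca : ∀ α, (c.a α : ℚ_[p]) ∈ L) (hcb : ∀ β, (c.b β : ℚ_[p]) ∈ L) {M : ℕ}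
    (hF : ∀ y : TP δ (DualNumber (ZMod (p ^ 2))),
      (TP.F ^ M : Equiv.Perm (TP δ (DualNumber (ZMod (p ^ 2))))) y = y)
    (J : ℕ) (z : Fin (n + 1) → V3 ℤ_[p]) (hz : c.Ok δ z) (i : Fin n)
    (hzL : ∀ r j, (z r j : ℚ_[p]) ∈ L)
    (hper : ¬ TP.Par ((TP.F ^ M : Equiv.Perm (TP δ ℤ_[p])) (hz.tp i)) (hz.tp i))
    {h : MvPolynomial (Fin 3) ℚ_[p]} {d : ℕ} (hd : h.IsHomogeneous d) (hh : h ≠ 0) :
    ∃ u v : V3 ℤ_[p], c.IsPt (CD.repl z i u v) ∧
      (∀ j, u j - z i.castSucc j ∈ Ideal.span {(p : ℤ_[p]) ^ J}) ∧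
      (∀ j, v j - z (Fin.last n) j ∈ Ideal.span {(p : ℤ_[p]) ^ J}) ∧
      (∀ j, (u j : ℚ_[p]) ∈ L) ∧ (∀ j, (v j : ℚ_[p]) ∈ L) ∧
      eval (fun j => (u j : ℚ_[p])) h ≠ 0 := by
  have _hp := hp
  set x : TP δ ℤ_[p] := hz.tp i with hx
  have hxW : x.W = c.wd z i := rfl
  -- no power fixes the point
  have hnp : ∀ m : ℕ, 0 < m → ¬ TP.Par ((TP.F ^ m : Equiv.Perm (TP δ ℤ_[p])) x) x :=
    fun m hm h' => hper (TP.lemmaP hF x hm h')
  -- the finite ring
  let π : ℤ_[p] →+* ZMod (p ^ J) := PadicInt.toZModPow J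
  have : Two (ZMod (p ^ J)) := b1_two π
  have : NeZero (p ^ J) := ⟨pow_ne_zero _ (Fact.out : p.Prime).ne_zero⟩
  obtain ⟨M', hM', hone⟩ := TP.exists_pow_eq_one δ (ZMod (p ^ J))
  -- the algebraic closure
  let g : ℚ_[p] →+* AlgebraicClosure ℚ_[p] := algebraMap _ _
  let f : ℤ_[p] →+* AlgebraicClosure ℚ_[p] := g.comp (PadicInt.Coe.ringHom (p := p))
  have hg : Function.Injective g := g.injective
  have hf : Function.Injective f := hg.comp (fun a b hab => PadicInt.ext hab)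
  have : Two (AlgebraicClosure ℚ_[p]) := b1_two f
  have hh' : MvPolynomial.map g h ≠ 0 := by
    intro h0
    refine hh (MvPolynomial.map_injective g hg ?_)
    rw [h0, map_zero]
  obtain ⟨a, ha⟩ := TP.dense_orbit (x.map f) (fun m hm h' => hnp m hm (by
    rw [← TP.map_pow] at h'
    exact b1_par hf h')) hM' (hd.map g) hh'
  set y : TP δ ℤ_[p] := (TP.F ^ ((M' : ℤ) * a) : Equiv.Perm (TP δ ℤ_[p])) x with hy
  have hyW : y.W = c.wd z i := by rw [hy, TP.zpow_W, hxW]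
  have hyπ : y.map π = x.map π := by
    rw [hy, TP.map_zpow, zpow_mul, zpow_natCast, hone, one_zpow, Equiv.Perm.one_apply]
  obtain ⟨w, hw⟩ := b1_lift c L hca hcb z hz i hzL
  have : Two (subL L) := ⟨unit_subL (x := 2) (by exact_mod_cast Two.unit (R := ℤ_[p]))⟩
  have hyL : y = ((TP.F ^ ((M' : ℤ) * a) : Equiv.Perm (TP δ (subL L))) w).map (subL L).subtype := by
    rw [TP.map_zpow, hw]
  refine ⟨y.u, y.v, ?_, ?_, ?_, ?_, ?_, ?_⟩
  · rw [CD.isPt_repl, ← hyW]
    exact y.pt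
  · intro j
    rw [← PadicInt.ker_toZModPow, RingHom.sub_mem_ker_iff]
    exact congrFun (congrArg TP.u hyπ) j
  · intro j
    rw [← PadicInt.ker_toZModPow, RingHom.sub_mem_ker_iff]
    exact congrFun (congrArg TP.v hyπ) j
  · intro j
    rw [hyL]
    exact mem_subL.mp (Subtype.prop _)
  · intro j
    rw [hyL]
    exact mem_subL.mp (Subtype.prop _)
  · intro h0
    apply ha
    rw [← TP.map_zpow, ← hy, TP.map_u]
    have h1 : eval (vmap f y.u) (MvPolynomial.map g h) = g (eval (fun j => (y.u j : ℚ_[p])) h) := by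
      rw [MvPolynomial.eval_map]
      exact (MvPolynomial.eval₂_comp g (fun j => ((y.u j : ℤ_[p]) : ℚ_[p])) h).symm
    rw [h1, h0, map_zero]

end Pool.Agent.Helper2.KW
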