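import Pool.Agent.Helper2.KW.C0b

/-!
# Density in the product of the free planes from moves in each of them
-/

namespace Pool.Agent.Helper2.KW

open MvPolynomial

section WordDense

variable {k : Type*} [Field k]

/-- homogenization of a polynomial in two variables -/
theorem exists_homog (P : MvPolynomial (Fin 2) k) (hP : P ≠ 0) :
    ∃ (h : MvPolynomial (Fin 3) k) (d : ℕ), h.IsHomogeneous d ∧ h ≠ 0 ∧
      ∀ v : Fin 3 → k, v 0 ≠ 0 →
        eval v h = v 0 ^ d * eval (fun j : Fin 2 => v j.succ / v 0) P := by
  classical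
  set d := P.totalDegree with hd
  let h : MvPolynomial (Fin 3) k :=
    ∑ m ∈ P.support, monomial (Finsupp.cons (d - m.degree) m) (coeff m P)
  have hdeg : ∀ m ∈ P.support, m.degree ≤ d := by
    intro m hm
    exact le_totalDegree hm
  have hev : ∀ v : Fin 3 → k, v 0 ≠ 0 →
      eval v h = v 0 ^ d * eval (fun j : Fin 2 => v j.succ / v 0) P := by
    intro v hv
    rw [eval_eq' (fun j : Fin 2 => v j.succ / v 0) P, Finset.mul_sum, map_sum]
    refine Finset.sum_congr rfl fun m hm => ?_
    rw [eval_monomial, Finsupp.prod_fintype _ _ (fun i => pow_zero _), Fin.prod_univ_succ,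
      Finsupp.cons_zero]
    simp only [Finsupp.cons_succ, div_pow]
    rw [Finset.prod_div_distrib, Finset.prod_pow_eq_pow_sum]
    have h1 : ∑ i, m i = m.degree := by
      rw [Finsupp.degree_eq_sum]
    rw [h1]
    have h2 : v 0 ^ d = v 0 ^ (d - m.degree) * v 0 ^ m.degree := by
      rw [← pow_add, Nat.sub_add_cancel (hdeg m hm)]
    rw [h2]
    field_simp
  refine ⟨h, d, ?_, ?_, hev⟩
  · refine IsHomogeneous.sum _ _ _ fun m hm => ?_
    refine isHomogeneous_monomial _ ?_
    rw [Finsupp.degree_eq_sum, Fin.sum_univ_succ, Finsupp.cons_zero]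
    simp only [Finsupp.cons_succ]
    rw [← Finsupp.degree_eq_sum]
    exact Nat.sub_add_cancel (hdeg m hm)
  · -- dehomogenization
    have h1 : aeval (Fin.cons 1 X : Fin 3 → MvPolynomial (Fin 2) k) h = P := by
      rw [map_sum]
      conv_rhs => rw [P.as_sum]
      refine Finset.sum_congr rfl fun m hm => ?_
      rw [aeval_monomial, Finsupp.prod_fintype _ _ (fun i => pow_zero _), Fin.prod_univ_succ]
      simp only [Fin.cons_zero, Fin.cons_succ, one_pow, one_mul, Finsupp.cons_succ]
      rw [monomial_eq, Finsupp.prod_fintype _ _ (fun i => pow_zero _)]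
      rfl
    intro h0
    rw [h0, map_zero] at h1
    exact hP h1.symm

/-- a nonzero coefficient with respect to the variables outside one block -/
theorem exists_block {ι : Type*} [DecidableEq ι] (i : ι) (Ψ : MvPolynomial (ι × Fin 2) k)
    (hΨ : Ψ ≠ 0) :
    ∃ P : MvPolynomial (Fin 2) k, P ≠ 0 ∧ ∀ c : Fin 2 → k, eval c P ≠ 0 →
      (aeval (fun x : ι × Fin 2 => if x.1 = i then C (c x.2) else X x) Ψ :
        MvPolynomial (ι × Fin 2) k) ≠ 0 := by
  let φ : MvPolynomial (ι × Fin 2) k →ₐ[k] MvPolynomial (ι × Fin 2) (MvPolynomial (Fin 2) k) :=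
    aeval (fun x : ι × Fin 2 => if x.1 = i then C (X x.2) else X x)
  let ψ : MvPolynomial (ι × Fin 2) (MvPolynomial (Fin 2) k) →+* MvPolynomial (ι × Fin 2) k :=
    eval₂Hom (aeval (fun j : Fin 2 => (X (i, j) : MvPolynomial (ι × Fin 2) k)) :
      MvPolynomial (Fin 2) k →ₐ[k] MvPolynomial (ι × Fin 2) k).toRingHom X
  have hinj : ψ.comp φ.toRingHom = RingHom.id _ := by
    apply MvPolynomial.ringHom_ext
    · intro a
      change ψ (φ (C a)) = C a
      have h1 : φ (C a) = C (C a) := by
        change φ (algebraMap k _ a) = _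
        rw [φ.commutes]; rfl
      rw [h1]
      change eval₂Hom _ _ (C (C a)) = _
      rw [eval₂Hom_C]
      change aeval _ (C a) = _
      rw [aeval_C]; rfl
    · rintro ⟨r, j⟩
      change ψ (φ (X (r, j))) = X (r, j)
      have h1 : φ (X (r, j)) = if r = i then C (X j) else X (r, j) := aeval_X _ _
      rw [h1]
      by_cases hr : r = i
      · subst hr
        rw [if_pos rfl]
        change eval₂Hom _ _ (C (X j)) = _
        rw [eval₂Hom_C]
        change aeval _ (X j) = _
        rw [aeval_X]
      · rw [if_neg hr]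
        change eval₂Hom _ _ (X (r, j)) = _
        rw [eval₂Hom_X']
  have hφ : φ Ψ ≠ 0 := by
    intro h0
    apply hΨ
    have h1 := RingHom.congr_fun hinj Ψ
    change ψ (φ Ψ) = Ψ at h1
    rw [← h1, h0, map_zero]
  obtain ⟨m, hm⟩ := MvPolynomial.ne_zero_iff.mp hφ
  refine ⟨coeff m (φ Ψ), hm, fun c hc => ?_⟩
  have h1 : (aeval (fun x : ι × Fin 2 => if x.1 = i then C (c x.2) else X x) Ψ :
      MvPolynomial (ι × Fin 2) k) = map (eval c) (φ Ψ) := by
    have h2 : (aeval (fun x : ι × Fin 2 => if x.1 = i then C (c x.2) else X x) :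
        MvPolynomial (ι × Fin 2) k →ₐ[k] MvPolynomial (ι × Fin 2) k).toRingHom =
        (map (eval c)).comp φ.toRingHom := by
      apply MvPolynomial.ringHom_ext
      · intro a
        change aeval _ (C a) = map (eval c) (φ (C a))
        have h1 : φ (C a) = C (C a) := by
          change φ (algebraMap k _ a) = _
          rw [φ.commutes]; rfl
        rw [h1, map_C, eval_C, aeval_C]; rfl
      · rintro ⟨r, j⟩
        change aeval _ (X (r, j)) = map (eval c) (φ (X (r, j)))
        have h1 : φ (X (r, j)) = if r = i then C (X j) else X (r, j) := aeval_X _ _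
        rw [h1, aeval_X]
        by_cases hr : r = i
        · rw [if_pos hr, if_pos hr, map_C, eval_X]
        · rw [if_neg hr, if_neg hr, map_X]
    exact RingHom.congr_fun h2 Ψ
  rw [h1]
  intro h0
  apply hc
  have h3 : coeff m (map (eval c) (φ Ψ)) = 0 := by rw [h0, coeff_zero]
  rwa [coeff_map] at h3

end WordDense

/-- Proof.  By induction on a set `T` of free planes: there is `z ∈ U` such that `Φ` with the
variables of the planes of `T` specialized to `z` is not zero (as a polynomial in the other
variables).  Step: for `i ∉ T` take a nonzero coefficient of that polynomial as a polynomial in the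
variables of the planes not in `T ∪ {i}`; it is a nonzero polynomial in the two variables of plane
`i`; `h` is its homogenization. -/
theorem word_dense {k : Type*} [Field k] {n : ℕ} (U : Set (Fin (n + 1) → V3 k))
    (hU : U.Nonempty) (hne : ∀ z ∈ U, ∀ r : Fin n, z r.castSucc 0 ≠ 0)
    (hmove : ∀ z ∈ U, ∀ (i : Fin n) (h : MvPolynomial (Fin 3) k) (d : ℕ), h.IsHomogeneous d →
      h ≠ 0 → ∃ z' ∈ U, (∀ r, r ≠ i.castSucc → r ≠ Fin.last n → z' r = z r) ∧
        eval (z' i.castSucc) h ≠ 0)
    {Φ : MvPolynomial (Fin n × Fin 2) k} (hΦ : Φ ≠ 0) :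
    ∃ z ∈ U, eval (fun x : Fin n × Fin 2 => z x.1.castSucc x.2.succ / z x.1.castSucc 0) Φ ≠ 0 := by
  classical
  have key : ∀ T : Finset (Fin n), ∃ z ∈ U,
      (aeval (fun x : Fin n × Fin 2 => if x.1 ∈ T then
        C (z x.1.castSucc x.2.succ / z x.1.castSucc 0) else X x) Φ :
          MvPolynomial (Fin n × Fin 2) k) ≠ 0 := by
    intro T
    induction T using Finset.induction_on with
    | empty =>
      obtain ⟨z, hz⟩ := hU
      refine ⟨z, hz, ?_⟩
      simpa only [Finset.notMem_empty, if_false, aeval_X_left, AlgHom.id_apply] using hΦ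
    | insert i T hi ih =>
      obtain ⟨z, hz, hne0⟩ := ih
      obtain ⟨P, hP, hP'⟩ := exists_block i _ hne0
      obtain ⟨h, d, hh, h0, hev⟩ := exists_homog P hP
      obtain ⟨z', hz', hzz, hz0⟩ := hmove z hz i h d hh h0
      refine ⟨z', hz', ?_⟩
      have hv0 := hne z' hz' i
      rw [hev _ hv0] at hz0
      have h1 := hP' _ (right_ne_zero_of_mul hz0)
      have h2 : (aeval (fun x : Fin n × Fin 2 => if x.1 ∈ insert i T then
          C (z' x.1.castSucc x.2.succ / z' x.1.castSucc 0) else X x) :
            MvPolynomial (Fin n × Fin 2) k →ₐ[k] MvPolynomial (Fin n × Fin 2) k) =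
          (aeval (fun x : Fin n × Fin 2 => if x.1 = i then
            C (z' i.castSucc x.2.succ / z' i.castSucc 0) else X x)).comp
          (aeval (fun x : Fin n × Fin 2 => if x.1 ∈ T then
            C (z x.1.castSucc x.2.succ / z x.1.castSucc 0) else X x)) := by
        apply MvPolynomial.algHom_ext
        rintro ⟨r, j⟩
        rw [AlgHom.comp_apply, aeval_X, aeval_X]
        by_cases hr : r = i
        · subst hr
          have h3 : r ∈ insert r T := Finset.mem_insert_self _ _
          simp only [h3, if_true, hi, if_false, aeval_X]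
        · by_cases hrT : r ∈ T
          · have h3 : r ∈ insert i T := Finset.mem_insert_of_mem hrT
            have h4 : z' r.castSucc = z r.castSucc :=
              hzz _ (fun h => hr (Fin.castSucc_injective n h)) (Fin.castSucc_lt_last r).ne
            simp only [h3, if_true, hrT, aeval_C, h4]
            rfl
          · have h3 : r ∉ insert i T := fun h => (Finset.mem_insert.mp h).elim hr hrT
            simp only [h3, if_false, hrT, aeval_X, hr]
      rw [h2]
      exact h1
  obtain ⟨z, hz, h0⟩ := key Finset.univ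
  refine ⟨z, hz, ?_⟩
  intro h1
  apply h0
  have h2 : (aeval (fun x : Fin n × Fin 2 => if x.1 ∈ (Finset.univ : Finset (Fin n)) then
      C (z x.1.castSucc x.2.succ / z x.1.castSucc 0) else X x) Φ :
        MvPolynomial (Fin n × Fin 2) k) =
      C (eval (fun x : Fin n × Fin 2 => z x.1.castSucc x.2.succ / z x.1.castSucc 0) Φ) := by
    simp only [Finset.mem_univ, if_true]
    have h3 : (aeval (fun x : Fin n × Fin 2 =>
        (C (z x.1.castSucc x.2.succ / z x.1.castSucc 0) : MvPolynomial (Fin n × Fin 2) k)) :
          MvPolynomial (Fin n × Fin 2) k →ₐ[k] MvPolynomial (Fin n × Fin 2) k) =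
        (Algebra.ofId k (MvPolynomial (Fin n × Fin 2) k)).comp
          (aeval (fun x : Fin n × Fin 2 => z x.1.castSucc x.2.succ / z x.1.castSucc 0)) := by
      apply MvPolynomial.algHom_ext
      intro x
      rw [aeval_X, AlgHom.comp_apply, aeval_X]
      rfl
    rw [h3, AlgHom.comp_apply]
    rfl
  rw [h2, h1, map_zero]

end Pool.Agent.Helper2.KW
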