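import Pool.Agent.Helper2.KW.C0b

/-!
# Points near the base point, by Hensel's lemma
-/

namespace Pool.Agent.Helper2.KW

variable {R : Type} [CommRing R] {n : ℕ}

/-- The conditions at the base point (all free vectors are `(1, 1, 1)`). -/
structure Base (δ : MvPolynomial WI ℤ) (c : CD R n) (s : R) : Prop where
  l0 : IsUnit (c.lin 1 0)
  root : qf (c.con 1) (crs (c.lin 1) ![0, 1, s]) = 0
  der : IsUnit (bf (c.con 1) (crs (c.lin 1) ![0, 1, s]) (crs (c.lin 1) ![0, 0, 1]))
  wd : ∀ i, IsUnit (evW δ (c.wd 1 i))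

/-- Points with unimodular vectors in the good locus. -/
structure CD.Ok (δ : MvPolynomial WI ℤ) (c : CD R n) (z : Fin (n + 1) → V3 R) : Prop where
  pt : c.IsPt z
  uni : ∀ r, Uni (z r)
  wd : ∀ i, IsUnit (evW δ (c.wd z i))

/-- The point on the surface of the free plane `i` and the last plane. -/
def CD.Ok.tp {δ : MvPolynomial WI ℤ} {c : CD R n} {z : Fin (n + 1) → V3 R} (h : c.Ok δ z)
    (i : Fin n) : TP δ R :=
  ⟨c.wd z i, z i.castSucc, z (Fin.last n), h.wd i, h.uni _, h.uni _, (c.isPt_iff_wd z i).mp h.pt⟩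

/-- The points over the free vectors of `z`. -/
def CD.sec (c : CD R n) (z : Fin (n + 1) → V3 R) (s : R) : Fin (n + 1) → V3 R :=
  Function.update z (Fin.last n) (crs (c.lin z) ![0, 1, s])

section Cong

theorem CD.lin_congr (c : CD R n) {z z' : Fin (n + 1) → V3 R}
    (h : ∀ r : Fin n, z r.castSucc = z' r.castSucc) : c.lin z = c.lin z' := by
  funext k
  have e : Function.update z (Fin.last n) (Pi.single k 1 : V3 R) =
      Function.update z' (Fin.last n) (Pi.single k 1) := by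
    funext r
    induction r using Fin.lastCases with
    | last => simp
    | cast i => simp [CD.castSucc_ne_last i, h i]
  unfold CD.lin
  rw [e]

theorem CD.con_congr (c : CD R n) {z z' : Fin (n + 1) → V3 R}
    (h : ∀ r : Fin n, z r.castSucc = z' r.castSucc) : c.con z = c.con z' := by
  funext k l
  have e : Function.update (fun r => sq (z r)) (Fin.last n)
      (Pi.single (k, l) 1 : Fin 3 × Fin 3 → R) =
      Function.update (fun r => sq (z' r)) (Fin.last n) (Pi.single (k, l) 1) := by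
    funext r
    induction r using Fin.lastCases with
    | last => simp
    | cast i => simp [CD.castSucc_ne_last i, h i]
  unfold CD.con
  rw [e]

theorem map_qf {S : Type} [CommRing S] (f : R →+* S) (g : Fin 3 → Fin 3 → R) (u : V3 R) :
    f (qf g u) = qf (fun i j => f (g i j)) (vmap f u) := by
  simp only [qf, vmap, map_sum, map_mul]

theorem map_bf {S : Type} [CommRing S] (f : R →+* S) (g : Fin 3 → Fin 3 → R) (u t : V3 R) :
    f (bf g u t) = bf (fun i j => f (g i j)) (vmap f u) (vmap f t) := by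
  simp only [bf, vmap, map_sum, map_mul, map_add]

variable (I : Ideal R)

theorem vmap_mk_eq {u v : V3 R} (h : ∀ j, u j - v j ∈ I) :
    vmap (Ideal.Quotient.mk I) u = vmap (Ideal.Quotient.mk I) v :=
  funext fun j => Ideal.Quotient.eq.mpr (h j)

theorem lin_mk (c : CD R n) {z z' : Fin (n + 1) → V3 R}
    (h : ∀ (r : Fin n) j, z r.castSucc j - z' r.castSucc j ∈ I) :
    vmap (Ideal.Quotient.mk I) (c.lin z) = vmap (Ideal.Quotient.mk I) (c.lin z') := by
  rw [← CD.lin_map, ← CD.lin_map]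
  exact CD.lin_congr _ fun r => vmap_mk_eq I (h r)

theorem con_mk (c : CD R n) {z z' : Fin (n + 1) → V3 R}
    (h : ∀ (r : Fin n) j, z r.castSucc j - z' r.castSucc j ∈ I) :
    (fun k l => Ideal.Quotient.mk I (c.con z k l)) =
      fun k l => Ideal.Quotient.mk I (c.con z' k l) := by
  rw [← CD.con_map, ← CD.con_map]
  exact CD.con_congr _ fun r => vmap_mk_eq I (h r)

theorem wd_mk (δ : MvPolynomial WI ℤ) (c : CD R n) {z z' : Fin (n + 1) → V3 R}
    (h : ∀ (r : Fin n) j, z r.castSucc j - z' r.castSucc j ∈ I) (i : Fin n) :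
    evW δ (c.wd z i) - evW δ (c.wd z' i) ∈ I := by
  rw [← Ideal.Quotient.eq, ← evW_map, ← evW_map, ← CD.wd_map, ← CD.wd_map]
  congr 1
  refine CD.wd_congr _ i fun r _ h2 => ?_
  induction r using Fin.lastCases with
  | last => exact absurd rfl h2
  | cast j => exact vmap_mk_eq I (h j)

theorem qf_sub_mem {g g' : Fin 3 → Fin 3 → R} {u u' : V3 R}
    (h1 : (fun k l => Ideal.Quotient.mk I (g k l)) = fun k l => Ideal.Quotient.mk I (g' k l))
    (h2 : vmap (Ideal.Quotient.mk I) u = vmap (Ideal.Quotient.mk I) u') :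
    qf g u - qf g' u' ∈ I := by
  rw [← Ideal.Quotient.eq, map_qf, map_qf, h1, h2]

theorem bf_sub_mem {g g' : Fin 3 → Fin 3 → R} {u u' t t' : V3 R}
    (h1 : (fun k l => Ideal.Quotient.mk I (g k l)) = fun k l => Ideal.Quotient.mk I (g' k l))
    (h2 : vmap (Ideal.Quotient.mk I) u = vmap (Ideal.Quotient.mk I) u')
    (h3 : vmap (Ideal.Quotient.mk I) t = vmap (Ideal.Quotient.mk I) t') :
    bf g u t - bf g' u' t' ∈ I := by
  rw [← Ideal.Quotient.eq, map_bf, map_bf, h1, h2, h3]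

theorem crs_mk {l l' x x' : V3 R}
    (h1 : vmap (Ideal.Quotient.mk I) l = vmap (Ideal.Quotient.mk I) l')
    (h2 : vmap (Ideal.Quotient.mk I) x = vmap (Ideal.Quotient.mk I) x') :
    vmap (Ideal.Quotient.mk I) (crs l x) = vmap (Ideal.Quotient.mk I) (crs l' x') := by
  rw [vmap_crs, vmap_crs, h1, h2]

theorem vec_mk {s s' : R} (h : s - s' ∈ I) :
    vmap (Ideal.Quotient.mk I) ![0, 1, s] = vmap (Ideal.Quotient.mk I) ![0, 1, s'] := by
  refine vmap_mk_eq I fun j => ?_
  fin_cases j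
  · simp
  · simp
  · simpa using h

end Cong

/-- The expansion of the quadratic form along the line. -/
theorem qf_line (g : Fin 3 → Fin 3 → R) (l : V3 R) (s s' : R) :
    qf g (crs l ![0, 1, s]) = qf g (crs l ![0, 1, s']) +
      (s - s') * (bf g (crs l ![0, 1, s']) (crs l ![0, 0, 1]) +
        (s - s') * qf g (crs l ![0, 0, 1])) := by
  simp only [qf, bf, crs, Fin.sum_univ_three, Matrix.cons_val]
  ring

/-- The polynomial of Hensel's lemma. -/
noncomputable def hpol (g : Fin 3 → Fin 3 → R) (l : V3 R) : Polynomial R :=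
  ∑ i, ∑ j, Polynomial.C (g i j) *
    ((Polynomial.C (crs l ![0, 1, 0] i) + Polynomial.X * Polynomial.C (crs l ![0, 0, 1] i)) *
      (Polynomial.C (crs l ![0, 1, 0] j) + Polynomial.X * Polynomial.C (crs l ![0, 0, 1] j)))

theorem hpol_eval (g : Fin 3 → Fin 3 → R) (l : V3 R) (s : R) :
    Polynomial.aeval s (hpol g l) = qf g (crs l ![0, 1, s]) := by
  simp only [hpol, qf, crs, Fin.sum_univ_three, Matrix.cons_val, map_add, map_mul,
    Polynomial.aeval_C, Polynomial.aeval_X, Algebra.algebraMap_self, RingHom.id_apply]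
  ring

theorem hpol_deriv (g : Fin 3 → Fin 3 → R) (l : V3 R) (s : R) :
    Polynomial.aeval s (hpol g l).derivative =
      bf g (crs l ![0, 1, s]) (crs l ![0, 0, 1]) := by
  simp only [hpol, bf, crs, Fin.sum_univ_three, Matrix.cons_val, Polynomial.derivative_add,
    Polynomial.derivative_mul, Polynomial.derivative_C, Polynomial.derivative_X, map_add, map_mul,
    Polynomial.aeval_C, Polynomial.aeval_X, Algebra.algebraMap_self, RingHom.id_apply, map_zero,
    map_one]
  ring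

theorem CD.sec_free (c : CD R n) (z : Fin (n + 1) → V3 R) (s : R) (r : Fin n) :
    c.sec z s r.castSucc = z r.castSucc := by
  simp [CD.sec, CD.castSucc_ne_last r]

theorem CD.sec_last (c : CD R n) (z : Fin (n + 1) → V3 R) (s : R) :
    c.sec z s (Fin.last n) = crs (c.lin z) ![0, 1, s] := by
  simp [CD.sec]

variable {p : ℕ} [Fact p.Prime]

theorem isUnit_of_cong {x y : ℤ_[p]} (h : x - y ∈ Ideal.span {(p : ℤ_[p])}) (hy : IsUnit y) :
    IsUnit x := by
  by_contra hx
  have h1 : x ∈ IsLocalRing.maximalIdeal ℤ_[p] := (IsLocalRing.mem_maximalIdeal x).mpr hx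
  rw [PadicInt.maximalIdeal_eq_span_p] at h1
  have h2 : y ∈ Ideal.span {(p : ℤ_[p])} := by
    have := Ideal.sub_mem _ h1 h
    rwa [sub_sub_cancel] at this
  rw [← PadicInt.maximalIdeal_eq_span_p] at h2
  exact (IsLocalRing.mem_maximalIdeal y).mp h2 hy

theorem mem_span_p_iff {x : ℤ_[p]} : x ∈ Ideal.span {(p : ℤ_[p])} ↔ ‖x‖ < 1 := by
  rw [PadicInt.norm_lt_one_iff_dvd, Ideal.mem_span_singleton]

/-- Hensel's lemma for the polynomial `s ↦ qf (con z) (lin z × (0, 1, s))`; everything else follows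
by reduction modulo `p`. -/
theorem exists_section {δ : MvPolynomial WI ℤ} (c : CD ℤ_[p] n) {s₀ : ℤ_[p]} (hb : Base δ c s₀)
    (z : Fin (n + 1) → V3 ℤ_[p])
    (hz : ∀ (r : Fin n) j, z r.castSucc j - 1 ∈ Ideal.span {(p : ℤ_[p])}) :
    ∃ s : ℤ_[p], s - s₀ ∈ Ideal.span {(p : ℤ_[p])} ∧
      qf (c.con z) (crs (c.lin z) ![0, 1, s]) = 0 ∧
      IsUnit (bf (c.con z) (crs (c.lin z) ![0, 1, s]) (crs (c.lin z) ![0, 0, 1])) ∧
      c.Ok δ (c.sec z s) := by
  set I : Ideal ℤ_[p] := Ideal.span {(p : ℤ_[p])} with hI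
  have hz' : ∀ (r : Fin n) j, z r.castSucc j - (1 : Fin (n + 1) → V3 ℤ_[p]) r.castSucc j ∈ I :=
    fun r j => hz r j
  have el := lin_mk I c hz'
  have ec := con_mk I c hz'
  -- the values at the starting point
  have e0 : qf (c.con z) (crs (c.lin z) ![0, 1, s₀]) ∈ I := by
    have := qf_sub_mem I ec (crs_mk I el (rfl : vmap (Ideal.Quotient.mk I) ![0, 1, s₀] = _))
    rwa [hb.root, sub_zero] at this
  have e1 : IsUnit (bf (c.con z) (crs (c.lin z) ![0, 1, s₀]) (crs (c.lin z) ![0, 0, 1])) :=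
    isUnit_of_cong (bf_sub_mem I ec (crs_mk I el rfl) (crs_mk I el rfl)) hb.der
  have n0 : ‖Polynomial.aeval s₀ (hpol (c.con z) (c.lin z))‖ < 1 := by
    rw [hpol_eval]; exact mem_span_p_iff.mp e0
  have n1 : ‖Polynomial.aeval s₀ (hpol (c.con z) (c.lin z)).derivative‖ = 1 := by
    rw [hpol_deriv]; exact PadicInt.isUnit_iff.mp e1
  obtain ⟨s, h1, h2, h3, -⟩ := hensels_lemma (p := p) (R := ℤ_[p])
    (F := hpol (c.con z) (c.lin z)) (a := s₀) (by rw [n1, one_pow]; exact n0)
  rw [n1] at h2 h3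
  rw [hpol_eval] at h1
  rw [hpol_deriv] at h3
  have hl0 : IsUnit (c.lin z 0) := by
    refine isUnit_of_cong (y := c.lin 1 0) ?_ hb.l0
    exact Ideal.Quotient.eq.mp (congrFun el 0)
  have hsl : c.lin (c.sec z s) = c.lin z := CD.lin_congr c fun r => c.sec_free z s r
  have hsc : c.con (c.sec z s) = c.con z := CD.con_congr c fun r => c.sec_free z s r
  refine ⟨s, mem_span_p_iff.mpr h2, h1, PadicInt.isUnit_iff.mpr h3, ?_, ?_, ?_⟩
  · rw [CD.isPt_iff_last, hsl, hsc, CD.sec_last]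
    refine ⟨?_, h1⟩
    simp only [dot, crs, Fin.sum_univ_three, Matrix.cons_val]
    ring
  · intro r
    induction r using Fin.lastCases with
    | last =>
      rw [CD.sec_last]
      obtain ⟨u, hu⟩ := hl0
      refine ⟨![0, 0, ((u⁻¹ : ℤ_[p]ˣ) : ℤ_[p])], ?_⟩
      have := u.inv_mul
      rw [hu] at this
      simp only [dot, crs, Fin.sum_univ_three, Matrix.cons_val]
      linear_combination this
    | cast i =>
      rw [CD.sec_free]
      obtain ⟨u, hu⟩ : IsUnit (z i.castSucc 0) := isUnit_of_cong (hz i 0) isUnit_one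
      refine ⟨![((u⁻¹ : ℤ_[p]ˣ) : ℤ_[p]), 0, 0], ?_⟩
      have := u.inv_mul
      rw [hu] at this
      simp only [dot, Fin.sum_univ_three, Matrix.cons_val]
      linear_combination this
  · intro i
    refine isUnit_of_cong (y := evW δ (c.wd 1 i)) ?_ (hb.wd i)
    refine wd_mk I δ c (fun r j => ?_) i
    rw [CD.sec_free]
    exact hz r j

theorem section_cong {δ : MvPolynomial WI ℤ} (c : CD ℤ_[p] n) {s₀ : ℤ_[p]} (hb : Base δ c s₀)
    (z z' : Fin (n + 1) → V3 ℤ_[p])
    (hz : ∀ (r : Fin n) j, z r.castSucc j - 1 ∈ Ideal.span {(p : ℤ_[p])})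
    (J : ℕ) (hJ : 1 ≤ J)
    (hzz : ∀ (r : Fin n) j, z r.castSucc j - z' r.castSucc j ∈ Ideal.span {(p : ℤ_[p]) ^ J})
    {s s' : ℤ_[p]} (hs : s - s₀ ∈ Ideal.span {(p : ℤ_[p])})
    (hs' : s' - s₀ ∈ Ideal.span {(p : ℤ_[p])})
    (h : qf (c.con z) (crs (c.lin z) ![0, 1, s]) = 0)
    (h' : qf (c.con z') (crs (c.lin z') ![0, 1, s']) = 0) :
    s - s' ∈ Ideal.span {(p : ℤ_[p]) ^ J} ∧ ∀ j, crs (c.lin z) ![0, 1, s] j -
      crs (c.lin z') ![0, 1, s'] j ∈ Ideal.span {(p : ℤ_[p]) ^ J} := by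
  set I : Ideal ℤ_[p] := Ideal.span {(p : ℤ_[p])} with hI
  set J' : Ideal ℤ_[p] := Ideal.span {(p : ℤ_[p]) ^ J} with hJ'
  have hz' : ∀ (r : Fin n) j, z r.castSucc j - (1 : Fin (n + 1) → V3 ℤ_[p]) r.castSucc j ∈ I :=
    fun r j => hz r j
  have el := lin_mk I c hz'
  have ec := con_mk I c hz'
  have hss : s - s' ∈ I := by
    have := Ideal.sub_mem _ hs hs'
    rwa [sub_sub_sub_cancel_right] at this
  have hunit : IsUnit (bf (c.con z) (crs (c.lin z) ![0, 1, s']) (crs (c.lin z) ![0, 0, 1]) +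
      (s - s') * qf (c.con z) (crs (c.lin z) ![0, 0, 1])) := by
    refine isUnit_of_cong (y := bf (c.con 1) (crs (c.lin 1) ![0, 1, s₀])
      (crs (c.lin 1) ![0, 0, 1])) ?_ hb.der
    have h1 : bf (c.con z) (crs (c.lin z) ![0, 1, s']) (crs (c.lin z) ![0, 0, 1]) -
        bf (c.con 1) (crs (c.lin 1) ![0, 1, s₀]) (crs (c.lin 1) ![0, 0, 1]) ∈ I :=
      bf_sub_mem I ec (crs_mk I el (vec_mk I hs')) (crs_mk I el rfl)
    have h2 := Ideal.add_mem _ h1
      (I.mul_mem_right (qf (c.con z) (crs (c.lin z) ![0, 0, 1])) hss)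
    rwa [sub_add_eq_add_sub] at h2
  have ez : qf (c.con z) (crs (c.lin z) ![0, 1, s']) ∈ J' := by
    have := qf_sub_mem J' (con_mk J' c hzz)
      (crs_mk J' (lin_mk J' c hzz) (rfl : vmap (Ideal.Quotient.mk J') ![0, 1, s'] = _))
    rwa [h', sub_zero] at this
  have key : s - s' ∈ J' := by
    have h1 := qf_line (c.con z) (c.lin z) s s'
    rw [h] at h1
    have h2 : (s - s') * (bf (c.con z) (crs (c.lin z) ![0, 1, s']) (crs (c.lin z) ![0, 0, 1]) +
        (s - s') * qf (c.con z) (crs (c.lin z) ![0, 0, 1])) ∈ J' := by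
      have h3 := J'.neg_mem ez
      convert h3 using 1
      linear_combination -h1
    exact (J'.mul_unit_mem_iff_mem hunit).mp h2
  refine ⟨key, fun j => ?_⟩
  exact Ideal.Quotient.eq.mp (congrFun (crs_mk J' (lin_mk J' c hzz) (vec_mk J' key)) j)

end Pool.Agent.Helper2.KW
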