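import Pool.Agent.Helper2.KW.E0
import Pool.Agent.Helper2.KW.E1
import Pool.Agent.Helper2.KW.A4

/-!
# A starting point which is not periodic
-/

namespace Pool.Agent.Helper2.KW

variable {n : ℕ} {p : ℕ} [Fact p.Prime]

/-- The vectors with first coordinate `1` and the given further free coordinates. -/
def mkz {R : Type*} [CommRing R] (t : Fin n × Fin 2 → R) : Fin (n + 1) → V3 R :=
  Fin.lastCases 0 fun i => ![1, t (i, 0), t (i, 1)]

theorem mkz_free {R : Type*} [CommRing R] (t : Fin n × Fin 2 → R) (i : Fin n) :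
    mkz t i.castSucc = ![1, t (i, 0), t (i, 1)] := by
  simp [mkz]

theorem vmap_mkz {R S : Type*} [CommRing R] [CommRing S] (f : R →+* S) (t : Fin n × Fin 2 → R)
    (i : Fin n) : vmap f (mkz t i.castSucc) = ![1, f (t (i, 0)), f (t (i, 1))] := by
  rw [mkz_free]
  funext j
  fin_cases j <;> simp [vmap]

/-- The generic point is not periodic. -/
theorem generic_block {δ : MvPolynomial WI ℤ} [Fact (Nice δ)] [Two ℤ_[p]] (c : CD ℤ_[p] n)
    (K₀ : Subfield ℚ_[p])
    (hca : ∀ α, (c.a α : ℚ_[p]) ∈ K₀) (hcb : ∀ β, (c.b β : ℚ_[p]) ∈ K₀) {M : ℕ} (hM : 0 < M)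
    (t : Fin n × Fin 2 → ℤ_[p]) (ht : AlgebraicIndependent K₀ (fun q => (t q : ℚ_[p])))
    {s : ℤ_[p]} (h : c.Ok δ (c.sec (mkz t) s)) (i : Fin n) :
    ¬ TP.Par ((TP.F ^ M : Equiv.Perm (TP δ ℤ_[p])) (h.tp i)) (h.tp i) := by
  intro hpar
  set g : ℤ_[p] →+* ℚ_[p] := algebraMap ℤ_[p] ℚ_[p] with hg
  have : Two ℚ_[p] := Two.of_hom g
  set t' : Fin n × Fin 2 → ℚ_[p] := fun q => (t q : ℚ_[p]) with ht'
  set S : Set (Fin n × Fin 2) := {q | q.1 ≠ i} with hS
  set k := IntermediateField.adjoin K₀ (t' '' S) with hk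
  set f : k →+* ℚ_[p] := algebraMap k ℚ_[p] with hf
  -- the equations over `k`
  have hK : ∀ x ∈ K₀, x ∈ k := fun x hx => k.algebraMap_mem (⟨x, hx⟩ : K₀)
  set c' : CD k n := ⟨fun α => ⟨(c.a α : ℚ_[p]), hK _ (hca α)⟩,
    fun β => ⟨(c.b β : ℚ_[p]), hK _ (hcb β)⟩⟩ with hc'
  have ecc : c'.map f = c.map g := rfl
  have hmem : ∀ q ∈ S, t' q ∈ k := fun q hq => IntermediateField.subset_adjoin _ _ ⟨q, hq, rfl⟩
  classical
  set τ : Fin n × Fin 2 → k := fun q => if hq : q ∈ S then ⟨t' q, hmem q hq⟩ else 0 with hτ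
  have hτ1 : ∀ q ∈ S, f (τ q) = t' q := by
    intro q hq
    simp only [hτ, dif_pos hq]
    rfl
  have hW : ((h.tp i).map g).W = (c'.wd (mkz τ) i).map f := by
    show (c.wd (c.sec (mkz t) s) i).map g = _
    rw [← CD.wd_map, ← CD.wd_map, ecc]
    refine CD.wd_congr _ i fun r h1 h2 => ?_
    induction r using Fin.lastCases with
    | last => exact absurd rfl h2
    | cast j =>
      have hj : j ≠ i := fun e => h1 (by rw [e])
      show vmap g (c.sec (mkz t) s j.castSucc) = vmap f (mkz τ j.castSucc)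
      rw [CD.sec_free, vmap_mkz, vmap_mkz, hτ1 _ hj, hτ1 _ hj]
      rfl
  have hind : AlgebraicIndependent k ![t' (i, 0), t' (i, 1)] := by
    have hdis : Disjoint S {q : Fin n × Fin 2 | q.1 = i} := by
      rw [Set.disjoint_left]
      intro q h1 h2
      exact h1 h2
    have h1 := ht.adjoin_of_disjoint hdis
    rw [← IntermediateField.algebraicIndependent_adjoin_iff (F := K₀) (s := t' '' S)] at h1
    have h2 := h1.comp (fun j : Fin 2 => (⟨(i, j), rfl⟩ : {q : Fin n × Fin 2 | q.1 = i}))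
      (by
        intro a b hab
        have := congrArg (fun q : {q : Fin n × Fin 2 | q.1 = i} => q.1.2) hab
        exact this)
    have e : (![t' (i, 0), t' (i, 1)] : Fin 2 → ℚ_[p]) =
        (fun q : {q : Fin n × Fin 2 | q.1 = i} => (t q.1 : ℚ_[p])) ∘
          (fun j : Fin 2 => (⟨(i, j), rfl⟩ : {q : Fin n × Fin 2 | q.1 = i})) := by
      funext j
      fin_cases j <;> rfl
    rw [e]
    exact h2
  refine TP.generic_nonperiodic (c'.wd (mkz τ) i) ((h.tp i).map g) hW (t' (i, 0)) (t' (i, 1))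
    hind ?_ hM ?_
  · show vmap g (c.sec (mkz t) s i.castSucc) = _
    rw [CD.sec_free, vmap_mkz]
    rfl
  · have := hpar.map g
    rw [TP.map_pow] at this
    exact this

/-- `¬ Par` is an open condition. -/
theorem exists_level {δ : MvPolynomial WI ℤ} [Fact (Nice δ)] [Two ℤ_[p]] (M : ℕ)
    (y : TP δ ℤ_[p]) (hy : ¬ TP.Par ((TP.F ^ M : Equiv.Perm (TP δ ℤ_[p])) y) y) :
    ∃ J₀ : ℕ, ∀ J, J₀ ≤ J → ∀ y' : TP δ ℤ_[p],
      y'.map (Ideal.Quotient.mk (Ideal.span {(p : ℤ_[p]) ^ J})) =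
        y.map (Ideal.Quotient.mk (Ideal.span {(p : ℤ_[p]) ^ J})) →
      ¬ TP.Par ((TP.F ^ M : Equiv.Perm (TP δ ℤ_[p])) y') y' := by
  set x := (TP.F ^ M : Equiv.Perm (TP δ ℤ_[p])) y with hx
  -- a nonzero coordinate
  have key : ∀ w : V3 ℤ_[p], w ≠ 0 → ∃ J₀ : ℕ, ∀ J, J₀ ≤ J →
      vmap (Ideal.Quotient.mk (Ideal.span {(p : ℤ_[p]) ^ J})) w ≠ 0 := by
    intro w hw
    obtain ⟨j, hj⟩ := Function.ne_iff.mp hw
    refine ⟨(w j).valuation + 1, fun J hJ h0 => ?_⟩
    have h1 : w j ∈ Ideal.span {(p : ℤ_[p]) ^ J} :=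
      Ideal.Quotient.eq_zero_iff_mem.mp (congrFun h0 j)
    rw [PadicInt.mem_span_pow_iff_le_valuation _ hj] at h1
    omega
  have hmap : ∀ J, ∀ y' : TP δ ℤ_[p],
      y'.map (Ideal.Quotient.mk (Ideal.span {(p : ℤ_[p]) ^ J})) =
        y.map (Ideal.Quotient.mk (Ideal.span {(p : ℤ_[p]) ^ J})) →
      TP.Par ((TP.F ^ M : Equiv.Perm (TP δ ℤ_[p])) y') y' →
      TP.Par (x.map (Ideal.Quotient.mk (Ideal.span {(p : ℤ_[p]) ^ J})))
        (y.map (Ideal.Quotient.mk (Ideal.span {(p : ℤ_[p]) ^ J}))) := by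
    intro J y' e hp
    have : Two (ℤ_[p] ⧸ (Ideal.span {(p : ℤ_[p]) ^ J})) := Two.of_hom (Ideal.Quotient.mk _)
    have h1 := hp.map (Ideal.Quotient.mk (Ideal.span {(p : ℤ_[p]) ^ J}))
    rw [TP.map_pow, e, ← TP.map_pow] at h1
    exact h1
  unfold TP.Par at hy
  rw [not_and_or] at hy
  rcases hy with h | h
  · obtain ⟨J₀, h0⟩ := key _ h
    refine ⟨J₀, fun J hJ y' e hp => h0 J hJ ?_⟩
    rw [vmap_crs]
    exact (hmap J y' e hp).1
  · obtain ⟨J₀, h0⟩ := key _ h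
    refine ⟨J₀, fun J hJ y' e hp => h0 J hJ ?_⟩
    rw [vmap_crs]
    exact (hmap J y' e hp).2

/-- A point over the algebraic closure of `K₀` such that no block is periodic of period `M`.
Proof.  Take algebraically independent free coordinates near `1` (`exists_algInd`, first
coordinates equal to `1`), the point over it (`exists_section`) and `generic_nonperiodic`
(`Ω = ℚ_[p]`, `k₀` = the field generated by `K₀` and the coordinates of the blocks other than
`i`).  Then approximate the free coordinates by integers modulo `p ^ J`, `J` large: the points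
over them are congruent (`section_cong`), so are the `F ^ M` (`map_pow` for
`ℤ_[p] → ℤ_[p] / p ^ J`), and `¬ Par` is an open condition. -/
theorem exists_start {δ : MvPolynomial WI ℤ} [Fact (Nice δ)] [Two ℤ_[p]] (c : CD ℤ_[p] n)
    {s₀ : ℤ_[p]} (hb : Base δ c s₀) (K₀ : Subfield ℚ_[p]) [Countable K₀]
    (hca : ∀ α, (c.a α : ℚ_[p]) ∈ K₀) (hcb : ∀ β, (c.b β : ℚ_[p]) ∈ K₀) {M : ℕ} (hM : 0 < M) :
    ∃ (z : Fin (n + 1) → V3 ℤ_[p]) (s : ℤ_[p]) (h : c.Ok δ (c.sec z s)),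
      (∀ (r : Fin n), z r.castSucc 0 = 1) ∧
      (∀ (r : Fin n) j, z r.castSucc j - 1 ∈ Ideal.span {(p : ℤ_[p])}) ∧
      (∀ (r : Fin n) j, ∃ m : ℤ, z r.castSucc j = m) ∧
      qf (c.con z) (crs (c.lin z) ![0, 1, s]) = 0 ∧
      IsUnit (bf (c.con z) (crs (c.lin z) ![0, 1, s]) (crs (c.lin z) ![0, 0, 1])) ∧
      ∀ i, ¬ TP.Par ((TP.F ^ M : Equiv.Perm (TP δ ℤ_[p])) (h.tp i)) (h.tp i) := by
  obtain ⟨t, ht, ht1⟩ := exists_algInd K₀ (Fin n × Fin 2)
  have hz : ∀ t : Fin n × Fin 2 → ℤ_[p], (∀ q, t q - 1 ∈ Ideal.span {(p : ℤ_[p])}) →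
      ∀ (r : Fin n) j, mkz t r.castSucc j - 1 ∈ Ideal.span {(p : ℤ_[p])} := by
    intro t ht r j
    rw [mkz_free]
    fin_cases j
    · simp
    · simpa using ht (r, 0)
    · simpa using ht (r, 1)
  obtain ⟨s, hs, hroot, -, hok⟩ := exists_section c hb (mkz t) (hz t ht1)
  have hnp := fun i => generic_block c K₀ hca hcb hM t ht hok i
  choose J₀ hJ₀ using fun i => exists_level M (hok.tp i) (hnp i)
  set J : ℕ := 1 + ∑ i, J₀ i with hJ
  have hJi : ∀ i, J₀ i ≤ J := fun i =>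
    (Finset.single_le_sum (fun _ _ => Nat.zero_le _) (Finset.mem_univ i)).trans
      (Nat.le_add_left _ _)
  have hJ1 : 1 ≤ J := Nat.le_add_right _ _
  -- the integers
  set t' : Fin n × Fin 2 → ℤ_[p] := fun q => ((t q).appr J : ℤ_[p]) with ht'
  have htt : ∀ q, t q - t' q ∈ Ideal.span {(p : ℤ_[p]) ^ J} := fun q => PadicInt.appr_spec J (t q)
  have hle : Ideal.span {(p : ℤ_[p]) ^ J} ≤ Ideal.span {(p : ℤ_[p])} := by
    rw [Ideal.span_singleton_le_span_singleton]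
    exact dvd_pow_self _ (by omega)
  have ht1' : ∀ q, t' q - 1 ∈ Ideal.span {(p : ℤ_[p])} := by
    intro q
    have := Ideal.sub_mem _ (ht1 q) (hle (htt q))
    rwa [sub_sub_sub_cancel_left] at this
  obtain ⟨s', hs', hroot', hder', hok'⟩ := exists_section c hb (mkz t') (hz t' ht1')
  have hzz : ∀ (r : Fin n) j, mkz t r.castSucc j - mkz t' r.castSucc j ∈
      Ideal.span {(p : ℤ_[p]) ^ J} := by
    intro r j
    rw [mkz_free, mkz_free]
    fin_cases j
    · simp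
    · simpa using htt (r, 0)
    · simpa using htt (r, 1)
  obtain ⟨-, hlast⟩ := section_cong c hb (mkz t) (mkz t') (hz t ht1) J hJ1 hzz hs hs' hroot hroot'
  refine ⟨mkz t', s', hok', fun r => ?_, hz t' ht1', fun r j => ?_, hroot', hder', fun i => ?_⟩
  · rw [mkz_free]; rfl
  · rw [mkz_free]
    fin_cases j
    · exact ⟨1, by simp⟩
    · exact ⟨((t (r, 0)).appr J : ℤ), by simp [ht']⟩
    · exact ⟨((t (r, 1)).appr J : ℤ), by simp [ht']⟩
  · refine hJ₀ i J (hJi i) (hok'.tp i) ?_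
    set mk := Ideal.Quotient.mk (Ideal.span {(p : ℤ_[p]) ^ J}) with hmk
    have hsec : ∀ r : Fin (n + 1), vmap mk (c.sec (mkz t') s' r) = vmap mk (c.sec (mkz t) s r) := by
      intro r
      induction r using Fin.lastCases with
      | last =>
        rw [CD.sec_last, CD.sec_last]
        exact (vmap_mk_eq _ hlast).symm
      | cast j =>
        rw [CD.sec_free, CD.sec_free]
        exact (vmap_mk_eq _ (hzz j)).symm
    refine TP.ext ?_ (hsec _) (hsec _)
    show (c.wd (c.sec (mkz t') s') i).map mk = (c.wd (c.sec (mkz t) s) i).map mk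
    rw [← CD.wd_map, ← CD.wd_map]
    congr 1
    funext r
    exact hsec r

end Pool.Agent.Helper2.KW
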