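import Pool.Agent.Helper2.KW.T2

/-!
# Complete intersections of multidegrees `(1, ..., 1)`, `(2, ..., 2)` in a product of planes

`CD R n`: the coefficients of a form of multidegree `(1, ..., 1)` and of a form of multidegree
`(2, ..., 2)` on the product of `n + 1` planes.  The first `n` planes are called free.
-/

namespace Pool.Agent.Helper2.KW

/-- The value of a multilinear form with coefficients `c`. -/
def mev {R : Type*} [CommRing R] {ι : Type*} [Fintype ι] {N : ℕ} (c : (Fin N → ι) → R)
    (m : Fin N → ι → R) : R :=
  ∑ α : Fin N → ι, c α * ∏ r, m r (α r)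

/-- The monomials of degree two. -/
def sq {R : Type*} [CommRing R] (u : V3 R) : Fin 3 × Fin 3 → R := fun p => u p.1 * u p.2

/-- The coefficients of a form of multidegree `(1, ..., 1)` and of a form of multidegree
`(2, ..., 2)`. -/
@[ext]
structure CD (R : Type*) (n : ℕ) where
  /-- the coefficients of the form of multidegree `(1, ..., 1)` -/
  a : (Fin (n + 1) → Fin 3) → R
  /-- the coefficients of the form of multidegree `(2, ..., 2)` -/
  b : (Fin (n + 1) → Fin 3 × Fin 3) → R

section mev

variable {R S : Type*} [CommRing R] [CommRing S] {ι : Type*} [Fintype ι] {N : ℕ}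

theorem map_mev (f : R →+* S) (c : (Fin N → ι) → R) (m : Fin N → ι → R) :
    f (mev c m) = mev (fun α => f (c α)) (fun r j => f (m r j)) := by
  simp only [mev, map_sum, map_mul, map_prod]

theorem mev_update [DecidableEq ι] (c : (Fin N → ι) → R) (m : Fin N → ι → R) (r : Fin N)
    (x : ι → R) :
    mev c (Function.update m r x) =
      ∑ j, x j * mev c (Function.update m r (Pi.single j 1)) := by
  classical
  have key : ∀ (α : Fin N → ι) (y : ι → R), ∏ s, Function.update m r y s (α s) =
      y (α r) * ∏ s ∈ Finset.univ.erase r, m s (α s) := by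
    intro α y
    rw [← Finset.mul_prod_erase Finset.univ _ (Finset.mem_univ r), Function.update_self]
    congr 1
    refine Finset.prod_congr rfl fun s hs => ?_
    rw [Function.update_of_ne (Finset.ne_of_mem_erase hs)]
  simp only [mev, key, Finset.mul_sum]
  rw [Finset.sum_comm]
  refine Finset.sum_congr rfl fun α _ => ?_
  rw [Finset.sum_eq_single (α r)]
  · rw [Pi.single_eq_same]; ring
  · intro j _ hj
    rw [Pi.single_eq_of_ne (Ne.symm hj)]; ring
  · intro h; exact absurd (Finset.mem_univ _) h

end mev

namespace CD

variable {R S : Type*} [CommRing R] [CommRing S] {n : ℕ}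

/-- Base change. -/
def map (f : R →+* S) (c : CD R n) : CD S n := ⟨fun α => f (c.a α), fun β => f (c.b β)⟩

/-- The vectors `z` give a point of the complete intersection. -/
def IsPt (c : CD R n) (z : Fin (n + 1) → V3 R) : Prop :=
  mev c.a z = 0 ∧ mev c.b (fun r => sq (z r)) = 0

/-- The linear form in the last vector. -/
def lin (c : CD R n) (z : Fin (n + 1) → V3 R) : V3 R := fun k =>
  mev c.a (Function.update z (Fin.last n) (Pi.single k 1))

/-- The quadratic form in the last vector. -/
def con (c : CD R n) (z : Fin (n + 1) → V3 R) : Fin 3 → Fin 3 → R := fun k l =>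
  mev c.b (Function.update (fun r => sq (z r)) (Fin.last n) (Pi.single (k, l) 1))

/-- The Wehler surface of the free plane `i` and the last plane. -/
def wd (c : CD R n) (z : Fin (n + 1) → V3 R) (i : Fin n) : WD R where
  M j k := mev c.a (Function.update (Function.update z i.castSucc (Pi.single j 1))
    (Fin.last n) (Pi.single k 1))
  q j j' k k' := mev c.b (Function.update (Function.update (fun r => sq (z r)) i.castSucc
    (Pi.single (j, j') 1)) (Fin.last n) (Pi.single (k, k') 1))

/-- The vectors of `z` with the vectors in the places `i` and last replaced. -/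
def repl (z : Fin (n + 1) → V3 R) (i : Fin n) (u v : V3 R) : Fin (n + 1) → V3 R :=
  Function.update (Function.update z i.castSucc u) (Fin.last n) v

end CD

theorem sq_single {R : Type*} [CommRing R] (j : Fin 3) :
    sq (Pi.single j 1 : V3 R) = Pi.single (j, j) 1 := by
  funext p
  rcases p with ⟨a, b⟩
  by_cases ha : a = j
  · by_cases hb : b = j
    · subst ha; subst hb; simp [sq]
    · subst ha
      have : (a, b) ≠ (a, a) := fun h => hb (Prod.ext_iff.mp h).2
      simp [sq, hb, this]
  · have : (a, b) ≠ (j, j) := fun h => ha (Prod.ext_iff.mp h).1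
    simp [sq, ha, this]

end Pool.Agent.Helper2.KW
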