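import Pool.Agent.Helper2.KW.C0

/-!
# Basic facts on complete intersections in a product of planes
-/

set_option linter.unusedSectionVars false

namespace Pool.Agent.Helper2.KW

namespace CD

variable {R S : Type*} [CommRing R] [CommRing S] {n : ℕ}

theorem isPt_iff_last (c : CD R n) (z : Fin (n + 1) → V3 R) :
    c.IsPt z ↔ dot (c.lin z) (z (Fin.last n)) = 0 ∧ qf (c.con z) (z (Fin.last n)) = 0 := by
  classical
  have h1 : mev c.a z = dot (c.lin z) (z (Fin.last n)) := by
    conv_lhs => rw [← Function.update_eq_self (Fin.last n) z, mev_update]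
    simp only [dot, lin]
    exact Finset.sum_congr rfl fun k _ => mul_comm _ _
  have h2 : mev c.b (fun r => sq (z r)) = qf (c.con z) (z (Fin.last n)) := by
    conv_lhs => rw [← Function.update_eq_self (Fin.last n) (fun r => sq (z r)), mev_update]
    rw [Fintype.sum_prod_type]
    simp only [qf, con]
    exact Finset.sum_congr rfl fun k _ => Finset.sum_congr rfl fun l _ => mul_comm _ _
  unfold IsPt
  rw [h1, h2]

theorem castSucc_ne_last (i : Fin n) : i.castSucc ≠ Fin.last n := (Fin.castSucc_lt_last i).ne

theorem sq_repl (z : Fin (n + 1) → V3 R) (i : Fin n) (u v : V3 R) :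
    (fun r => sq (repl z i u v r)) = Function.update (Function.update (fun r => sq (z r))
      i.castSucc (sq u)) (Fin.last n) (sq v) := by
  funext r
  by_cases h : r = Fin.last n
  · subst h; simp [repl]
  · by_cases h' : r = i.castSucc
    · subst h'; simp [repl, h]
    · simp [repl, h, h']

theorem isPt_repl (c : CD R n) (z : Fin (n + 1) → V3 R) (i : Fin n) (u v : V3 R) :
    c.IsPt (repl z i u v) ↔ (c.wd z i).IsPt u v := by
  classical
  have hne := castSucc_ne_last i
  have h1 : mev c.a (repl z i u v) = dot ((c.wd z i).line v) u := by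
    rw [repl, mev_update]
    have : ∀ k : Fin 3, mev c.a (Function.update (Function.update z i.castSucc u) (Fin.last n)
        (Pi.single k 1)) = ∑ j, u j * (c.wd z i).M j k := by
      intro k
      rw [Function.update_comm hne, mev_update]
      refine Finset.sum_congr rfl fun j _ => ?_
      rw [Function.update_comm hne.symm]; rfl
    simp only [this, dot, WD.line, Fin.sum_univ_three]
    ring
  have h2 : mev c.b (fun r => sq (repl z i u v r)) = qf ((c.wd z i).con v) u := by
    rw [sq_repl, mev_update]
    have : ∀ k : Fin 3 × Fin 3, mev c.b (Function.update (Function.update (fun r => sq (z r))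
        i.castSucc (sq u)) (Fin.last n) (Pi.single k 1)) =
          ∑ j : Fin 3 × Fin 3, sq u j * (c.wd z i).q j.1 j.2 k.1 k.2 := by
      intro k
      rw [Function.update_comm hne, mev_update]
      refine Finset.sum_congr rfl fun j _ => ?_
      rw [Function.update_comm hne.symm]; rfl
    simp only [this, Fintype.sum_prod_type, qf, WD.con, sq, Fin.sum_univ_three]
    ring
  unfold IsPt WD.IsPt
  rw [h1, h2]

theorem repl_self (z : Fin (n + 1) → V3 R) (i : Fin n) :
    repl z i (z i.castSucc) (z (Fin.last n)) = z := by
  rw [repl, Function.update_eq_self, Function.update_eq_self]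

theorem isPt_iff_wd (c : CD R n) (z : Fin (n + 1) → V3 R) (i : Fin n) :
    c.IsPt z ↔ (c.wd z i).IsPt (z i.castSucc) (z (Fin.last n)) := by
  rw [← isPt_repl, repl_self]

theorem wd_congr (c : CD R n) {z z' : Fin (n + 1) → V3 R} (i : Fin n)
    (h : ∀ r, r ≠ i.castSucc → r ≠ Fin.last n → z r = z' r) : c.wd z i = c.wd z' i := by
  have e1 : ∀ x y : V3 R, Function.update (Function.update z i.castSucc x) (Fin.last n) y =
      Function.update (Function.update z' i.castSucc x) (Fin.last n) y := by
    intro x y
    funext r
    by_cases h1 : r = Fin.last n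
    · subst h1; simp
    · by_cases h2 : r = i.castSucc
      · subst h2; simp [h1]
      · simp [h1, h2, h r h2 h1]
  have e2 : ∀ x y : Fin 3 × Fin 3 → R, Function.update (Function.update (fun r => sq (z r))
      i.castSucc x) (Fin.last n) y = Function.update (Function.update (fun r => sq (z' r))
      i.castSucc x) (Fin.last n) y := by
    intro x y
    funext r
    by_cases h1 : r = Fin.last n
    · subst h1; simp
    · by_cases h2 : r = i.castSucc
      · subst h2; simp [h1]
      · simp [h1, h2, h r h2 h1]
  refine WD.ext ?_ ?_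
  · funext j k
    simp only [wd, e1]
  · funext j j' k k'
    simp only [wd, e2]

@[simp] theorem repl_free (z : Fin (n + 1) → V3 R) (i : Fin n) (u v : V3 R) :
    repl z i u v i.castSucc = u := by
  simp [repl, castSucc_ne_last i]

@[simp] theorem repl_last (z : Fin (n + 1) → V3 R) (i : Fin n) (u v : V3 R) :
    repl z i u v (Fin.last n) = v := by
  simp [repl]

theorem repl_of_ne (z : Fin (n + 1) → V3 R) (i : Fin n) (u v : V3 R) {r : Fin (n + 1)}
    (h1 : r ≠ i.castSucc) (h2 : r ≠ Fin.last n) : repl z i u v r = z r := by
  simp [repl, h1, h2]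

theorem wd_repl (c : CD R n) (z : Fin (n + 1) → V3 R) (i : Fin n) (u v : V3 R) :
    c.wd (repl z i u v) i = c.wd z i :=
  c.wd_congr i fun _ h1 h2 => repl_of_ne z i u v h1 h2

theorem map_update {ι : Type*} (f : R →+* S) (m : Fin (n + 1) → ι → R) (r : Fin (n + 1))
    (x : ι → R) : (fun s j => f (Function.update m r x s j)) =
      Function.update (fun s j => f (m s j)) r (fun j => f (x j)) := by
  funext s j
  by_cases h : s = r
  · subst h; simp
  · simp [h]

theorem map_single {ι : Type*} [DecidableEq ι] (f : R →+* S) (k : ι) :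
    (fun j => f ((Pi.single k (1 : R) : ι → R) j)) = Pi.single k 1 := by
  funext j
  by_cases h : j = k
  · subst h; simp
  · simp [h]

theorem vmap_sq (f : R →+* S) (u : V3 R) : (fun j => f (sq u j)) = sq (vmap f u) := by
  funext j; simp [sq, vmap]

theorem lin_map (f : R →+* S) (c : CD R n) (z : Fin (n + 1) → V3 R) :
    (c.map f).lin (fun r => vmap f (z r)) = vmap f (c.lin z) := by
  funext k
  show _ = f (mev c.a _)
  rw [map_mev, map_update, map_single]
  rfl

theorem con_map (f : R →+* S) (c : CD R n) (z : Fin (n + 1) → V3 R) :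
    (c.map f).con (fun r => vmap f (z r)) = fun k l => f (c.con z k l) := by
  funext k l
  show _ = f (mev c.b _)
  rw [map_mev, map_update, map_single]
  have e : (fun (s : Fin (n + 1)) j => f (sq (z s) j)) = fun s => sq (vmap f (z s)) :=
    funext fun s => vmap_sq f (z s)
  rw [e]
  rfl

theorem wd_map (f : R →+* S) (c : CD R n) (z : Fin (n + 1) → V3 R) (i : Fin n) :
    (c.map f).wd (fun r => vmap f (z r)) i = (c.wd z i).map f := by
  refine WD.ext ?_ ?_
  · funext j k
    show _ = f (mev c.a _)
    rw [map_mev, map_update, map_update, map_single, map_single]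
    rfl
  · funext j j' k k'
    show _ = f (mev c.b _)
    rw [map_mev, map_update, map_update, map_single, map_single]
    have e : (fun (s : Fin (n + 1)) j => f (sq (z s) j)) = fun s => sq (vmap f (z s)) :=
      funext fun s => vmap_sq f (z s)
    rw [e]
    rfl

theorem IsPt.map (f : R →+* S) {c : CD R n} {z : Fin (n + 1) → V3 R} (h : c.IsPt z) :
    (c.map f).IsPt (fun r => vmap f (z r)) := by
  rw [isPt_iff_last, lin_map, con_map]
  rw [isPt_iff_last] at h
  constructor
  · rw [← map_dot, h.1, map_zero]
  · rw [← map_zero f, ← h.2]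
    simp only [qf, vmap, map_sum, map_mul]

/-- Congruence modulo an ideal of all the coordinates. -/
def Cong (I : Ideal R) (z z' : Fin (n + 1) → V3 R) : Prop := ∀ r j, z r j - z' r j ∈ I

theorem mk_eq_iff_cong (I : Ideal R) (z z' : Fin (n + 1) → V3 R) :
    Cong I z z' ↔ (fun r => vmap (Ideal.Quotient.mk I) (z r)) =
      fun r => vmap (Ideal.Quotient.mk I) (z' r) := by
  constructor
  · intro h
    funext r j
    exact Ideal.Quotient.eq.mpr (h r j)
  · intro h r j
    exact Ideal.Quotient.eq.mp (congrFun (congrFun h r) j)

end CD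

end Pool.Agent.Helper2.KW
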