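import Pool.Agent.Helper2.KW.C2d

/-!
# The generic point
-/

namespace Pool.Agent.Helper2.KW

open MvPolynomial

universe u

namespace CD

variable {R S : Type*} [CommRing R] [CommRing S] {n : ℕ}

/-- The linear form in the last vector does not depend on the last vector. -/
theorem lin_congr_free (c : CD R n) {z z' : Fin (n + 1) → V3 R}
    (h : ∀ r : Fin n, z r.castSucc = z' r.castSucc) : c.lin z = c.lin z' := by
  funext k
  unfold lin
  congr 1
  funext r
  refine Fin.lastCases ?_ (fun r => ?_) r
  · simp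
  · rw [Function.update_of_ne (castSucc_ne_last r), Function.update_of_ne (castSucc_ne_last r), h r]

/-- The quadratic form in the last vector does not depend on the last vector. -/
theorem con_congr_free (c : CD R n) {z z' : Fin (n + 1) → V3 R}
    (h : ∀ r : Fin n, z r.castSucc = z' r.castSucc) : c.con z = c.con z' := by
  funext k l
  unfold con
  congr 1
  funext r
  refine Fin.lastCases ?_ (fun r => ?_) r
  · simp
  · rw [Function.update_of_ne (castSucc_ne_last r), Function.update_of_ne (castSucc_ne_last r), h r]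

theorem map_map {T : Type*} [CommRing T] (f : R →+* S) (g : S →+* T) (c : CD R n) :
    (c.map f).map g = c.map (g.comp f) := rfl

end CD

section gm

variable {R S : Type*} [CommRing R] [CommRing S]

theorem gm_map (f : R →+* S) (l : V3 R) (c : Fin 3 → Fin 3 → R) (i j : Fin 3) :
    gm (vmap f l) (fun i j => f (c i j)) i j = f (gm l c i j) := by
  have e : ∀ i : Fin 3, crs (vmap f l) (Pi.single i 1) = vmap f (crs l (Pi.single i 1)) := by
    intro i
    rw [vmap_crs]
    congr 1
    funext j
    by_cases h : j = i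
    · subst h; simp [vmap]
    · simp [vmap, h]
  unfold gm
  rw [e, e]
  simp only [bf, vmap, map_sum, map_mul, map_add]

theorem gm_zero_zero (l : V3 R) (c : Fin 3 → Fin 3 → R) :
    gm l c 0 0 = 2 * qf c ![0, l 2, - l 1] := by
  simp [gm, bf, qf, crs, Fin.sum_univ_three]
  ring

/-- A line and a conic over an algebraically closed field have a common point outside of the line
`v 0 = 0` if they have no common point on this line. -/
theorem exists_aff_pt {Ω : Type*} [Field Ω] [IsAlgClosed Ω] [CharZero Ω] (l : V3 Ω)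
    (c : Fin 3 → Fin 3 → Ω) (h : gm l c 0 0 ≠ 0) :
    ∃ v : V3 Ω, v 0 = 1 ∧ dot l v = 0 ∧ qf c v = 0 := by
  rw [gm_zero_zero] at h
  set t : V3 Ω := ![0, l 2, - l 1] with ht
  have h2 : qf c t ≠ 0 := right_ne_zero_of_mul h
  have hl : l 1 ≠ 0 ∨ l 2 ≠ 0 := by
    by_contra hc
    push Not at hc
    apply h2
    simp [qf, ht, hc.1, hc.2, Fin.sum_univ_three]
  obtain ⟨p, hp0, hp⟩ : ∃ p : V3 Ω, p 0 = 1 ∧ dot l p = 0 := by
    rcases hl with h1 | h1
    · refine ⟨![1, - l 0 / l 1, 0], by simp, ?_⟩
      simp only [dot, Fin.sum_univ_three, Matrix.cons_val]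
      field_simp
      ring
    · refine ⟨![1, 0, - l 0 / l 2], by simp, ?_⟩
      simp only [dot, Fin.sum_univ_three, Matrix.cons_val]
      field_simp
      ring
  have : NeZero (2 : Ω) := ⟨two_ne_zero⟩
  obtain ⟨s, hs⟩ := exists_quadratic_eq_zero (a := qf c t) (b := bf c p t) (c := qf c p) h2
    (IsAlgClosed.exists_eq_mul_self _)
  refine ⟨fun i => p i + s * t i, ?_, ?_, ?_⟩
  · simp [ht, hp0]
  · have e : dot l t = 0 := by
      simp only [dot, ht, Fin.sum_univ_three, Matrix.cons_val]; ring
    simp only [dot, Fin.sum_univ_three] at hp e ⊢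
    linear_combination hp + s * e
  · rw [← hs]
    simp only [qf, bf, Fin.sum_univ_three]
    ring

end gm

variable {K : Type u} [Field K] {n : ℕ}

/-- The generic free vectors. -/
noncomputable def gz (K : Type u) [Field K] (n : ℕ) :
    Fin (n + 1) → V3 (MvPolynomial (Fin n × Fin 2) K) :=
  Fin.lastCases ![1, 0, 0] (fun r => ![1, X (r, 0), X (r, 1)])

theorem gz_castSucc (r : Fin n) : gz K n r.castSucc = ![1, X (r, 0), X (r, 1)] := by
  unfold gz
  rw [Fin.lastCases_castSucc]

theorem map_C_map {S : Type*} [CommRing S] (c : CD K n) {σ : Type*}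
    (ev : MvPolynomial σ K →+* S) : (c.map C).map ev = c.map (ev.comp C) := rfl

/-- The generic value is not zero. -/
theorem generic_ne_zero (c : CD K n) (z₀ : Fin (n + 1) → V3 K)
    (hz₀ : ∀ r : Fin n, z₀ r.castSucc 0 = 1) (hG : gm (c.lin z₀) (c.con z₀) 0 0 ≠ 0) :
    gm ((c.map C).lin (gz K n)) ((c.map C).con (gz K n)) 0 0 ≠ 0 := by
  intro h0
  apply hG
  set ev : MvPolynomial (Fin n × Fin 2) K →+* K :=
    eval (fun x : Fin n × Fin 2 => z₀ x.1.castSucc x.2.succ) with hev
  have e1 : gm (((c.map C).map ev).lin (fun r => vmap ev (gz K n r)))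
      (((c.map C).map ev).con (fun r => vmap ev (gz K n r))) 0 0 = 0 := by
    rw [CD.lin_map, CD.con_map, gm_map, h0, map_zero]
  have e2 : (c.map C).map ev = c := by
    refine CD.ext ?_ ?_
    · funext α
      show ev (C (c.a α)) = c.a α
      rw [hev, eval_C]
    · funext α
      show ev (C (c.b α)) = c.b α
      rw [hev, eval_C]
  have e3 : ∀ r : Fin n, (fun r => vmap ev (gz K n r)) r.castSucc = z₀ r.castSucc := by
    intro r
    show vmap ev (gz K n r.castSucc) = z₀ r.castSucc
    rw [gz_castSucc]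
    funext j
    fin_cases j
    · simp [vmap, hz₀ r]
    · simp [vmap, hev]
    · simp [vmap, hev]
  rw [e2, CD.lin_congr_free c e3, CD.con_congr_free c e3] at e1
  exact e1

theorem exists_prime_aux (c : CD K n)
    (hg : gm ((c.map C).lin (gz K n)) ((c.map C).con (gz K n)) 0 0 ≠ 0)
    {Ω : Type u} [Field Ω] [IsAlgClosed Ω] [CharZero Ω]
    (ψ : MvPolynomial (Fin n × Fin 2) K →+* Ω) (hψ : Function.Injective ψ) :
    ∃ P : Ideal (MvPolynomial (Fin (n + 1) × Fin 2) K), P.IsPrime ∧ eqL c ∈ P ∧ eqQ c ∈ P ∧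
      Dominant P := by
  have hg' : gm (((c.map C).map ψ).lin (fun r => vmap ψ (gz K n r)))
      (((c.map C).map ψ).con (fun r => vmap ψ (gz K n r))) 0 0 ≠ 0 := by
    rw [CD.lin_map, CD.con_map, gm_map]
    intro h0
    exact hg (hψ (h0.trans (map_zero ψ).symm))
  obtain ⟨v, hv0, hvl, hvq⟩ := exists_aff_pt _ _ hg'
  -- the coordinates of the generic point
  let y : Fin (n + 1) × Fin 2 → Ω := fun x =>
    Fin.lastCases (motive := fun _ => Ω) (v x.2.succ) (fun r => ψ (X (r, x.2))) x.1
  have hy1 : ∀ (r : Fin n) (i : Fin 2), y (r.castSucc, i) = ψ (X (r, i)) := fun r i => by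
    simp only [y, Fin.lastCases_castSucc]
  have hy2 : ∀ i : Fin 2, y (Fin.last n, i) = v i.succ := fun i => by
    simp only [y, Fin.lastCases_last]
  let f : MvPolynomial (Fin (n + 1) × Fin 2) K →+* Ω := eval₂Hom (ψ.comp C) y
  have hfX : ∀ x, f (X x) = y x := fun x => eval₂Hom_X' _ _ _
  have hfC : ∀ a, f (C a) = ψ (C a) := fun a => eval₂Hom_C _ _ _
  have hmap : (c.map C).map f = (c.map C).map ψ := by
    refine CD.ext ?_ ?_
    · funext α; exact hfC _
    · funext α; exact hfC _
  have hfree : ∀ r : Fin n, (fun r => vmap f (aff K n r)) r.castSucc =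
      (fun r => vmap ψ (gz K n r)) r.castSucc := by
    intro r
    show vmap f (aff K n r.castSucc) = vmap ψ (gz K n r.castSucc)
    rw [gz_castSucc]
    funext j
    fin_cases j
    · simp [vmap, aff]
    · simp [vmap, aff, hfX, hy1]
    · simp [vmap, aff, hfX, hy1]
  have hlast : vmap f (aff K n (Fin.last n)) = v := by
    funext j
    fin_cases j
    · simp [vmap, aff, hv0]
    · simp [vmap, aff, hfX, hy2]
    · simp [vmap, aff, hfX, hy2]
  have hpt : ((c.map C).map f).IsPt (fun r => vmap f (aff K n r)) := by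
    rw [CD.isPt_iff_last]
    have e1 := CD.lin_congr_free ((c.map C).map ψ) (z := fun r => vmap f (aff K n r))
      (z' := fun r => vmap ψ (gz K n r)) hfree
    have e2 := CD.con_congr_free ((c.map C).map ψ) (z := fun r => vmap f (aff K n r))
      (z' := fun r => vmap ψ (gz K n r)) hfree
    rw [hmap]
    show dot (((c.map C).map ψ).lin (fun r => vmap f (aff K n r)))
      (vmap f (aff K n (Fin.last n))) = 0 ∧
      qf (((c.map C).map ψ).con (fun r => vmap f (aff K n r)))
      (vmap f (aff K n (Fin.last n))) = 0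
    rw [e1, e2, hlast]
    exact ⟨hvl, hvq⟩
  refine ⟨RingHom.ker f, RingHom.ker_isPrime f, ?_, ?_, ?_⟩
  · rw [RingHom.mem_ker, eqL, map_mev]
    exact hpt.1
  · rw [RingHom.mem_ker, eqQ, map_mev]
    have e : (fun r j => f (sq (aff K n r) j)) = fun r => sq (vmap f (aff K n r)) :=
      funext fun r => CD.vmap_sq f (aff K n r)
    rw [e]
    exact hpt.2
  · intro Φ hΦ
    rw [RingHom.mem_ker] at hΦ
    have e : ∀ Φ : MvPolynomial (Fin n × Fin 2) K,
        f (rename (Prod.map Fin.castSucc id) Φ) = ψ Φ := by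
      intro Φ
      have : f.comp (rename (Prod.map (Fin.castSucc : Fin n → Fin (n + 1)) (id : Fin 2 → Fin 2)) :
          MvPolynomial (Fin n × Fin 2) K →ₐ[K] _).toRingHom = ψ := by
        refine MvPolynomial.ringHom_ext (fun a => ?_) (fun x => ?_)
        · show f (rename _ (C a)) = _
          rw [rename_C, hfC]
        · show f (rename _ (X x)) = _
          rw [rename_X, hfX]
          exact hy1 x.1 x.2
      exact congrArg (fun g : MvPolynomial (Fin n × Fin 2) K →+* Ω => g Φ) this
    rw [e] at hΦ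
    exact hψ (hΦ.trans (map_zero ψ).symm)

/-- Proof.  Over the algebraic closure `Ω` of the fraction field of `K[t]` take a common point `v`
of the line and the conic of the generic free vectors; `G 0 0 = 2 * v 0 * v' 0 ≠ 0` by `hG`, so
`v 0 ≠ 0`; `P` is the kernel of the evaluation at the generic point, with `v 0 = 1`. -/
theorem exists_prime [CharZero K] (c : CD K n)
    (hG : ∃ z : Fin (n + 1) → V3 K, (∀ r : Fin n, z r.castSucc 0 = 1) ∧
      gm (c.lin z) (c.con z) 0 0 ≠ 0) :
    ∃ P : Ideal (MvPolynomial (Fin (n + 1) × Fin 2) K), P.IsPrime ∧ eqL c ∈ P ∧ eqQ c ∈ P ∧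
      Dominant P := by
  obtain ⟨z₀, hz₀, hG⟩ := hG
  let F := FractionRing (MvPolynomial (Fin n × Fin 2) K)
  let Ω := AlgebraicClosure F
  have h1 : Function.Injective (algebraMap (MvPolynomial (Fin n × Fin 2) K) F) :=
    IsFractionRing.injective _ _
  have h2 : Function.Injective (algebraMap F Ω) := RingHom.injective _
  have : CharZero F := charZero_of_injective_ringHom h1
  have : CharZero Ω := charZero_of_injective_ringHom h2
  exact exists_prime_aux c (generic_ne_zero c z₀ hz₀ hG)
    ((algebraMap F Ω).comp (algebraMap (MvPolynomial (Fin n × Fin 2) K) F)) (h2.comp h1)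

end Pool.Agent.Helper2.KW
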