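import Pool.Agent.Helper2.KW.T2
import Pool.Agent.Helper81.KW.Mac

/-!
# The fibres of a general Wehler surface are finite
-/

namespace Pool.Agent.Helper2.KW

open MvPolynomial

/-- The example `∑ u i * v i = 0`, `∑ (u i) ^ 2 * (v (i + 1)) ^ 2 = 0`. -/
def W0 : WD ℤ :=
  ⟨fun i k => if i = k then 1 else 0, fun i j k l => if i = j ∧ k = i + 1 ∧ l = i + 1 then 1 else 0⟩

/-- The universal equations. -/
noncomputable def WU : WD (MvPolynomial WI ℤ) :=
  ⟨fun i k => X (Sum.inl (i, k)), fun i j k l => X (Sum.inr (i, j, k, l))⟩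

/-- The value at the coefficients of `W` as a homomorphism. -/
noncomputable def evH {R : Type*} [CommRing R] (W : WD R) : MvPolynomial WI ℤ →+* R :=
  (MvPolynomial.aeval (Sum.elim (fun a : Fin 3 × Fin 3 => W.M a.1 a.2)
    (fun a : Fin 3 × Fin 3 × Fin 3 × Fin 3 => W.q a.1 a.2.1 a.2.2.1 a.2.2.2)) :
      MvPolynomial WI ℤ →ₐ[ℤ] R).toRingHom

theorem evH_apply {R : Type*} [CommRing R] (W : WD R) (δ : MvPolynomial WI ℤ) : evH W δ = evW δ W := rfl

theorem WU_map {R : Type*} [CommRing R] (W : WD R) : WU.map (evH W) = W := by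
  refine WD.ext ?_ ?_
  · funext i k
    show evH W (X (Sum.inl (i, k))) = _
    simp [evH]
  · funext i j k l
    show evH W (X (Sum.inr (i, j, k, l))) = _
    simp [evH]

theorem G_map_C {A R : Type*} [CommRing A] [CommRing R] (φ : A →+* R) (W : WD A) (i j : Fin 3) :
    MvPolynomial.map φ ((W.map (C : A →+* MvPolynomial (Fin 3) A)).G X i j) =
      ((W.map φ).map (C : R →+* MvPolynomial (Fin 3) R)).G X i j := by
  have h1 := WD.G_map (MvPolynomial.map φ) (W.map (C : A →+* MvPolynomial (Fin 3) A)) X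
  have h2 : vmap (MvPolynomial.map φ) (X : V3 (MvPolynomial (Fin 3) A)) = X := by
    funext i; simp [vmap]
  have h3 : (W.map (C : A →+* MvPolynomial (Fin 3) A)).map (MvPolynomial.map φ) =
      (W.map φ).map (C : R →+* MvPolynomial (Fin 3) R) := by
    rw [WD.map_map, WD.map_map]
    congr 1
    ext a
    simp
  rw [h2, h3] at h1
  exact (congrFun (congrFun h1 i) j).symm

theorem hom_crs {A : Type*} [CommRing A] {l : V3 (MvPolynomial (Fin 3) A)} {d : ℕ}
    (hl : ∀ i, (l i).IsHomogeneous d) (j r : Fin 3) :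
    (crs l (Pi.single j 1) r).IsHomogeneous d := by
  have h1 : ∀ j r : Fin 3, ((Pi.single j 1 : V3 (MvPolynomial (Fin 3) A)) r).IsHomogeneous 0 := by
    intro j r
    by_cases h : r = j
    · subst h
      rw [Pi.single_eq_same]
      exact isHomogeneous_one _ _
    · rw [Pi.single_eq_of_ne h]
      exact isHomogeneous_zero _ _ _
  have h2 : ∀ a b : Fin 3, (l a * (Pi.single j 1 : V3 (MvPolynomial (Fin 3) A)) b).IsHomogeneous d :=
    fun a b => by simpa using (hl a).mul (h1 j b)
  fin_cases r <;> exact (h2 _ _).sub (h2 _ _)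

theorem hom_gm {A : Type*} [CommRing A] {l : V3 (MvPolynomial (Fin 3) A)}
    {c : Fin 3 → Fin 3 → MvPolynomial (Fin 3) A} {d f n : ℕ}
    (hl : ∀ i, (l i).IsHomogeneous d) (hc : ∀ i j, (c i j).IsHomogeneous f) (hn : f + (d + d) = n) (i j : Fin 3) :
    (gm l c i j).IsHomogeneous n := by
  subst hn
  unfold gm bf
  refine IsHomogeneous.sum _ _ _ fun a _ => IsHomogeneous.sum _ _ _ fun b _ => ?_
  refine (hc a b).mul ?_
  exact ((hom_crs hl i a).mul (hom_crs hl j b)).add ((hom_crs hl j a).mul (hom_crs hl i b))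

theorem hom_G {A : Type*} [CommRing A] (W : WD A) (i j : Fin 3) :
    ((W.map (C : A →+* MvPolynomial (Fin 3) A)).G X i j).IsHomogeneous 4 := by
  refine hom_gm (d := 1) (f := 2) (fun i => ?_) (fun i j => ?_) rfl i j
  · refine IsHomogeneous.sum _ _ _ fun k _ => ?_
    exact (isHomogeneous_C (Fin 3) (W.M i k)).mul (isHomogeneous_X A k)
  · refine IsHomogeneous.sum _ _ _ fun k _ => IsHomogeneous.sum _ _ _ fun l _ => ?_
    exact (isHomogeneous_C (Fin 3) (W.q i j k l)).mul ((isHomogeneous_X A k).mul (isHomogeneous_X A l))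

/-- One half. -/
theorem half_delta (U : WD (MvPolynomial WI ℤ)) (a b : Fin 3 → MvPolynomial (Fin 3) ℤ)
    (ha : ∀ k, (a k).IsHomogeneous 3) (hb : ∀ k, (b k).IsHomogeneous 3) (s t : Fin 3)
    (he : ∀ k, a k * ((U.map (evH W0)).map (C : ℤ →+* MvPolynomial (Fin 3) ℤ)).G X (k + s) (k + s) +
      b k * ((U.map (evH W0)).map (C : ℤ →+* MvPolynomial (Fin 3) ℤ)).G X k (k + t) = 2 * X k ^ 7) :
    ∃ δ : MvPolynomial WI ℤ, evW δ W0 ≠ 0 ∧ ∀ (R : Type) [CommRing R] (W : WD R), IsUnit (evW δ W) →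
      (U.map (evH W)).Half := by
  set c := (Int.castRingHom (MvPolynomial WI ℤ)) with hc
  set g := (U.map (C : MvPolynomial WI ℤ →+* MvPolynomial (Fin 3) (MvPolynomial WI ℤ))).G X with hg
  obtain ⟨d, h1, h2⟩ := Helper81.KW.mac (fun ij : Fin 3 × Fin 3 => g ij.1 ij.2)
    (fun k => MvPolynomial.map c (a k) * g (k + s) (k + s) + MvPolynomial.map c (b k) * g k (k + t)) (fun k => by
      refine Ideal.add_mem _ (Ideal.mul_mem_left _ _ (Ideal.subset_span ⟨(k + s, k + s), rfl⟩))
        (Ideal.mul_mem_left _ _ (Ideal.subset_span ⟨(k, k + t), rfl⟩))) (fun k => by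
      exact (((ha k).map c).mul (hom_G U _ _)).add (((hb k).map c).mul (hom_G U _ _))) (evH W0) (fun k => by
      rw [map_add, map_mul, map_mul, map_map, map_map, hg, G_map_C, G_map_C]
      have h3 : (evH W0).comp c = RingHom.id ℤ := RingHom.ext_int _ _
      rw [h3, map_id, map_id]
      exact he k)
  refine ⟨d, h1, fun R _ W hu => ⟨19, fun k => ?_⟩⟩
  have h3 := h2 R (evH W) hu k
  have h4 : (fun ij : Fin 3 × Fin 3 => MvPolynomial.map (evH W) (g ij.1 ij.2)) =
      fun ij : Fin 3 × Fin 3 => ((U.map (evH W)).map (C : R →+* MvPolynomial (Fin 3) R)).G X ij.1 ij.2 := by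
    funext ij
    rw [hg, G_map_C]
  rw [h4] at h3
  exact h3

theorem hom_mon3 {R : Type*} [CommRing R] (i j k : Fin 3) :
    (X i * (X j * X k) : MvPolynomial (Fin 3) R).IsHomogeneous 3 :=
  (isHomogeneous_X R i).mul ((isHomogeneous_X R j).mul (isHomogeneous_X R k))

/-- Proof.  Let `g i j` be the nine forms of degree four in `v` (over the ring of the universal
`W`, `WD.G` of the universal surface).  For `W0` one has, for all `k` modulo `3`,
`2 v_k ^ 7 = v_k ^ 3 g (k+1) (k+1) + v_(k+1) v_(k+2) ^ 2 g k (k+1)` and, for `W0.swap`,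
`2 u_k ^ 7 = u_k ^ 3 g' (k+2) (k+2) + u_(k+1) ^ 2 u_(k+2) g' k (k+2)` (to be checked with `ring`
after computing).  Every monomial `m` of degree `19` is `v_k ^ 7 m'` for some `k`, choose one; put
`h m = m' * (v_k ^ 3 g (k+1) (k+1) + v_(k+1) v_(k+2) ^ 2 g k (k+1))` over the universal ring and let
`δ₁` be the determinant of the square matrix of the coefficients of the `h m` at the monomials of
degree `19`; `δ₁ (W0) = 2 ^ 210`.  If `δ₁ (W)` is invertible then all monomials of degree `19` are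
combinations of the `h m`, so `W.Half` with `N = 19`.  The same for `W.swap`; `δ` is the product. -/
theorem exists_delta : ∃ δ : MvPolynomial WI ℤ, Nice δ ∧ evW δ W0 ≠ 0 := by
  obtain ⟨d1, h1, h2⟩ := half_delta WU (fun k => X k * (X k * X k)) (fun k => X (k + 1) * (X (k + 2) * X (k + 2)))
    (fun k => hom_mon3 _ _ _) (fun k => hom_mon3 _ _ _) 1 1 (by
      intro k
      rw [WU_map]
      fin_cases k <;>
      simp [WD.G, gm, bf, crs, WD.line, WD.con, WD.map, W0, Fin.sum_univ_three] <;> ring)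
  obtain ⟨d2, h3, h4⟩ := half_delta WU.swap (fun k => X k * (X k * X k)) (fun k => X (k + 1) * (X (k + 1) * X (k + 2)))
    (fun k => hom_mon3 _ _ _) (fun k => hom_mon3 _ _ _) 2 2 (by
      intro k
      rw [← WD.swap_map, WU_map]
      fin_cases k <;>
      simp [WD.G, gm, bf, crs, WD.line, WD.con, WD.map, WD.swap, W0, Fin.sum_univ_three] <;> ring)
  refine ⟨d1 * d2, fun R _ W hu => ?_, ?_⟩
  · rw [← evH_apply, map_mul] at hu
    have hu1 := isUnit_of_mul_isUnit_left hu
    have hu2 := isUnit_of_mul_isUnit_right hu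
    have e1 := h2 R W hu1
    have e2 := h4 R W hu2
    rw [WU_map] at e1
    rw [← WD.swap_map, WU_map] at e2
    exact ⟨e1, e2⟩
  · rw [← evH_apply, map_mul, evH_apply, evH_apply]
    exact mul_ne_zero h1 h3

end Pool.Agent.Helper2.KW
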