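import Pool.Agent.Helper2.KW.D1
import Pool.Agent.Helper2.KW.C0b

/-!
# The open condition on complete intersections
-/

namespace Pool.Agent.Helper2.KW

open MvPolynomial

universe u

/-- The index set of the coefficients. -/
abbrev CI (n : ℕ) := (Fin (n + 1) → Fin 3) ⊕ (Fin (n + 1) → Fin 3 × Fin 3)

/-- The coefficients as one family. -/
def CD.coe {R : Type*} {n : ℕ} (c : CD R n) : CI n → R := Sum.elim c.a c.b

section natural

variable {R S : Type*} [CommRing R] [CommRing S]

theorem qf_vmap (f : R →+* S) (c : Fin 3 → Fin 3 → R) (u : V3 R) :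
    f (qf c u) = qf (fun i j => f (c i j)) (vmap f u) := by
  simp only [qf, vmap, map_sum, map_mul]

theorem bf_vmap (f : R →+* S) (c : Fin 3 → Fin 3 → R) (u t : V3 R) :
    f (bf c u t) = bf (fun i j => f (c i j)) (vmap f u) (vmap f t) := by
  simp only [bf, vmap, map_sum, map_mul, map_add]

/-- The open condition as one element. -/
noncomputable def dl (n : ℕ) (δ : MvPolynomial WI ℤ) (c : CD R n) : R :=
  c.lin 1 0 * (qf (c.con 1) (crs (c.lin 1) ![0, 0, 1]) *
    (((bf (c.con 1) (crs (c.lin 1) ![0, 1, 0]) (crs (c.lin 1) ![0, 0, 1])) ^ 2 -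
      4 * qf (c.con 1) (crs (c.lin 1) ![0, 0, 1]) *
        qf (c.con 1) (crs (c.lin 1) ![0, 1, 0])) * ∏ i, evW δ (c.wd 1 i)))

theorem vmap_one (f : R →+* S) {n : ℕ} :
    (fun r => vmap f ((1 : Fin (n + 1) → V3 R) r)) = 1 := by
  funext r j
  exact map_one f

theorem dl_map (f : R →+* S) {n : ℕ} (δ : MvPolynomial WI ℤ) (c : CD R n) :
    dl n δ (c.map f) = f (dl n δ c) := by
  have h1 : (c.map f).lin 1 = vmap f (c.lin 1) := by
    have h := CD.lin_map f c 1
    rwa [vmap_one] at h
  have h2 : (c.map f).con 1 = fun k l => f (c.con 1 k l) := by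
    have h := CD.con_map f c 1
    rwa [vmap_one] at h
  have h3 : ∀ i, (c.map f).wd 1 i = (c.wd 1 i).map f := by
    intro i
    have h := CD.wd_map f c 1 i
    rwa [vmap_one] at h
  have h4 : vmap f ![0, 0, 1] = (![0, 0, 1] : V3 S) := by
    funext i
    fin_cases i <;> simp [vmap]
  have h5 : vmap f ![0, 1, 0] = (![0, 1, 0] : V3 S) := by
    funext i
    fin_cases i <;> simp [vmap]
  unfold dl
  simp only [h1, h2, h3, evW_map, map_mul, map_sub, map_pow, map_prod, qf_vmap, bf_vmap,
    vmap_crs, h4, h5, map_ofNat]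
  rfl

end natural

/-- The universal coefficients. -/
noncomputable def uni (n : ℕ) : CD (MvPolynomial (CI n) ℤ) n :=
  ⟨fun α => X (Sum.inl α), fun β => X (Sum.inr β)⟩

theorem uni_map {S : Type*} [CommRing S] {n : ℕ} (c : CD S n) :
    (uni n).map (aeval c.coe : MvPolynomial (CI n) ℤ →ₐ[ℤ] S).toRingHom = c := by
  refine CD.ext ?_ ?_
  · funext α
    exact aeval_X _ _
  · funext β
    exact aeval_X _ _

section example0

/-- A sum of three multi-indices. -/
theorem mev_three {R : Type*} [CommRing R] {ι : Type*} [Fintype ι] [DecidableEq ι] {N : ℕ}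
    (A : Fin 3 → Fin N → ι) (m : Fin N → ι → R) :
    mev (fun α => ∑ j, if α = A j then (1 : R) else 0) m = ∑ j, ∏ r, m r (A j r) := by
  unfold mev
  simp only [Finset.sum_mul]
  rw [Finset.sum_comm]
  refine Finset.sum_congr rfl fun j _ => ?_
  simp

/-- The multi-indices of the linear form. -/
def Aa {n : ℕ} (j : Fin 3) : Fin (n + 1) → Fin 3 := fun _ => j

/-- The multi-indices of the quadratic form. -/
def Bb {n : ℕ} (j : Fin 3) : Fin (n + 1) → Fin 3 × Fin 3 :=
  fun r => if r = Fin.last n then (j + 1, j + 1) else (j, j)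

/-- The example. -/
def ex0 (n : ℕ) : CD ℤ n :=
  ⟨fun α => ∑ j, if α = Aa j then 1 else 0, fun β => ∑ j, if β = Bb j then 1 else 0⟩

theorem prod_last {R : Type*} [CommRing R] {ι : Type*} {n : ℕ} (m : Fin (n + 1) → ι → R)
    (x : ι → R) (A : Fin (n + 1) → ι) (hm : ∀ i : Fin n, m i.castSucc (A i.castSucc) = 1) :
    ∏ r, Function.update m (Fin.last n) x r (A r) = x (A (Fin.last n)) := by
  rw [Fin.prod_univ_castSucc, Function.update_self]
  have h : ∀ i : Fin n, Function.update m (Fin.last n) x i.castSucc (A i.castSucc) = 1 := by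
    intro i
    rw [Function.update_of_ne (CD.castSucc_ne_last i)]
    exact hm i
  rw [Finset.prod_congr rfl fun i _ => h i, Finset.prod_const_one, one_mul]

theorem prod_two {R : Type*} [CommRing R] {ι : Type*} {n : ℕ} (m : Fin (n + 1) → ι → R)
    (i : Fin n) (x y : ι → R) (A : Fin (n + 1) → ι)
    (hm : ∀ i : Fin n, m i.castSucc (A i.castSucc) = 1) :
    ∏ r, Function.update (Function.update m i.castSucc x) (Fin.last n) y r (A r) =
      x (A i.castSucc) * y (A (Fin.last n)) := by
  rw [Fin.prod_univ_castSucc, Function.update_self]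
  congr 1
  rw [Finset.prod_eq_single i]
  · rw [Function.update_of_ne (CD.castSucc_ne_last i), Function.update_self]
  · intro j _ hj
    rw [Function.update_of_ne (CD.castSucc_ne_last j), Function.update_of_ne]
    · exact hm j
    · intro h
      exact hj (Fin.castSucc_injective _ h)
  · intro h
    exact absurd (Finset.mem_univ _) h

theorem Bb_last {n : ℕ} (j : Fin 3) : (Bb j : Fin (n + 1) → Fin 3 × Fin 3) (Fin.last n) =
    (j + 1, j + 1) := by
  simp [Bb]

theorem Bb_free {n : ℕ} (j : Fin 3) (i : Fin n) :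
    (Bb j : Fin (n + 1) → Fin 3 × Fin 3) i.castSucc = (j, j) := by
  simp [Bb, CD.castSucc_ne_last i]

theorem sq_one (p : Fin 3 × Fin 3) : sq (1 : V3 ℤ) p = 1 := by
  simp [sq]

theorem ex0_lin (n : ℕ) : (ex0 n).lin 1 = 1 := by
  funext k
  show mev (fun α => ∑ j, if α = Aa j then (1 : ℤ) else 0) _ = 1
  rw [mev_three]
  have h : ∀ j : Fin 3, ∏ r, Function.update (1 : Fin (n + 1) → V3 ℤ) (Fin.last n)
      (Pi.single k 1) r (Aa j r) = (Pi.single k 1 : V3 ℤ) j := by
    intro j
    rw [prod_last _ _ _ fun i => rfl]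
    rfl
  rw [Finset.sum_congr rfl fun j _ => h j]
  simp

theorem ex0_con (n : ℕ) : (ex0 n).con 1 = fun k l => if k = l then 1 else 0 := by
  funext k l
  show mev (fun β => ∑ j, if β = Bb j then (1 : ℤ) else 0) _ = _
  rw [mev_three]
  have h : ∀ j : Fin 3, ∏ r, Function.update (fun r => sq ((1 : Fin (n + 1) → V3 ℤ) r))
      (Fin.last n) (Pi.single (k, l) 1) r (Bb j r) =
        (Pi.single (k, l) 1 : Fin 3 × Fin 3 → ℤ) (j + 1, j + 1) := by
    intro j
    rw [prod_last _ _ _ fun i => sq_one _, Bb_last]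
  rw [Finset.sum_congr rfl fun j _ => h j]
  clear h
  revert k l
  decide

theorem ex0_wd (n : ℕ) (i : Fin n) : (ex0 n).wd 1 i = W0 := by
  refine WD.ext ?_ ?_
  · funext j k
    show mev (fun α => ∑ j, if α = Aa j then (1 : ℤ) else 0) _ = if j = k then 1 else 0
    rw [mev_three]
    have h : ∀ m : Fin 3, ∏ r, Function.update (Function.update (1 : Fin (n + 1) → V3 ℤ)
        i.castSucc (Pi.single j 1)) (Fin.last n) (Pi.single k 1) r (Aa m r) =
          (Pi.single j 1 : V3 ℤ) m * (Pi.single k 1 : V3 ℤ) m := by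
      intro m
      rw [prod_two _ _ _ _ _ fun i => rfl]
      rfl
    rw [Finset.sum_congr rfl fun m _ => h m]
    clear h
    revert j k
    decide
  · funext j j' k k'
    show mev (fun β => ∑ j, if β = Bb j then (1 : ℤ) else 0) _ =
      if j = j' ∧ k = j + 1 ∧ k' = j + 1 then 1 else 0
    rw [mev_three]
    have h : ∀ m : Fin 3, ∏ r, Function.update (Function.update
        (fun r => sq ((1 : Fin (n + 1) → V3 ℤ) r)) i.castSucc (Pi.single (j, j') 1))
        (Fin.last n) (Pi.single (k, k') 1) r (Bb m r) =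
          (Pi.single (j, j') 1 : Fin 3 × Fin 3 → ℤ) (m, m) *
            (Pi.single (k, k') 1 : Fin 3 × Fin 3 → ℤ) (m + 1, m + 1) := by
      intro m
      rw [prod_two _ _ _ _ _ fun i => sq_one _, Bb_last, Bb_free]
    rw [Finset.sum_congr rfl fun m _ => h m]
    clear h
    revert j j' k k'
    decide

theorem dl_ex0 (n : ℕ) (δ : MvPolynomial WI ℤ) (hδ : evW δ W0 ≠ 0) : dl n δ (ex0 n) ≠ 0 := by
  unfold dl
  rw [ex0_lin, ex0_con]
  simp only [ex0_wd]
  refine mul_ne_zero (by decide) (mul_ne_zero (by decide) (mul_ne_zero (by decide) ?_))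
  exact Finset.prod_ne_zero_iff.mpr fun _ _ => hδ

end example0

/-- Proof.  `Δ` is the product of the left hand sides for the universal `c` over
`MvPolynomial (CI n) ℤ`; it is not zero because it is not zero for the example
`a α = 1` if `α` is constant (else `0`), `b β = 1` if for some `j` (in `Fin 3`), `β r = (j, j)` for
all free `r` and `β (last) = (j + 1, j + 1)` (else `0`): there `lin 1 = (1, 1, 1)`,
`con 1 = diag (1, 1, 1)` and `wd 1 i = W0` for all `i`. -/
theorem exists_Delta (n : ℕ) (δ : MvPolynomial WI ℤ) (hδ : evW δ W0 ≠ 0) :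
    ∃ Δ : MvPolynomial (CI n) ℤ, Δ ≠ 0 ∧ ∀ (K : Type u) [Field K] (c : CD K n),
      aeval c.coe Δ ≠ 0 → c.lin 1 0 ≠ 0 ∧
        qf (c.con 1) (crs (c.lin 1) ![0, 0, 1]) ≠ 0 ∧
        (bf (c.con 1) (crs (c.lin 1) ![0, 1, 0]) (crs (c.lin 1) ![0, 0, 1])) ^ 2 -
          4 * qf (c.con 1) (crs (c.lin 1) ![0, 0, 1]) *
            qf (c.con 1) (crs (c.lin 1) ![0, 1, 0]) ≠ 0 ∧
        ∀ i, evW δ (c.wd 1 i) ≠ 0 := by
  have key : ∀ {S : Type _} [CommRing S] (c : CD S n),
      aeval c.coe (dl n δ (uni n)) = dl n δ c := by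
    intro S _ c
    have h := dl_map (aeval c.coe : MvPolynomial (CI n) ℤ →ₐ[ℤ] S).toRingHom δ (uni n)
    rw [uni_map] at h
    exact h.symm
  refine ⟨dl n δ (uni n), ?_, ?_⟩
  · intro h
    have h1 := dl_map (aeval (ex0 n).coe : MvPolynomial (CI n) ℤ →ₐ[ℤ] ℤ).toRingHom δ (uni n)
    rw [uni_map, h, map_zero] at h1
    exact dl_ex0 n δ hδ h1
  · intro K _ c hc
    rw [key c] at hc
    unfold dl at hc
    have h1 := left_ne_zero_of_mul hc
    have h2 := right_ne_zero_of_mul hc
    have h3 := left_ne_zero_of_mul h2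
    have h4 := right_ne_zero_of_mul h2
    have h5 := left_ne_zero_of_mul h4
    have h6 := right_ne_zero_of_mul h4
    exact ⟨h1, h3, h5, fun i => Finset.prod_ne_zero_iff.mp h6 i (Finset.mem_univ i)⟩

end Pool.Agent.Helper2.KW
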