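import Mathlib

/-!
# Algebraically independent `p`-adic integers near `1`
-/

namespace Pool.Agent.Helper2.KW

/-- A transcendence basis of `ℚ_[p]` over a countable subfield is uncountable. -/
theorem exists_infinite_basis {p : ℕ} [Fact p.Prime] (K₀ : Subfield ℚ_[p]) [Countable K₀] :
    ∃ s : Set ℚ_[p], s.Infinite ∧
      IsTranscendenceBasis K₀ ((↑) : s → ℚ_[p]) := by
  obtain ⟨s, hs⟩ := exists_isTranscendenceBasis K₀ ℚ_[p]
  refine ⟨s, ?_, hs⟩
  intro hfin
  have : Finite s := hfin
  have halg : Algebra.IsAlgebraic (Algebra.adjoin K₀ (Set.range ((↑) : s → ℚ_[p]))) ℚ_[p] :=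
    hs.isAlgebraic
  have h1 := Algebra.IsAlgebraic.cardinalMk_le_max
    (Algebra.adjoin K₀ (Set.range ((↑) : s → ℚ_[p]))) ℚ_[p]
  have h2 : Countable (Algebra.adjoin K₀ (Set.range ((↑) : s → ℚ_[p]))) := by
    have e := hs.1.aevalEquiv
    have : Countable (MvPolynomial s K₀) := by
      rw [← Cardinal.mk_le_aleph0_iff]
      refine MvPolynomial.cardinalMk_le_max.trans ?_
      simp
    exact e.toEquiv.symm.injective.countable
  have h3 : Cardinal.mk ℚ_[p] ≤ Cardinal.aleph0 :=
    h1.trans (max_le (Cardinal.mk_le_aleph0_iff.2 h2) le_rfl)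
  have h4 := continuum_le_cardinal_of_nontriviallyNormedField ℚ_[p]
  exact absurd (h4.trans h3) (not_le.2 Cardinal.aleph0_lt_continuum)

/-- There are algebraically independent elements over a countable subfield of `ℚ_[p]` which are
congruent to `1` modulo `p` (the field is uncountable, so its transcendence degree over a
countable subfield is uncountable; multiply by powers of `p` and add `1`). -/
theorem exists_algInd {p : ℕ} [Fact p.Prime] (K₀ : Subfield ℚ_[p]) [Countable K₀]
    (ι : Type) [Finite ι] : ∃ t : ι → ℤ_[p],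
      AlgebraicIndependent K₀ (fun i => (t i : ℚ_[p])) ∧
      ∀ i, t i - 1 ∈ Ideal.span {(p : ℤ_[p])} := by
  obtain ⟨s, hs, hb⟩ := exists_infinite_basis K₀
  have : Infinite s := hs.to_subtype
  obtain ⟨e⟩ : Nonempty (ι ↪ s) := by
    have : Fintype ι := Fintype.ofFinite ι
    exact ⟨(Fintype.equivFin ι).toEmbedding.trans
      (Fin.valEmbedding.trans (Infinite.natEmbedding s))⟩
  have h1 : AlgebraicIndependent K₀ (fun i => ((e i : s) : ℚ_[p])) :=
    hb.1.comp e e.injective
  have hp0 : (p : ℚ_[p]) ≠ 0 := by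
    exact_mod_cast (Fact.out : p.Prime).ne_zero
  -- scale into the integers
  have h2 : ∀ i, ∃ n : ℕ, ‖(p : ℚ_[p]) ^ n * ((e i : s) : ℚ_[p])‖ ≤ 1 := by
    intro i
    have hlt : ‖(p : ℚ_[p])‖ < 1 := Padic.norm_p_lt_one
    have ht : Filter.Tendsto (fun n : ℕ => ‖(p : ℚ_[p])‖ ^ n * ‖((e i : s) : ℚ_[p])‖)
        Filter.atTop (nhds 0) := by
      have := (tendsto_pow_atTop_nhds_zero_of_lt_one (norm_nonneg _) hlt).mul_const
        ‖((e i : s) : ℚ_[p])‖
      simpa using this
    obtain ⟨n, hn⟩ := (ht.eventually (eventually_le_nhds (by norm_num : (0 : ℝ) < 1))).exists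
    exact ⟨n, by rw [norm_mul, norm_pow]; exact hn⟩
  choose n hn using h2
  have h5 : ∀ i, ∃ u : ℤ_[p], (u : ℚ_[p]) = (p : ℚ_[p]) ^ n i * ((e i : s) : ℚ_[p]) :=
    fun i => ⟨⟨_, hn i⟩, rfl⟩
  choose u hu using h5
  refine ⟨fun i => 1 + (p : ℤ_[p]) * u i, ?_, ?_⟩
  · have hf : ∀ i, Transcendental K₀
        (1 + Polynomial.C ((p : K₀) ^ (n i + 1)) * Polynomial.X : Polynomial K₀) := by
      intro i
      have hpK : ((p : K₀) ^ (n i + 1)) ≠ 0 := by
        refine pow_ne_zero _ ?_
        intro h
        apply hp0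
        have := congrArg (fun x : K₀ => (x : ℚ_[p])) h
        simpa using this
      have hdeg : (1 + Polynomial.C ((p : K₀) ^ (n i + 1)) * Polynomial.X :
          Polynomial K₀).natDegree = 1 := by
        rw [add_comm]
        simpa using Polynomial.natDegree_linear (b := (1 : K₀)) hpK
      refine Polynomial.transcendental _ ?_ ?_
      · rw [hdeg]; norm_num
      · refine mem_nonZeroDivisors_of_ne_zero ?_
        intro h
        rw [Polynomial.leadingCoeff_eq_zero] at h
        rw [h] at hdeg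
        simp at hdeg
    have h3 := h1.polynomial_aeval_of_transcendental hf
    convert h3 using 2 with i
    simp only [map_add, map_one, map_mul, Polynomial.aeval_X, map_pow, map_natCast]
    rw [PadicInt.coe_add, PadicInt.coe_mul, PadicInt.coe_one, PadicInt.coe_natCast, hu]
    ring
  · intro i
    rw [add_sub_cancel_left]
    exact Ideal.mul_mem_right _ _ (Ideal.mem_span_singleton_self _)

end Pool.Agent.Helper2.KW
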