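import Mathlib

/-!
# Embeddings of number fields in `p`-adic fields
-/

set_option autoImplicit false

namespace Pool.Agent.Helper2.KW

universe u

open Polynomial

/-- A nonconstant integer polynomial has values divisible by a prime not dividing `M`. -/
theorem exists_prime_dvd_eval (G : ℤ[X]) (hG : 0 < G.natDegree) (M : ℤ) (hM : M ≠ 0) :
    ∃ (p : ℕ) (n : ℤ), p.Prime ∧ ¬ (p : ℤ) ∣ M ∧ (p : ℤ) ∣ G.eval n := by
  have hG0 : G ≠ 0 := by
    rintro rfl
    simp at hG
  obtain ⟨n0, hn0⟩ : ∃ n0 : ℤ, G.eval n0 ≠ 0 := by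
    by_contra h
    push Not at h
    exact hG0 (Polynomial.funext fun x => by rw [h x, eval_zero])
  set c : ℤ := G.eval n0 with hc
  obtain ⟨x, hx⟩ : ∃ x : ℤ, (G.eval (n0 + c * M * x)) ^ 2 ≠ c ^ 2 := by
    by_contra h
    push Not at h
    have hL : (C n0 + C (c * M) * X : ℤ[X]).natDegree = 1 := by
      rw [add_comm]
      exact natDegree_linear (mul_ne_zero hn0 hM)
    have h1 : (G.comp (C n0 + C (c * M) * X)) ^ 2 = C (c ^ 2) := by
      refine Polynomial.funext fun x => ?_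
      rw [eval_pow, eval_comp, eval_C]
      simpa using h x
    have h2 := congrArg natDegree h1
    rw [natDegree_C, natDegree_pow, natDegree_comp, hL, mul_one] at h2
    omega
  have h1 : c * M * x ∣ G.eval (n0 + c * M * x) - c := by
    have h2 := Polynomial.sub_dvd_eval_sub (n0 + c * M * x) n0 G
    rwa [add_sub_cancel_left] at h2
  obtain ⟨k, hk⟩ := h1
  have h3 : G.eval (n0 + c * M * x) = c * (1 + M * x * k) := by
    linear_combination hk
  have h4 : (1 + M * x * k).natAbs ≠ 1 := by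
    intro h5
    apply hx
    have h6 : (1 + M * x * k) ^ 2 = 1 := by
      rw [← Int.natAbs_pow_two, h5]
      norm_num
    rw [h3, mul_pow, h6, mul_one]
  obtain ⟨p, hp, hpd⟩ := Nat.exists_prime_and_dvd h4
  have hpd' : (p : ℤ) ∣ 1 + M * x * k := Int.natCast_dvd.2 hpd
  refine ⟨p, n0 + c * M * x, hp, ?_, ?_⟩
  · intro h5
    have h6 : (p : ℤ) ∣ 1 := by
      have h7 : (p : ℤ) ∣ M * x * k := by
        rw [mul_assoc]
        exact Dvd.dvd.mul_right h5 _
      exact (dvd_add_left h7).1 hpd'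
    exact (Nat.prime_iff_prime_int.1 hp).not_dvd_one h6
  · rw [h3]
    exact Dvd.dvd.mul_left hpd' _

/-- Bezout with integers. -/
theorem exists_bezout (G : ℤ[X]) (P : ℚ[X]) (hP : Irreducible P) (b : ℤ) (hb : b ≠ 0)
    (hG : G.map (algebraMap ℤ ℚ) = (b : ℤ) • P) :
    ∃ (A B : ℤ[X]) (D : ℤ), D ≠ 0 ∧ A * G + B * derivative G = C D := by
  have hsep : P.Separable := hP.separable
  obtain ⟨a1, b1, h1⟩ := hsep
  obtain ⟨u, hu, hu1⟩ := IsLocalization.integerNormalization_spec (nonZeroDivisors ℤ) a1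
  obtain ⟨v, hv, hv1⟩ := IsLocalization.integerNormalization_spec (nonZeroDivisors ℤ) b1
  have hu0 : u ≠ 0 := nonZeroDivisors.ne_zero hu
  have hv0 : v ≠ 0 := nonZeroDivisors.ne_zero hv
  set A1 := IsLocalization.integerNormalization (nonZeroDivisors ℤ) a1
  set B1 := IsLocalization.integerNormalization (nonZeroDivisors ℤ) b1
  refine ⟨C v * A1, C u * B1, u * v * b, mul_ne_zero (mul_ne_zero hu0 hv0) hb, ?_⟩
  apply Polynomial.map_injective (algebraMap ℤ ℚ) (by
    intro x y h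
    simpa using h)
  have hd : (derivative G).map (algebraMap ℤ ℚ) = (b : ℤ) • derivative P := by
    rw [← derivative_map, hG, derivative_smul]
  simp only [Polynomial.map_add, Polynomial.map_mul, map_C, hG, hd, hu1, hv1]
  have e : ∀ (m : ℤ) (R : ℚ[X]), m • R = C (m : ℚ) * R := by
    intro m R
    rw [← Int.cast_smul_eq_zsmul ℚ, smul_eq_C_mul]
  simp only [e, algebraMap_int_eq, eq_intCast]
  push_cast
  simp only [map_mul]
  linear_combination (C (v : ℚ) * C (u : ℚ) * C (b : ℚ)) * h1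

theorem norm_le_one_of_isIntegral {p : ℕ} [Fact p.Prime] (x : ℚ_[p]) (hx : IsIntegral ℤ x) :
    ‖x‖ ≤ 1 := by
  have h4 : IsIntegral ℤ_[p] x := IsIntegral.tower_top hx
  obtain ⟨y, hy⟩ := IsIntegrallyClosed.isIntegral_iff.1 h4
  rw [← hy]
  exact y.2

/-- A number field has an embedding in `ℚ_[p]` for an odd prime `p` under which finitely many given
nonzero elements are units (`Helper37/PV/Ga.lean: exists_hom_of_simple` and the infinitely many
primes dividing values of a polynomial may help). -/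
theorem exists_embedding {K : Type u} [Field K] [NumberField K] (S : Finset K) :
    ∃ (p : ℕ) (_ : Fact p.Prime) (φ : K →+* ℚ_[p]), p ≠ 2 ∧ ∀ x ∈ S, x ≠ 0 → ‖φ x‖ = 1 := by
  classical
  let pb := Field.powerBasisOfFiniteOfSeparable ℚ K
  set P : ℚ[X] := minpoly ℚ pb.gen with hPdef
  have hint : IsIntegral ℚ pb.gen := pb.isIntegral_gen
  have hP : Irreducible P := minpoly.irreducible hint
  obtain ⟨b, hb, hb1⟩ := IsLocalization.integerNormalization_spec (nonZeroDivisors ℤ) P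
  have hb0 : b ≠ 0 := nonZeroDivisors.ne_zero hb
  set G := IsLocalization.integerNormalization (nonZeroDivisors ℤ) P with hGdef
  have hb1' : G.map (algebraMap ℤ ℚ) = (b : ℤ) • P := hb1
  have hdeg : 0 < G.natDegree := by
    have h1 : (G.map (algebraMap ℤ ℚ)).natDegree = G.natDegree :=
      natDegree_map_eq_of_injective (by
        intro x y h
        simpa using h) G
    rw [← h1, hb1', ← Int.cast_smul_eq_zsmul ℚ, natDegree_smul P (Int.cast_ne_zero.2 hb0)]
    exact hP.natDegree_pos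
  obtain ⟨A, B, D, hD, hAB⟩ := exists_bezout G P hP b hb0 hb1'
  -- denominators
  have hden : ∀ x : K, ∃ N : ℤ, N ≠ 0 ∧ IsIntegral ℤ ((N : K) * x) := by
    intro x
    have hx : IsAlgebraic ℤ x := by
      have h1 : IsAlgebraic ℚ x := Algebra.IsAlgebraic.isAlgebraic x
      exact (IsFractionRing.isAlgebraic_iff ℤ ℚ K).2 h1
    obtain ⟨y, hy, h2⟩ := hx.exists_integral_multiple
    refine ⟨y, hy, ?_⟩
    rwa [zsmul_eq_mul] at h2
  choose N hN0 hN using hden
  obtain ⟨p, n, hp, hpM, hpG⟩ := exists_prime_dvd_eval G hdeg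
    (2 * D * ∏ x ∈ S, (N x * N x⁻¹)) (by
      refine mul_ne_zero (mul_ne_zero two_ne_zero hD) ?_
      exact Finset.prod_ne_zero_iff.2 fun x _ => mul_ne_zero (hN0 x) (hN0 _))
  have : Fact p.Prime := ⟨hp⟩
  have hp2 : ¬ (p : ℤ) ∣ 2 := fun h => hpM (Dvd.dvd.mul_right (Dvd.dvd.mul_right h _) _)
  have hpD : ¬ (p : ℤ) ∣ D := fun h => hpM (Dvd.dvd.mul_right (Dvd.dvd.mul_left h _) _)
  have hpN : ∀ x ∈ S, ¬ (p : ℤ) ∣ N x := fun x hx h => hpM
    (Dvd.dvd.mul_left ((Dvd.dvd.mul_right h _).trans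
      (Finset.dvd_prod_of_mem (fun x => N x * N x⁻¹) hx)) _)
  have hpN' : ∀ x ∈ S, ¬ (p : ℤ) ∣ N x⁻¹ := fun x hx h => hpM
    (Dvd.dvd.mul_left ((Dvd.dvd.mul_left h _).trans
      (Finset.dvd_prod_of_mem (fun x => N x * N x⁻¹) hx)) _)
  have hpG' : ¬ (p : ℤ) ∣ (derivative G).eval n := by
    intro h
    apply hpD
    have h1 := congrArg (eval n) hAB
    rw [eval_add, eval_mul, eval_mul, eval_C] at h1
    rw [← h1]
    exact dvd_add (Dvd.dvd.mul_left hpG _) (Dvd.dvd.mul_left h _)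
  -- Hensel
  have hev : ∀ Q : ℤ[X], Q.aeval (n : ℤ_[p]) = ((Q.eval n : ℤ) : ℤ_[p]) := by
    intro Q
    have h3 := Polynomial.aeval_algebraMap_apply ℤ_[p] n Q
    simpa using h3
  have hpp : Prime (p : ℤ) := Nat.prime_iff_prime_int.1 hp
  obtain ⟨z, hz, -⟩ := hensels_lemma (p := p) (F := G) (a := (n : ℤ_[p])) (by
      have h7 : ‖(((derivative G).eval n : ℤ) : ℤ_[p])‖ = 1 := by
        rw [PadicInt.norm_intCast_eq_one_iff, isCoprime_comm]
        exact (Prime.coprime_iff_not_dvd hpp).2 hpG'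
      rw [hev, hev, h7, one_pow]
      exact (PadicInt.norm_int_lt_one_iff_dvd _).2 hpG)
  have hzG : aeval (z : ℚ_[p]) G = 0 := by
    have h5 := Polynomial.hom_eval₂ G (algebraMap ℤ ℤ_[p]) (PadicInt.Coe.ringHom (p := p)) z
    rw [Polynomial.aeval_def] at hz ⊢
    rw [hz, map_zero] at h5
    rw [RingHom.ext_int (algebraMap ℤ ℚ_[p])
      ((PadicInt.Coe.ringHom (p := p)).comp (algebraMap ℤ ℤ_[p]))]
    exact h5.symm
  have hzP : aeval (z : ℚ_[p]) P = 0 := by
    have h1 : aeval (z : ℚ_[p]) (G.map (algebraMap ℤ ℚ)) = 0 := by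
      rw [aeval_map_algebraMap]
      exact hzG
    rw [hb1', ← Int.cast_smul_eq_zsmul ℚ, map_smul, smul_eq_zero] at h1
    rcases h1 with h1 | h1
    · exact absurd (Int.cast_eq_zero.1 h1) hb0
    · exact h1
  let φ : K →ₐ[ℚ] ℚ_[p] := pb.lift (z : ℚ_[p]) hzP
  have hle : ∀ x : K, ¬ (p : ℤ) ∣ N x → ‖φ x‖ ≤ 1 := by
    intro x hx
    have h1 : IsIntegral ℤ (φ ((N x : K) * x)) :=
      map_isIntegral_int (φ : K →+* ℚ_[p]) (hN x)
    have h2 := norm_le_one_of_isIntegral _ h1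
    rw [map_mul, map_intCast, norm_mul] at h2
    have h3 : ‖((N x : ℤ) : ℚ_[p])‖ = 1 := by
      rw [Padic.norm_intCast_eq_one_iff, isCoprime_comm]
      exact (Prime.coprime_iff_not_dvd hpp).2 hx
    rwa [h3, one_mul] at h2
  refine ⟨p, ⟨hp⟩, φ, ?_, ?_⟩
  · rintro rfl
    exact hp2 (by norm_num)
  · intro x hx hx0
    have h1 := hle x (hpN x hx)
    have h2 := hle x⁻¹ (hpN' x hx)
    have hφ : φ x ≠ 0 := by
      intro h
      exact hx0 ((map_eq_zero φ).1 h)
    rw [map_inv₀, norm_inv] at h2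
    have h3 : 0 < ‖φ x‖ := norm_pos_iff.2 hφ
    have h4 : 1 ≤ ‖φ x‖ := by
      have h5 := (inv_le_one₀ h3).1 h2
      exact h5
    exact le_antisymm h1 h4

end Pool.Agent.Helper2.KW
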