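import Pool.Agent.Helper2.KW.E1
import Pool.Agent.Helper2.KW.P0a

/-!
# Embeddings of number fields in `p`-adic fields
-/

namespace Pool.Agent.Helper2.KW

universe u

section transfer

variable {R S : Type*} [CommRing R] [CommRing S] {n : ℕ} (f : R →+* S)

theorem vmap_vec (a b e : R) : vmap f ![a, b, e] = ![f a, f b, f e] := by
  funext i
  fin_cases i <;> rfl

theorem one_vmap : (fun r => vmap f ((1 : Fin (n + 1) → V3 R) r)) = 1 := by
  funext r j
  exact map_one f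

theorem lin_one (c : CD R n) : (c.map f).lin 1 = vmap f (c.lin 1) := by
  rw [← CD.lin_map f c 1, one_vmap]

theorem con_one (c : CD R n) : (c.map f).con 1 = fun k l => f (c.con 1 k l) := by
  rw [← CD.con_map f c 1, one_vmap]

theorem wd_one (c : CD R n) (i : Fin n) : (c.map f).wd 1 i = (c.wd 1 i).map f := by
  rw [← CD.wd_map f c 1 i, one_vmap]

theorem qf_one (c : CD R n) (a b e : R) : f (qf (c.con 1) (crs (c.lin 1) ![a, b, e])) =
    qf ((c.map f).con 1) (crs ((c.map f).lin 1) ![f a, f b, f e]) := by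
  rw [← vmap_vec, lin_one, con_one, ← vmap_crs]
  simp only [qf, vmap, map_sum, map_mul]

theorem bf_one (c : CD R n) (a b e a' b' e' : R) :
    f (bf (c.con 1) (crs (c.lin 1) ![a, b, e]) (crs (c.lin 1) ![a', b', e'])) =
      bf ((c.map f).con 1) (crs ((c.map f).lin 1) ![f a, f b, f e])
        (crs ((c.map f).lin 1) ![f a', f b', f e']) := by
  rw [← vmap_vec, ← vmap_vec, lin_one, con_one, ← vmap_crs, ← vmap_crs]
  simp only [bf, vmap, map_sum, map_mul, map_add]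

end transfer

theorem der_line {R : Type*} [CommRing R] (g : Fin 3 → Fin 3 → R) (l : V3 R) (s : R) :
    bf g (crs l ![0, 1, s]) (crs l ![0, 0, 1]) =
      bf g (crs l ![0, 1, 0]) (crs l ![0, 0, 1]) + 2 * s * qf g (crs l ![0, 0, 1]) := by
  simp only [qf, bf, crs, Fin.sum_univ_three, Matrix.cons_val]
  ring

theorem qf_line0 {R : Type*} [CommRing R] (g : Fin 3 → Fin 3 → R) (l : V3 R) (s : R) :
    qf g (crs l ![0, 1, s]) = qf g (crs l ![0, 1, 0]) +
      s * bf g (crs l ![0, 1, 0]) (crs l ![0, 0, 1]) + s ^ 2 * qf g (crs l ![0, 0, 1]) := by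
  simp only [qf, bf, crs, Fin.sum_univ_three, Matrix.cons_val]
  ring

/-- A quadratic extension with a root. -/
theorem exists_root {K : Type u} [Field K] [NumberField K] {a b e : K} (ha : a ≠ 0) :
    ∃ (L : Type u) (_ : Field L) (_ : NumberField L) (ψ : K →+* L) (s : L),
      ψ a * s ^ 2 + ψ b * s + ψ e = 0 := by
  set P : Polynomial K := Polynomial.C a * Polynomial.X ^ 2 + Polynomial.C b * Polynomial.X +
    Polynomial.C e with hP
  have hdeg : P.degree = 2 := Polynomial.degree_quadratic ha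
  refine ⟨P.SplittingField, inferInstance, NumberField.of_module_finite K _,
    algebraMap K P.SplittingField, ?_⟩
  have hs := Polynomial.SplittingField.splits P
  obtain ⟨s, hs⟩ := hs.exists_eval_eq_zero (by
    rw [Polynomial.degree_map, hdeg]; norm_num)
  refine ⟨s, ?_⟩
  rw [Polynomial.eval_map] at hs
  have h1 : ∀ (M : Type u) [Field M] (f : K →+* M) (x : M),
      Polynomial.eval₂ f x P = f a * x ^ 2 + f b * x + f e := by
    intro M _ f x
    simp [hP]
  rw [← h1]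
  exact hs

/-- Apply `exists_embedding` to the field generated by the root `s` of the quadratic equation
(leading coefficient `hA`, discriminant `hD`) and the nonzero elements among: the coefficients,
`s`, and the elements which have to be units. -/
theorem exists_base {K : Type u} [Field K] [NumberField K] {n : ℕ} (δ : MvPolynomial WI ℤ)
    (c : CD K n) (hl : c.lin 1 0 ≠ 0)
    (hA : qf (c.con 1) (crs (c.lin 1) ![0, 0, 1]) ≠ 0)
    (hD : (bf (c.con 1) (crs (c.lin 1) ![0, 1, 0]) (crs (c.lin 1) ![0, 0, 1])) ^ 2 -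
      4 * qf (c.con 1) (crs (c.lin 1) ![0, 0, 1]) *
        qf (c.con 1) (crs (c.lin 1) ![0, 1, 0]) ≠ 0)
    (hδ : ∀ i, evW δ (c.wd 1 i) ≠ 0) :
    ∃ (p : ℕ) (_ : Fact p.Prime) (φ : K →+* ℚ_[p]) (c' : CD ℤ_[p] n) (s : ℤ_[p]), p ≠ 2 ∧
      c'.map PadicInt.Coe.ringHom = c.map φ ∧ Base δ c' s := by
  classical
  obtain ⟨L, _, _, ψ, s, hs⟩ := exists_root (b := bf (c.con 1) (crs (c.lin 1) ![0, 1, 0])
    (crs (c.lin 1) ![0, 0, 1])) (e := qf (c.con 1) (crs (c.lin 1) ![0, 1, 0])) hA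
  have hr : qf ((c.map ψ).con 1) (crs ((c.map ψ).lin 1) ![0, 1, s]) = 0 := by
    have e1 := qf_one ψ c 0 1 0
    have e2 := bf_one ψ c 0 1 0 0 0 1
    have e3 := qf_one ψ c 0 0 1
    simp only [map_zero, map_one] at e1 e2 e3
    rw [qf_line0, ← e1, ← e2, ← e3]
    linear_combination hs
  have hd : bf ((c.map ψ).con 1) (crs ((c.map ψ).lin 1) ![0, 1, s])
      (crs ((c.map ψ).lin 1) ![0, 0, 1]) ≠ 0 := by
    have e2 := bf_one ψ c 0 1 0 0 0 1
    have e3 := qf_one ψ c 0 0 1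
    simp only [map_zero, map_one] at e2 e3
    rw [der_line, ← e2, ← e3]
    intro h0
    apply (map_ne_zero ψ).2 hD
    simp only [map_sub, map_mul, map_pow, map_ofNat]
    linear_combination (ψ (bf (c.con 1) (crs (c.lin 1) ![0, 1, 0]) (crs (c.lin 1) ![0, 0, 1])) +
      2 * s * ψ (qf (c.con 1) (crs (c.lin 1) ![0, 0, 1]))) * h0 -
        4 * ψ (qf (c.con 1) (crs (c.lin 1) ![0, 0, 1])) * hs
  set T : Finset L := {s, ψ (c.lin 1 0), bf ((c.map ψ).con 1) (crs ((c.map ψ).lin 1) ![0, 1, s])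
      (crs ((c.map ψ).lin 1) ![0, 0, 1])} ∪ Finset.univ.image (fun α => ψ (c.a α)) ∪
    Finset.univ.image (fun β => ψ (c.b β)) ∪ Finset.univ.image (fun i => ψ (evW δ (c.wd 1 i)))
    with hT
  obtain ⟨p, hp, φ, hp2, hφ⟩ := exists_embedding T
  have hle : ∀ x ∈ T, ‖φ x‖ ≤ 1 := by
    intro x hx
    by_cases h0 : x = 0
    · rw [h0, map_zero, norm_zero]; norm_num
    · exact (hφ x hx h0).le
  have hTs : s ∈ T := by simp [hT]
  have hTa : ∀ α, ψ (c.a α) ∈ T := fun α => by simp [hT]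
  have hTb : ∀ β, ψ (c.b β) ∈ T := fun β => by simp [hT]
  have hTd : ∀ i, ψ (evW δ (c.wd 1 i)) ∈ T := fun i => by simp [hT]
  refine ⟨p, hp, φ.comp ψ, ⟨fun α => ⟨φ (ψ (c.a α)), hle _ (hTa α)⟩,
    fun β => ⟨φ (ψ (c.b β)), hle _ (hTb β)⟩⟩, ⟨φ s, hle _ hTs⟩, hp2, rfl, ?_⟩
  set c' : CD ℤ_[p] n := ⟨fun α => ⟨φ (ψ (c.a α)), hle _ (hTa α)⟩,
    fun β => ⟨φ (ψ (c.b β)), hle _ (hTb β)⟩⟩ with hc'
  set s' : ℤ_[p] := ⟨φ s, hle _ hTs⟩ with hs'
  have hcc : c'.map PadicInt.Coe.ringHom = (c.map ψ).map φ := rfl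
  have hss : PadicInt.Coe.ringHom s' = φ s := rfl
  have hu : ∀ x : ℤ_[p], ‖(PadicInt.Coe.ringHom x : ℚ_[p])‖ = 1 → IsUnit x := fun x hx =>
    PadicInt.isUnit_iff.2 hx
  refine ⟨hu _ ?_, ?_, hu _ ?_, fun i => hu _ ?_⟩
  · have h1 : PadicInt.Coe.ringHom (c'.lin 1 0) = φ (ψ (c.lin 1 0)) := by
      have h2 := congrFun (lin_one PadicInt.Coe.ringHom c') 0
      rw [hcc, lin_one, lin_one] at h2
      exact h2.symm
    rw [h1]
    exact hφ _ (by simp [hT]) ((map_ne_zero ψ).2 hl)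
  · have h1 := qf_one PadicInt.Coe.ringHom c' 0 1 s'
    have h2 := qf_one φ (c.map ψ) 0 1 s
    rw [hcc, hss] at h1
    simp only [map_zero, map_one] at h1 h2
    rw [← h2, hr, map_zero] at h1
    exact (map_eq_zero_iff _ (Subtype.coe_injective : Function.Injective
      (PadicInt.Coe.ringHom : ℤ_[p] →+* ℚ_[p]))).1 h1
  · have h1 := bf_one PadicInt.Coe.ringHom c' 0 1 s' 0 0 1
    have h2 := bf_one φ (c.map ψ) 0 1 s 0 0 1
    rw [hcc, hss] at h1
    simp only [map_zero, map_one] at h1 h2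
    rw [h1, ← h2]
    exact hφ _ (by simp [hT]) hd
  · have h1 : PadicInt.Coe.ringHom (evW δ (c'.wd 1 i)) = φ (ψ (evW δ (c.wd 1 i))) := by
      rw [← evW_map, ← wd_one, hcc, wd_one, wd_one, evW_map, evW_map]
    rw [h1]
    exact hφ _ (hTd i) ((map_ne_zero ψ).2 (hδ i))

end Pool.Agent.Helper2.KW
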