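import Pool.Agent.Helper2.KW.B2
import Pool.Agent.Helper2.KW.C2
import Pool.Agent.Helper2.KW.C3
import Pool.Agent.Helper2.KW.D2
import Pool.Agent.Helper2.KW.P0
import Pool.Agent.Helper2.KW.A1c
import Pool.Agent.Helper15.PotDense

/-!
# Potential density of complete intersections of multidegrees `(1, ..., 1)`, `(2, ..., 2)`
-/

set_option linter.unusedSectionVars false

namespace Pool.Agent.Helper2.KW

open MvPolynomial

universe u v

theorem countable_of_numberField (K : Type*) [Field K] [NumberField K] : Countable K :=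
  (Module.finBasis ℚ K).equivFun.toEquiv.countable_iff.mpr inferInstance

section basics

variable {R : Type*} [CommRing R] {n : ℕ}

theorem CD.lin_eq (c : CD R n) (z : Fin (n + 1) → V3 R) (i : Fin n) :
    c.lin z = (c.wd z i).swap.line (z i.castSucc) := by
  funext k
  show mev c.a _ = ∑ j, mev c.a _ * z i.castSucc j
  conv_lhs => rw [← Function.update_eq_self i.castSucc z, Function.update_comm
    (CD.castSucc_ne_last i), mev_update]
  refine Finset.sum_congr rfl fun j _ => ?_
  rw [Function.update_comm (CD.castSucc_ne_last i).symm, mul_comm]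

theorem CD.con_eq (c : CD R n) (z : Fin (n + 1) → V3 R) (i : Fin n) :
    c.con z = (c.wd z i).swap.con (z i.castSucc) := by
  funext k l
  show mev c.b _ = ∑ j, ∑ j', mev c.b _ * (z i.castSucc j * z i.castSucc j')
  have e : ∀ x : Fin 3 × Fin 3 → R, Function.update (fun r => sq (z r)) (Fin.last n) x =
      Function.update (Function.update (fun r => sq (z r)) i.castSucc (sq (z i.castSucc)))
        (Fin.last n) x := by
    intro x
    rw [Function.update_eq_self i.castSucc (fun r => sq (z r))]
  rw [e, Function.update_comm (CD.castSucc_ne_last i), mev_update, Fintype.sum_prod_type]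
  refine Finset.sum_congr rfl fun j _ => Finset.sum_congr rfl fun j' _ => ?_
  rw [Function.update_comm (CD.castSucc_ne_last i).symm, mul_comm]
  rfl

theorem CD.G_eq (c : CD R n) (z : Fin (n + 1) → V3 R) (i : Fin n) :
    gm (c.lin z) (c.con z) = (c.wd z i).swap.G (z i.castSucc) := by
  rw [c.lin_eq z i, c.con_eq z i]
  rfl

theorem CD.lin_congrF (c : CD R n) {z z' : Fin (n + 1) → V3 R}
    (h : ∀ r : Fin n, z r.castSucc = z' r.castSucc) : c.lin z = c.lin z' := by
  have e : ∀ x : V3 R, Function.update z (Fin.last n) x = Function.update z' (Fin.last n) x := by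
    intro x
    funext r
    by_cases hr : r = Fin.last n
    · subst hr; simp
    · have h1 := h (r.castPred hr)
      rw [Fin.castSucc_castPred] at h1
      simp [hr, h1]
  funext k
  simp only [CD.lin, e]

theorem CD.con_congrF (c : CD R n) {z z' : Fin (n + 1) → V3 R}
    (h : ∀ r : Fin n, z r.castSucc = z' r.castSucc) : c.con z = c.con z' := by
  have e : ∀ x : Fin 3 × Fin 3 → R, Function.update (fun r => sq (z r)) (Fin.last n) x =
      Function.update (fun r => sq (z' r)) (Fin.last n) x := by
    intro x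
    funext r
    by_cases hr : r = Fin.last n
    · subst hr; simp
    · have h1 := h (r.castPred hr)
      rw [Fin.castSucc_castPred] at h1
      simp [hr, h1]
  funext k l
  simp only [CD.con, e]

theorem CD.isPt_of_injective {S : Type*} [CommRing S] {f : R →+* S} (hf : Function.Injective f)
    {c : CD R n} {z : Fin (n + 1) → V3 R} (h : (c.map f).IsPt (fun r => vmap f (z r))) :
    c.IsPt z := by
  rw [CD.isPt_iff_last, CD.lin_map, CD.con_map] at h
  rw [CD.isPt_iff_last]
  constructor
  · apply hf
    rw [map_dot, h.1, map_zero]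
  · apply hf
    rw [map_zero, ← h.2]
    simp only [qf, vmap, map_sum, map_mul]

end basics

theorem map_qfF {R S : Type*} [CommRing R] [CommRing S] (f : R →+* S) (c : Fin 3 → Fin 3 → R)
    (u : V3 R) : f (qf c u) = qf (fun i j => f (c i j)) (vmap f u) := by
  simp only [qf, vmap, map_sum, map_mul]

theorem map_bfF {R S : Type*} [CommRing R] [CommRing S] (f : R →+* S) (c : Fin 3 → Fin 3 → R)
    (u t : V3 R) : f (bf c u t) = bf (fun i j => f (c i j)) (vmap f u) (vmap f t) := by
  simp only [bf, vmap, map_sum, map_mul, map_add]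

theorem Gp_map {k k' : Type*} [Field k] [Field k'] (f : k →+* k') (W : WD k)
    (p : Fin 3 × Fin 3) : (W.map f).Gp p = map f (W.Gp p) := by
  unfold WD.Gp
  have h1 := WD.G_map (map f : MvPolynomial (Fin 3) k →+* MvPolynomial (Fin 3) k')
    (W.map C) X
  have h2 : vmap (map f : MvPolynomial (Fin 3) k →+* MvPolynomial (Fin 3) k') X = X := by
    funext j; simp [vmap]
  have h3 : (W.map (C : k →+* MvPolynomial (Fin 3) k)).map
      (map f : MvPolynomial (Fin 3) k →+* MvPolynomial (Fin 3) k') =
      (W.map f).map (C : k' →+* MvPolynomial (Fin 3) k') := by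
    refine WD.ext ?_ ?_
    · funext i j
      exact map_C _ _
    · funext i j k l
      exact map_C _ _
  rw [h2, h3] at h1
  exact congrFun (congrFun h1 p.1) p.2

/-- The first coefficient of the double covering does not vanish identically. -/
theorem exists_gm {K : Type u} [Field K] [CharZero K] {K' : Type} [Field K'] [CharZero K']
    (φ : K →+* K') {n : ℕ} (hn : 1 ≤ n) {δ : MvPolynomial WI ℤ} (hδ : Nice δ) (c : CD K n)
    (hw : ∀ i, evW δ (c.wd 1 i) ≠ 0) :
    ∃ z : Fin (n + 1) → V3 K, (∀ r : Fin n, z r.castSucc 0 = 1) ∧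
      gm (c.lin z) (c.con z) 0 0 ≠ 0 := by
  let i : Fin n := ⟨0, hn⟩
  have h1 : IsUnit (evW δ ((c.wd 1 i).map φ)) := by
    rw [evW_map]
    exact (Ne.isUnit (hw i)).map φ
  obtain ⟨u', -, hu'⟩ := WD.exists_G00 ((c.wd 1 i).map φ) (hδ K' _ h1)
  have h2 : (c.wd 1 i).swap.Gp (0, 0) ≠ 0 := by
    intro h
    apply hu'
    rw [← WD.eval_Gp ((c.wd 1 i).map φ).swap u' (0, 0), WD.swap_map, Gp_map, h, map_zero, map_zero]
  have h3 : (X 0 * (c.wd 1 i).swap.Gp (0, 0) : MvPolynomial (Fin 3) K) ≠ 0 :=
    mul_ne_zero (X_ne_zero 0) h2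
  obtain ⟨u, hu⟩ : ∃ u : Fin 3 → K, eval u (X 0 * (c.wd 1 i).swap.Gp (0, 0)) ≠ 0 := by
    by_contra hcon
    push Not at hcon
    exact h3 (MvPolynomial.funext fun u => by rw [hcon u, map_zero])
  rw [map_mul, eval_X] at hu
  have hu0 : u 0 ≠ 0 := left_ne_zero_of_mul hu
  have hu1 := right_ne_zero_of_mul hu
  let w : V3 K := fun j => (u 0)⁻¹ * u j
  have hw1 : eval w ((c.wd 1 i).swap.Gp (0, 0)) ≠ 0 := by
    have h4 : w = (u 0)⁻¹ • u := rfl
    rw [h4, Pool.Agent.Helper47.NI.eval_smul_of_hom ((c.wd 1 i).swap.Gp_hom (0, 0))]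
    exact mul_ne_zero (pow_ne_zero _ (inv_ne_zero hu0)) hu1
  refine ⟨Function.update 1 i.castSucc w, ?_, ?_⟩
  · intro r
    by_cases hr : r = i
    · subst hr
      rw [Function.update_self]
      exact inv_mul_cancel₀ hu0
    · have : r.castSucc ≠ i.castSucc := fun h => hr (Fin.castSucc_injective n h)
      rw [Function.update_of_ne this]
      rfl
  · rw [c.G_eq _ i, Function.update_self]
    have h5 : c.wd (Function.update 1 i.castSucc w) i = c.wd 1 i :=
      c.wd_congr i fun r hr _ => Function.update_of_ne hr _ _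
    rw [h5, ← WD.eval_Gp (c.wd 1 i).swap w (0, 0)]
    exact hw1

end Pool.Agent.Helper2.KW
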