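import Pool.Agent.Helper2.KW.F2

/-!
# Potential density of complete intersections of multidegrees `(1, ..., 1)`, `(2, ..., 2)`: schemes
-/

namespace Pool.Agent.Helper2.KW

open AlgebraicGeometry CategoryTheory Pool.Agent.Helper15 MvPolynomial

universe u

theorem main_scheme (n : ℕ) (hn : 1 ≤ n) : ∃ Δ : MvPolynomial (CI n) ℤ, Δ ≠ 0 ∧
    ∀ (K : Type u) [Field K] [NumberField K] (c : CD K n), aeval c.coe Δ ≠ 0 →
      (∃ P : Ideal (MvPolynomial (Fin (n + 1) × Fin 2) K), P.IsPrime ∧ eqL c ∈ P ∧ eqQ c ∈ P ∧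
        Dominant P) ∧
      ∀ P : Ideal (MvPolynomial (Fin (n + 1) × Fin 2) K), P.IsPrime → eqL c ∈ P → eqQ c ∈ P →
        Dominant P →
        ∀ (X : Scheme.{u}) (s : X ⟶ Spec (CommRingCat.of K)) [IrreducibleSpace X],
          BirationalOver K X (Spec (CommRingCat.of (MvPolynomial (Fin (n + 1) × Fin 2) K ⧸ P))) s
            (Spec.map (CommRingCat.ofHom
              (algebraMap K (MvPolynomial (Fin (n + 1) × Fin 2) K ⧸ P)))) →
          PotentiallyDense K X s := by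
  obtain ⟨δ, hδ, hδ0⟩ := exists_delta
  obtain ⟨Δ, hΔ, hΔK⟩ := exists_Delta n δ hδ0
  refine ⟨Δ, hΔ, fun K _ _ c hc => ?_⟩
  obtain ⟨hl, hA, hD, hw⟩ := hΔK K c hc
  obtain ⟨h1, L, iL, aL, hfin, h2⟩ := main hn hδ c hl hA hD hw
  refine ⟨h1, fun P hP hL hQ hdom X s _ hX => ?_⟩
  refine PotentiallyDense.of_birational K X _ s _ hX ?_
  exact ⟨L, iL, aL, hfin, dense_ratPts_spec K L _ (h2 P hP hL hQ hdom)⟩

end Pool.Agent.Helper2.KW
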